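import Pool.Agent.H624C.Basic

/-!
# AL: existence of a good star size (`S_alpha`)
-/

set_option autoImplicit false

namespace Pool.Agent.H624C

open Finset
open scoped Classical

section AL

variable {n : ℕ}

theorem AL_X_eq (R : Set (Col n)) (S : Finset (Fin n)) (ω : Om n) :
    (X R S ω : ℝ) = ∑ v ∈ S, (degX R S ω v : ℝ) := by
  unfold X degX
  rw [Finset.card_filter, Finset.sum_product]
  push_cast
  refine Finset.sum_congr rfl (fun v _ => ?_)
  rw [Finset.card_filter]
  push_cast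
  refine Finset.sum_congr rfl (fun z _ => ?_)
  by_cases h : z = v
  · simp [h]
  · simp [h, Ne.symm h]

theorem AL_powerset_sum (S : Finset (Fin n)) {x : ℝ} (hx : 0 ≤ x) :
    ∑ Y ∈ S.powerset, x ^ Y.card ≤ Real.exp (x * n) := by
  have h := Finset.sum_pow_mul_eq_add_pow x 1 S
  simp only [one_pow, mul_one] at h
  rw [h]
  have h1 : x + 1 ≤ Real.exp x := Real.add_one_le_exp x
  have hS : S.card ≤ n := by simpa using Finset.card_le_univ S
  calc (x + 1) ^ S.card ≤ (x + 1) ^ n := pow_le_pow_right₀ (by linarith) hS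
    _ ≤ (Real.exp x) ^ n := pow_le_pow_left₀ (by linarith) h1 n
    _ = Real.exp (x * n) := by rw [← Real.exp_nat_mul]; ring_nf

theorem AL_G_le (hla : S_large) {p : ℝ} (h0 : 0 ≤ p) (h1 : p ≤ 1) (R : Set (Col n))
    (S Y : Finset (Fin n)) :
    G p R S Y ≤ E p (fun ω => ind (Alive (RY R Y) S ω) * √(X (RY R Y) S ω : ℝ)) + 1 := by
  unfold G
  have h2 : E p (fun ω : Om n => ind (Alive (RY R Y) S ω) * √(X (RY R Y) S ω : ℝ)) + 1 =
      E p (fun ω : Om n => ind (Alive (RY R Y) S ω) * √(X (RY R Y) S ω : ℝ) + 1) := by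
    rw [E_add, E_one]
  rw [h2]
  apply E_mono h0 h1
  intro ω
  by_cases h : Alive (RY R Y) S ω
  · rw [ind_true h, one_mul, one_mul]
    exact hla n S Y R ω h
  · rw [ind_false h, zero_mul, zero_mul]; norm_num

theorem AL_prs (l : ℕ) (S : Finset (Fin n)) (ω : Om n) :
    ∑ Y ∈ S.powerset.filter (fun Y => Y.card = l),
      ind (Alive (RY Set.univ Y) S ω) * (cs Set.univ S ω Y : ℝ) ≤ (prs l S ω : ℝ) := by
  -- choose enumerations
  have hen : ∀ Y : Finset (Fin n), Y.card = l → ∃ w : Fin l → Fin n, univ.image w = Y := by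
    intro Y hY
    refine ⟨fun i => (Y.equivFinOfCardEq hY).symm i, ?_⟩
    ext x
    simp only [mem_image, mem_univ, true_and]
    constructor
    · rintro ⟨i, rfl⟩; exact ((Y.equivFinOfCardEq hY).symm i).2
    · intro hx
      exact ⟨Y.equivFinOfCardEq hY ⟨x, hx⟩, by simp⟩
  set A : Finset (Finset (Fin n) × Fin n) :=
    ((S.powerset.filter (fun Y => Y.card = l)) ×ˢ S).filter
      (fun q => Alive (RY Set.univ q.1) S ω ∧ Cov Set.univ S ω (insert q.2 q.1)) with hAdef
  have hsum : ∑ Y ∈ S.powerset.filter (fun Y => Y.card = l),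
      ind (Alive (RY Set.univ Y) S ω) * (cs Set.univ S ω Y : ℝ) = (A.card : ℝ) := by
    rw [hAdef, Finset.card_filter, Finset.sum_product]
    push_cast
    refine Finset.sum_congr rfl (fun Y _ => ?_)
    unfold cs
    by_cases h : Alive (RY Set.univ Y) S ω
    · rw [ind_true h, one_mul, Finset.card_filter]
      push_cast
      refine Finset.sum_congr rfl (fun z _ => ?_)
      simp [h]
    · rw [ind_false h, zero_mul]
      simp [h]
  rw [hsum]
  unfold prs
  norm_cast
  by_cases hne : Nonempty (Fin l → Fin n)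
  swap
  · have hA0 : A = ∅ := by
      rw [Finset.eq_empty_iff_forall_notMem]
      intro q hq
      rw [hAdef] at hq
      simp only [mem_product, mem_filter, mem_powerset] at hq
      obtain ⟨w, _⟩ := hen q.1 hq.1.1.2
      exact hne ⟨w⟩
    rw [hA0]; simp
  choose! enum henum using hen
  refine Finset.card_le_card_of_injOn (fun q => (enum q.1, q.2)) ?_ ?_
  · intro q hq
    rw [hAdef] at hq
    simp only [coe_filter, mem_product, mem_filter, mem_powerset, Set.mem_ofPred_eq] at hq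
    obtain ⟨⟨⟨hqS, hql⟩, hq2⟩, hqA, hqC⟩ := hq
    have hi := henum q.1 hql
    simp only [coe_filter, mem_univ, true_and, Set.mem_ofPred_eq]
    refine ⟨?_, hq2, ?_, ?_⟩
    · intro i
      have hmem : enum q.1 i ∈ univ.image (enum q.1) :=
        Finset.mem_image_of_mem (enum q.1) (Finset.mem_univ i)
      rw [hi] at hmem
      exact hqS hmem
    · rw [hi, not_Cov_iff]; exact hqA
    · rw [hi]; exact hqC
  · intro q hq q' hq' heq
    rw [hAdef] at hq hq'
    simp only [coe_filter, mem_product, mem_filter, mem_powerset, Set.mem_ofPred_eq] at hq hq'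
    obtain ⟨e1, e2⟩ : enum q.1 = enum q'.1 ∧ q.2 = q'.2 := by
      simpa only [Prod.mk.injEq] using heq
    have h1 := henum q.1 hq.1.1.2
    have h2 := henum q'.1 hq'.1.1.2
    rw [e1, h2] at h1
    exact Prod.ext h1.symm e2

/-- the tail of the sum over the star sizes -/
theorem AL_tail {a b : ℝ} (ha : 0 ≤ a) (hb : 0 ≤ b) (hn : 0 < n) (D : ℕ)
    (S : Finset (Fin n)) (g : Finset (Fin n) → ℝ) {m : ℝ} (hm : 0 ≤ m)
    (hg : ∀ Y ∈ S.powerset, g Y ≤ m * (a + b * Y.card + 19)) :
    ∑ Y ∈ S.powerset.filter (fun Y => ¬ Y.card ≤ D), (19 / (n : ℝ)) ^ Y.card * g Y ≤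
      m * ((a + b + 19) * Real.exp 76) / 2 ^ D := by
  have hnR : (0 : ℝ) < n := by exact_mod_cast hn
  have hq : (0 : ℝ) ≤ 19 / (n : ℝ) := by positivity
  have h1 : ∀ Y ∈ S.powerset.filter (fun Y => ¬ Y.card ≤ D),
      (19 / (n : ℝ)) ^ Y.card * g Y ≤
        m * (a + b + 19) / 2 ^ D * (4 * (19 / (n : ℝ))) ^ Y.card := by
    intro Y hY
    rw [mem_filter] at hY
    have hYc : D ≤ Y.card := by omega
    have e1 : a + b * (Y.card : ℝ) + 19 ≤ (a + b + 19) * 2 ^ Y.card := by
      have h2 : (Y.card : ℝ) ≤ 2 ^ Y.card := by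
        exact_mod_cast (Nat.lt_two_pow_self (n := Y.card)).le
      have h3 : (1 : ℝ) ≤ 2 ^ Y.card := one_le_pow₀ (by norm_num)
      have h4 : b * (Y.card : ℝ) ≤ b * 2 ^ Y.card := mul_le_mul_of_nonneg_left h2 hb
      have h5 : a * 1 ≤ a * 2 ^ Y.card := mul_le_mul_of_nonneg_left h3 ha
      linarith [h4, h5, h3]
    have e2 : (1 : ℝ) ≤ 2 ^ Y.card / 2 ^ D := by
      rw [le_div_iff₀ (by positivity), one_mul]
      exact pow_le_pow_right₀ (by norm_num) hYc
    calc (19 / (n : ℝ)) ^ Y.card * g Y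
        ≤ (19 / (n : ℝ)) ^ Y.card * (m * ((a + b + 19) * 2 ^ Y.card)) := by
          refine mul_le_mul_of_nonneg_left ((hg Y hY.1).trans ?_) (by positivity)
          exact mul_le_mul_of_nonneg_left e1 hm
      _ ≤ (19 / (n : ℝ)) ^ Y.card * (m * ((a + b + 19) * 2 ^ Y.card)) *
            (2 ^ Y.card / 2 ^ D) := by
          refine le_mul_of_one_le_right ?_ e2
          positivity
      _ = m * (a + b + 19) / 2 ^ D * (4 * (19 / (n : ℝ))) ^ Y.card := by
          rw [show (4 : ℝ) * (19 / (n : ℝ)) = 2 * 2 * (19 / (n : ℝ)) by ring,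
            mul_pow, mul_pow]
          ring
  calc ∑ Y ∈ S.powerset.filter (fun Y => ¬ Y.card ≤ D), (19 / (n : ℝ)) ^ Y.card * g Y
      ≤ ∑ Y ∈ S.powerset.filter (fun Y => ¬ Y.card ≤ D),
          m * (a + b + 19) / 2 ^ D * (4 * (19 / (n : ℝ))) ^ Y.card := Finset.sum_le_sum h1
    _ ≤ ∑ Y ∈ S.powerset, m * (a + b + 19) / 2 ^ D * (4 * (19 / (n : ℝ))) ^ Y.card := by
        refine Finset.sum_le_sum_of_subset_of_nonneg (Finset.filter_subset _ _) ?_
        intro Y _ _
        positivity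
    _ = m * (a + b + 19) / 2 ^ D * ∑ Y ∈ S.powerset, (4 * (19 / (n : ℝ))) ^ Y.card := by
        rw [Finset.mul_sum]
    _ ≤ m * (a + b + 19) / 2 ^ D * Real.exp 76 := by
        refine mul_le_mul_of_nonneg_left ?_ (by positivity)
        refine (AL_powerset_sum S (by positivity)).trans (le_of_eq ?_)
        congr 1
        field_simp
        norm_num
    _ = m * ((a + b + 19) * Real.exp 76) / 2 ^ D := by ring

/-- the decomposition of the kill sum at fixed `p` -/
theorem AL_decomp (hsm : S_small) {p q : ℝ} (h0 : 0 ≤ p) (h1 : p ≤ 1) (hpq : p ≤ q) :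
    E p (fun ω : Om n => ind (AliveU ω) * (X Set.univ Finset.univ ω : ℝ)) ≤
      ∑ v : Fin n, ∑ Y ∈ (univ.erase v).powerset, q ^ Y.card *
        G p Set.univ (univ.erase v) Y := by
  have e1 : E p (fun ω : Om n => ind (AliveU ω) * (X Set.univ Finset.univ ω : ℝ)) =
      ∑ v : Fin n, E p (fun ω : Om n => ind (AliveU ω) *
        (degX Set.univ Finset.univ ω v : ℝ)) := by
    rw [← E_sum]
    apply E_congr
    intro ω
    rw [AL_X_eq, Finset.mul_sum]
  rw [e1]
  refine Finset.sum_le_sum (fun v _ => ?_)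
  have h2 := hsm n p (univ.erase v) ∅ v Set.univ (Finset.notMem_erase v univ)
    (Finset.empty_subset _) (Dep_univ ∅)
  rw [Finset.insert_erase (Finset.mem_univ v)] at h2
  rw [← h2]
  refine Finset.sum_le_sum (fun Y _ => ?_)
  refine mul_le_mul_of_nonneg_right ?_ (G_nonneg h0 h1 _ _ _)
  have h3 : 0 ≤ 1 - p := by linarith
  calc p ^ Y.card * (1 - p) ^ ((univ.erase v).card - Y.card) ≤ p ^ Y.card * 1 := by
        refine mul_le_mul_of_nonneg_left (pow_le_one₀ h3 (by linarith)) (by positivity)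
    _ = p ^ Y.card := mul_one _
    _ ≤ q ^ Y.card := pow_le_pow_left₀ h0 hpq _

end AL

theorem AL_thm (hsm : S_small) (hla : S_large) (hA : S_A) (hk : S_kill) (hkl : S_killlow)
    (he : S_early) (hl : S_late) : S_alpha := by
  obtain ⟨εe, hεe, he⟩ := he
  obtain ⟨a, b, ha, hb, hA⟩ := hA 19 (by norm_num)
  obtain ⟨D, hD⟩ : ∃ D : ℕ, 8 * ((a + b + 19) * Real.exp 76) < 2 ^ D :=
    pow_unbounded_of_one_lt _ (by norm_num)
  refine ⟨min (εe / 2) 1, 19, 1 / (19 ^ D * (4 * ((D : ℝ) + 1))), D,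
    38 + ⌈2 / εe⌉₊, ?_, ?_, by positivity, ?_⟩
  · exact lt_min (by linarith) one_pos
  · exact lt_of_le_of_lt (min_le_right _ _) (by norm_num)
  intro n hn M hM t0 t1 ht0 ht1
  -- basic facts
  have hn38 : 38 ≤ n := by omega
  have hn0 : 0 < n := by omega
  have hnR : (0 : ℝ) < n := by exact_mod_cast hn0
  have hn38R : (38 : ℝ) ≤ n := by exact_mod_cast hn38
  have hnε : 2 / εe ≤ n := by
    have h1 : 2 / εe ≤ (⌈2 / εe⌉₊ : ℝ) := Nat.le_ceil _
    have h2 : ((⌈2 / εe⌉₊ : ℕ) : ℝ) ≤ n := by exact_mod_cast (by omega : ⌈2 / εe⌉₊ ≤ n)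
    linarith
  have hMR : (n : ℝ) ^ 5 ≤ M := by exact_mod_cast hM
  have hM2 : (n : ℝ) ^ 2 ≤ M := le_trans (pow_le_pow_right₀ (by linarith) (by norm_num)) hMR
  have hM0R : (0 : ℝ) < M := lt_of_lt_of_le (by positivity) hM2
  have hM0 : 0 < M := by exact_mod_cast hM0R
  have hnM : (n : ℝ) / M ≤ 1 / n := by
    rw [div_le_div_iff₀ hM0R hnR]
    nlinarith
  have h1n : (1 : ℝ) / n ≤ 1 := by
    rw [div_le_one hnR]; linarith
  have h1ne : (1 : ℝ) / n ≤ εe / 2 := by
    rw [div_le_iff₀ hεe] at hnε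
    rw [div_le_div_iff₀ hnR (by norm_num)]
    linarith
  have hε0 : 0 < min (εe / 2) 1 := lt_min (by linarith) one_pos
  have ht0a : (t0 : ℝ) < min (εe / 2) 1 * M / n + 1 := by
    rw [ht0]; exact Nat.ceil_lt_add_one (by positivity)
  have ht1a : (t1 : ℝ) ≤ 19 * M / n := by
    rw [ht1]; exact Nat.floor_le (by positivity)
  have ht1b : 19 * (M : ℝ) / n < t1 + 1 := by
    rw [ht1]; exact Nat.lt_floor_add_one _
  have ht1n : (t1 : ℝ) * n ≤ 19 * M := by
    rwa [le_div_iff₀ hnR] at ht1a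
  have hMn1 : (1 : ℝ) ≤ M / n := by
    rw [le_div_iff₀ hnR]; nlinarith
  have h2t1 : 2 * t1 ≤ M := by
    have : 2 * (t1 : ℝ) ≤ M := by
      have : (t1 : ℝ) * 38 ≤ 19 * M :=
        le_trans (mul_le_mul_of_nonneg_left hn38R (Nat.cast_nonneg _)) ht1n
      linarith
    exact_mod_cast this
  have ht01 : t0 ≤ t1 := by
    rw [ht1]
    apply Nat.le_floor
    have h1 : min (εe / 2) 1 * M / n ≤ 1 * M / n := by
      apply div_le_div_of_nonneg_right _ hnR.le
      exact mul_le_mul_of_nonneg_right (min_le_right _ _) hM0R.le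
    have h2 : (19 : ℝ) * M / n = 19 * (M / n) := by ring
    have h3 : (1 : ℝ) * M / n = M / n := by ring
    rw [h2]; rw [h3] at h1
    linarith
  have hearly : (t0 : ℝ) / M * n ≤ εe := by
    have h1 : (t0 : ℝ) / M * n ≤ (min (εe / 2) 1 * M / n + 1) / M * n := by
      refine mul_le_mul_of_nonneg_right ?_ hnR.le
      exact div_le_div_of_nonneg_right ht0a.le hM0R.le
    have h2 : (min (εe / 2) 1 * M / n + 1) / M * n = min (εe / 2) 1 + n / M := by
      field_simp
    rw [h2] at h1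
    have h3 : min (εe / 2) 1 ≤ εe / 2 := min_le_left _ _
    linarith
  have hlate : 18 ≤ (t1 : ℝ) / M * n := by
    have h1 : (19 * (M : ℝ) / n - 1) / M * n ≤ (t1 : ℝ) / M * n := by
      refine mul_le_mul_of_nonneg_right ?_ hnR.le
      exact div_le_div_of_nonneg_right (by linarith) hM0R.le
    have h2 : (19 * (M : ℝ) / n - 1) / M * n = 19 - n / M := by
      field_simp
    rw [h2] at h1
    linarith
  have ht1M : (t1 : ℝ) / M ≤ 1 := by
    rw [div_le_one hM0R]
    have : (2 * t1 : ℝ) ≤ M := by exact_mod_cast h2t1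
    have h0 : (0 : ℝ) ≤ t1 := Nat.cast_nonneg _
    linarith
  have hKS : KS n M t1 := hk n M t1 hn0 hM h2t1
  have hlow := hkl n M t0 t1 (by omega) hM h2t1 ht01
    (he n hn0 _ (by positivity) hearly) (hl n (by omega) _ hlate ht1M)
  have hA' := hA n M t1 hn0 (by linarith) hM0 ht1n hKS
  set q : ℝ := 19 / (n : ℝ) with hq
  have hq0 : 0 < q := by positivity
  have hp0 : ∀ t : ℕ, 0 ≤ (t : ℝ) / M := fun t => by positivity
  have hpq : ∀ t : ℕ, t ≤ t1 → (t : ℝ) / M ≤ q := by
    intro t ht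
    rw [hq, div_le_div_iff₀ hM0R hnR]
    have : (t : ℝ) ≤ t1 := by exact_mod_cast ht
    calc (t : ℝ) * n ≤ t1 * n := mul_le_mul_of_nonneg_right this hnR.le
      _ ≤ 19 * M := ht1n
  have hp1 : ∀ t : ℕ, t ≤ t1 → (t : ℝ) / M ≤ 1 := by
    intro t ht
    refine le_trans ?_ ht1M
    exact div_le_div_of_nonneg_right (by exact_mod_cast ht) hM0R.le
  -- the time sum of `G`
  set g : Fin n → Finset (Fin n) → ℝ := fun v Y =>
    ∑ t ∈ Ico t0 t1, G ((t : ℝ) / M) Set.univ (univ.erase v) Y with hg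
  have hstep1 : (M : ℝ) / 2 ≤
      ∑ v : Fin n, ∑ Y ∈ (univ.erase v).powerset, q ^ Y.card * g v Y := by
    refine hlow.trans ?_
    calc ∑ t ∈ Ico t0 t1, E ((t : ℝ) / M)
          (fun ω : Om n => ind (AliveU ω) * (X Set.univ Finset.univ ω : ℝ))
        ≤ ∑ t ∈ Ico t0 t1, ∑ v : Fin n, ∑ Y ∈ (univ.erase v).powerset, q ^ Y.card *
            G ((t : ℝ) / M) Set.univ (univ.erase v) Y := by
          refine Finset.sum_le_sum (fun t ht => ?_)
          have htt : t ≤ t1 := (Finset.mem_Ico.1 ht).2.le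
          exact AL_decomp hsm (hp0 t) (hp1 t htt) (hpq t htt)
      _ = ∑ v : Fin n, ∑ Y ∈ (univ.erase v).powerset, q ^ Y.card * g v Y := by
          rw [Finset.sum_comm]
          refine Finset.sum_congr rfl (fun v _ => ?_)
          rw [Finset.sum_comm]
          refine Finset.sum_congr rfl (fun Y _ => ?_)
          rw [hg, Finset.mul_sum]
  -- bound of `g`
  have hgle : ∀ (v : Fin n), ∀ Y ∈ (univ.erase v : Finset (Fin n)).powerset,
      g v Y ≤ (M / n) * (a + b * Y.card + 19) := by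
    intro v Y hY
    have hYS : Y ⊆ univ.erase v := Finset.mem_powerset.1 hY
    have hdep : Dep Y (RY (Set.univ : Set (Col n)) Y) := by
      have := Dep_RY (Y := Y) (Dep_univ (n := n) ∅)
      rwa [Finset.empty_union] at this
    have h1 := hA' (univ.erase v) Y (RY Set.univ Y) hYS hdep
    set Z : ℝ := ∑ t ∈ range t1, E ((t : ℝ) / M) (fun ω =>
      ind (Alive (RY Set.univ Y) (univ.erase v) ω) *
        √(X (RY Set.univ Y) (univ.erase v) ω : ℝ)) with hZ
    have h2 : g v Y ≤ Z + t1 := by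
      calc g v Y ≤ ∑ t ∈ range t1, G ((t : ℝ) / M) Set.univ (univ.erase v) Y := by
            rw [hg]
            refine Finset.sum_le_sum_of_subset_of_nonneg ?_ ?_
            · intro t ht
              rw [Finset.mem_range]; exact (Finset.mem_Ico.1 ht).2
            · intro t ht _
              exact G_nonneg (hp0 t) (hp1 t (Finset.mem_range.1 ht).le) _ _ _
        _ ≤ ∑ t ∈ range t1, (E ((t : ℝ) / M) (fun ω =>
              ind (Alive (RY Set.univ Y) (univ.erase v) ω) *
                √(X (RY Set.univ Y) (univ.erase v) ω : ℝ)) + 1) := by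
            refine Finset.sum_le_sum (fun t ht => ?_)
            exact AL_G_le hla (hp0 t) (hp1 t (Finset.mem_range.1 ht).le) _ _ _
        _ = Z + t1 := by
            rw [Finset.sum_add_distrib]; simp [hZ]
    have h3 : Z ≤ (M / n) * (a + b * Y.card) := by
      have h4 : (M / n : ℝ) * ((n : ℝ) / M * Z) = Z := by field_simp
      rw [← h4]
      exact mul_le_mul_of_nonneg_left h1 (by positivity)
    have h5 : (t1 : ℝ) ≤ (M / n) * 19 := by
      refine ht1a.trans (le_of_eq ?_); ring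
    linarith
  -- tail
  have htail : ∀ v : Fin n, ∑ Y ∈ (univ.erase v : Finset (Fin n)).powerset.filter
      (fun Y => ¬ Y.card ≤ D), q ^ Y.card * g v Y ≤ (M / n) / 8 := by
    intro v
    have h1 := AL_tail ha hb hn0 D (univ.erase v) (g v) (m := (M / n : ℝ)) (by positivity)
      (hgle v)
    refine h1.trans ?_
    rw [div_le_div_iff₀ (by positivity) (by norm_num)]
    have hMn : (0 : ℝ) ≤ M / n := by positivity
    have h2 := mul_le_mul_of_nonneg_left hD.le hMn
    linarith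
  -- main part
  have hmain : (M : ℝ) / 4 ≤ ∑ v : Fin n, ∑ l ∈ range (D + 1), q ^ l *
      ∑ t ∈ Ico t0 t1, E ((t : ℝ) / M) (fun ω : Om n => (prs l (univ.erase v) ω : ℝ)) := by
    have h1 : ∑ v : Fin n, ∑ Y ∈ (univ.erase v).powerset, q ^ Y.card * g v Y ≤
        ∑ v : Fin n, (∑ l ∈ range (D + 1), q ^ l *
          ∑ t ∈ Ico t0 t1, E ((t : ℝ) / M) (fun ω : Om n => (prs l (univ.erase v) ω : ℝ))
          + (M / n) / 8) := by
      refine Finset.sum_le_sum (fun v _ => ?_)
      rw [← Finset.sum_filter_add_sum_filter_not ((univ.erase v).powerset)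
        (fun Y => Y.card ≤ D)]
      refine add_le_add ?_ (htail v)
      have hmap : ∀ Y ∈ (univ.erase v : Finset (Fin n)).powerset.filter
          (fun Y => Y.card ≤ D), Y.card ∈ range (D + 1) := by
        intro Y hY
        rw [Finset.mem_filter] at hY
        rw [Finset.mem_range]; omega
      rw [← Finset.sum_fiberwise_of_maps_to hmap]
      refine Finset.sum_le_sum (fun l _ => ?_)
      have e1 : ∑ Y ∈ ((univ.erase v : Finset (Fin n)).powerset.filter
          (fun Y => Y.card ≤ D)).filter (fun Y => Y.card = l), q ^ Y.card * g v Y =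
          q ^ l * ∑ Y ∈ ((univ.erase v : Finset (Fin n)).powerset.filter
          (fun Y => Y.card ≤ D)).filter (fun Y => Y.card = l), g v Y := by
        rw [Finset.mul_sum]
        refine Finset.sum_congr rfl (fun Y hY => ?_)
        rw [(Finset.mem_filter.1 hY).2]
      rw [e1]
      refine mul_le_mul_of_nonneg_left ?_ (by positivity)
      rw [hg]
      simp only
      rw [Finset.sum_comm]
      refine Finset.sum_le_sum (fun t ht => ?_)
      have htt : t ≤ t1 := (Finset.mem_Ico.1 ht).2.le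
      calc ∑ Y ∈ ((univ.erase v : Finset (Fin n)).powerset.filter
            (fun Y => Y.card ≤ D)).filter (fun Y => Y.card = l),
              G ((t : ℝ) / M) Set.univ (univ.erase v) Y
          ≤ ∑ Y ∈ ((univ.erase v : Finset (Fin n)).powerset.filter (fun Y => Y.card = l)),
              G ((t : ℝ) / M) Set.univ (univ.erase v) Y := by
            refine Finset.sum_le_sum_of_subset_of_nonneg ?_ ?_
            · intro Y hY
              rw [Finset.mem_filter, Finset.mem_filter] at hY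
              exact Finset.mem_filter.2 ⟨hY.1.1, hY.2⟩
            · intro Y _ _
              exact G_nonneg (hp0 t) (hp1 t htt) _ _ _
        _ = E ((t : ℝ) / M) (fun ω : Om n =>
              ∑ Y ∈ ((univ.erase v : Finset (Fin n)).powerset.filter
                (fun Y => Y.card = l)),
                ind (Alive (RY Set.univ Y) (univ.erase v) ω) *
                  (cs Set.univ (univ.erase v) ω Y : ℝ)) := by
            rw [E_sum]; rfl
        _ ≤ E ((t : ℝ) / M) (fun ω : Om n => (prs l (univ.erase v) ω : ℝ)) := by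
            apply E_mono (hp0 t) (hp1 t htt)
            intro ω
            exact AL_prs l (univ.erase v) ω
    rw [Finset.sum_add_distrib] at h1
    have h2 : ∑ _v : Fin n, (M / n : ℝ) / 8 = M / 8 := by
      rw [Finset.sum_const, Finset.card_univ, Fintype.card_fin, nsmul_eq_mul]
      field_simp
    rw [h2] at h1
    linarith
  -- pick `v` and `l`
  have hne1 : (Finset.univ : Finset (Fin n)).Nonempty := ⟨⟨0, hn0⟩, Finset.mem_univ _⟩
  have h3 : ∑ _v : Fin n, (M : ℝ) / (4 * n) ≤ ∑ v : Fin n, ∑ l ∈ range (D + 1), q ^ l *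
      ∑ t ∈ Ico t0 t1, E ((t : ℝ) / M) (fun ω : Om n => (prs l (univ.erase v) ω : ℝ)) := by
    refine le_trans (le_of_eq ?_) hmain
    rw [Finset.sum_const, Finset.card_univ, Fintype.card_fin, nsmul_eq_mul]
    field_simp
  obtain ⟨v0, _, hv0⟩ := Finset.exists_le_of_sum_le hne1 h3
  have h4 : ∑ _l ∈ range (D + 1), (M : ℝ) / (4 * n * (D + 1)) ≤
      ∑ l ∈ range (D + 1), q ^ l *
      ∑ t ∈ Ico t0 t1, E ((t : ℝ) / M) (fun ω : Om n => (prs l (univ.erase v0) ω : ℝ)) := by
    refine le_trans (le_of_eq ?_) hv0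
    rw [Finset.sum_const, Finset.card_range, nsmul_eq_mul]
    push_cast
    field_simp
  obtain ⟨l, hlD, hl0⟩ := Finset.exists_le_of_sum_le ⟨0, by simp⟩ h4
  have hlD' : l ≤ D := by
    have := Finset.mem_range.1 hlD; omega
  refine ⟨v0, l, hlD', ?_⟩
  set P : ℝ := ∑ t ∈ Ico t0 t1, E ((t : ℝ) / M)
    (fun ω : Om n => (prs l (univ.erase v0) ω : ℝ)) with hP
  have h5 : ∑ t ∈ Ico t0 t1, E ((t : ℝ) / M)
      (fun ω : Om n => (prs l (univ.erase v0) ω : ℝ) / (n : ℝ) ^ (l + 1)) =
      P / (n : ℝ) ^ (l + 1) := by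
    rw [hP, Finset.sum_div]
    refine Finset.sum_congr rfl (fun t _ => ?_)
    have h12 := E_mul_right (n := n) ((t : ℝ) / M) (((n : ℝ) ^ (l + 1))⁻¹)
      (fun ω : Om n => (prs l (univ.erase v0) ω : ℝ))
    calc E ((t : ℝ) / M) (fun ω : Om n => (prs l (univ.erase v0) ω : ℝ) / (n : ℝ) ^ (l + 1))
        = E ((t : ℝ) / M) (fun ω : Om n =>
            (prs l (univ.erase v0) ω : ℝ) * ((n : ℝ) ^ (l + 1))⁻¹) :=
          E_congr (fun ω => div_eq_mul_inv _ _)
      _ = _ := h12.trans (div_eq_mul_inv _ _).symm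
  rw [h5]
  have h6 : (19 : ℝ) ^ l ≤ 19 ^ D := pow_le_pow_right₀ (by norm_num) hlD'
  -- `M / (4 n (D+1)) ≤ (19/n)^l P`
  have h7 : (M : ℝ) / (4 * (D + 1)) ≤ 19 ^ l * ((n : ℝ) ^ 2 * (P / (n : ℝ) ^ (l + 1))) := by
    have h8 : (19 : ℝ) ^ l * ((n : ℝ) ^ 2 * (P / (n : ℝ) ^ (l + 1))) = n * (q ^ l * P) := by
      rw [hq, div_pow, pow_succ (n : ℝ) l]
      field_simp
    rw [h8]
    have h9 : (M : ℝ) / (4 * (D + 1)) = n * (M / (4 * n * (D + 1))) := by
      field_simp
    rw [h9]
    exact mul_le_mul_of_nonneg_left hl0 hnR.le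
  have hPn : 0 ≤ (n : ℝ) ^ 2 * (P / (n : ℝ) ^ (l + 1)) := by
    have : 0 ≤ P := by
      rw [hP]
      refine Finset.sum_nonneg (fun t ht => ?_)
      exact E_nonneg (hp0 t) (hp1 t (Finset.mem_Ico.1 ht).2.le) (fun _ => Nat.cast_nonneg _)
    positivity
  have h10 : (M : ℝ) / (4 * (D + 1)) ≤ 19 ^ D * ((n : ℝ) ^ 2 * (P / (n : ℝ) ^ (l + 1))) :=
    h7.trans (mul_le_mul_of_nonneg_right h6 hPn)
  have h11 : 1 / (19 ^ D * (4 * ((D : ℝ) + 1))) * (M : ℝ) = (M / (4 * (D + 1))) / 19 ^ D := by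
    field_simp
  rw [h11, div_le_iff₀ (by positivity)]
  linarith

end Pool.Agent.H624C
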