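import Pool.Agent.H624C.Defs

/-!
# Basic lemmas for `ind`, `E`, `Sol`
-/

set_option autoImplicit false

namespace Pool.Agent.H624C

open Finset
open scoped Classical

theorem ind_true {P : Prop} (h : P) : ind P = 1 := by simp [ind, h]
theorem ind_false {P : Prop} (h : ¬ P) : ind P = 0 := by simp [ind, h]
theorem ind_nonneg (P : Prop) : 0 ≤ ind P := by
  unfold ind; split_ifs <;> norm_num
theorem ind_le_one (P : Prop) : ind P ≤ 1 := by
  unfold ind; split_ifs <;> norm_num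
theorem ind_mono {P Q : Prop} (h : P → Q) : ind P ≤ ind Q := by
  by_cases hP : P
  · rw [ind_true hP, ind_true (h hP)]
  · rw [ind_false hP]; exact ind_nonneg Q
theorem ind_congr {P Q : Prop} (h : P ↔ Q) : ind P = ind Q := by rw [propext h]
theorem ind_and (P Q : Prop) : ind (P ∧ Q) = ind P * ind Q := by
  by_cases hP : P <;> by_cases hQ : Q <;> simp [ind, hP, hQ]
theorem ind_not (P : Prop) : ind (¬ P) = 1 - ind P := by
  by_cases hP : P <;> simp [ind, hP]
theorem ind_or_le (P Q : Prop) : ind (P ∨ Q) ≤ ind P + ind Q := by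
  by_cases hP : P <;> by_cases hQ : Q <;> simp [ind, hP, hQ]
theorem ind_exists_le {ι : Type} (s : Finset ι) (P : ι → Prop) :
    ind (∃ i ∈ s, P i) ≤ ∑ i ∈ s, ind (P i) := by
  by_cases h : ∃ i ∈ s, P i
  · obtain ⟨i, his, hi⟩ := h
    rw [ind_true ⟨i, his, hi⟩]
    calc (1 : ℝ) = ind (P i) := (ind_true hi).symm
      _ ≤ ∑ i ∈ s, ind (P i) := Finset.single_le_sum (f := fun i => ind (P i))
          (fun j _ => ind_nonneg _) his
  · rw [ind_false h]; exact Finset.sum_nonneg (fun j _ => ind_nonneg _)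
theorem card_filter_eq_sum_ind {ι : Type} (s : Finset ι) (P : ι → Prop) :
    ((s.filter P).card : ℝ) = ∑ i ∈ s, ind (P i) := by
  rw [Finset.card_filter]; push_cast; rfl

section Elemmas

variable {n : ℕ}

theorem E_congr {p : ℝ} {f g : Om n → ℝ} (h : ∀ ω, f ω = g ω) : E p f = E p g := by
  unfold E; exact Finset.sum_congr rfl (fun ω _ => by rw [h ω])

theorem E_add (p : ℝ) (f g : Om n → ℝ) : E p (fun ω => f ω + g ω) = E p f + E p g := by
  unfold E; rw [← Finset.sum_add_distrib]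
  exact Finset.sum_congr rfl (fun ω _ => by ring)

theorem E_sub (p : ℝ) (f g : Om n → ℝ) : E p (fun ω => f ω - g ω) = E p f - E p g := by
  unfold E; rw [← Finset.sum_sub_distrib]
  exact Finset.sum_congr rfl (fun ω _ => by ring)

theorem E_mul_left (p c : ℝ) (f : Om n → ℝ) : E p (fun ω => c * f ω) = c * E p f := by
  unfold E; rw [Finset.mul_sum]
  exact Finset.sum_congr rfl (fun ω _ => by ring)

theorem E_mul_right (p c : ℝ) (f : Om n → ℝ) : E p (fun ω => f ω * c) = E p f * c := by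
  unfold E; rw [Finset.sum_mul]
  exact Finset.sum_congr rfl (fun ω _ => by ring)

theorem E_sum {ι : Type*} (p : ℝ) (s : Finset ι) (f : ι → Om n → ℝ) :
    E p (fun ω => ∑ i ∈ s, f i ω) = ∑ i ∈ s, E p (f i) := by
  unfold E
  simp only [Finset.mul_sum]
  exact Finset.sum_comm

theorem E_mono {p : ℝ} (h0 : 0 ≤ p) (h1 : p ≤ 1) {f g : Om n → ℝ} (h : ∀ ω, f ω ≤ g ω) :
    E p f ≤ E p g := by
  unfold E
  refine Finset.sum_le_sum (fun ω _ => mul_le_mul_of_nonneg_left (h ω) ?_)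
  have : 0 ≤ 1 - p := by linarith
  positivity

theorem E_nonneg {p : ℝ} (h0 : 0 ≤ p) (h1 : p ≤ 1) {f : Om n → ℝ} (h : ∀ ω, 0 ≤ f ω) :
    0 ≤ E p f := by
  unfold E
  refine Finset.sum_nonneg (fun ω _ => mul_nonneg ?_ (h ω))
  have : 0 ≤ 1 - p := by linarith
  positivity

theorem E_zero (p : ℝ) : E p (fun _ : Om n => (0 : ℝ)) = 0 := by simp [E]

theorem E_one (p : ℝ) : E p (fun _ : Om n => (1 : ℝ)) = 1 := by
  unfold E
  have h := Finset.sum_pow_mul_eq_add_pow p (1 - p) (Finset.univ : Finset (Sym2 (Fin n)))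
  simp only [Finset.powerset_univ, Finset.card_univ] at h
  simp only [mul_one]
  rw [h]; simp

theorem E_const (p c : ℝ) : E p (fun _ : Om n => c) = c := by
  have := E_mul_left (n := n) p c (fun _ => 1)
  simp only [mul_one] at this
  rw [this, E_one, mul_one]

theorem E_le_const {p c : ℝ} (h0 : 0 ≤ p) (h1 : p ≤ 1) {f : Om n → ℝ} (h : ∀ ω, f ω ≤ c) :
    E p f ≤ c := by
  calc E p f ≤ E p (fun _ => c) := E_mono h0 h1 h
    _ = c := E_const p c

theorem E_ind_le_one {p : ℝ} (h0 : 0 ≤ p) (h1 : p ≤ 1) (P : Om n → Prop) :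
    E p (fun ω => ind (P ω)) ≤ 1 := E_le_const h0 h1 (fun _ => ind_le_one _)

end Elemmas

section Sollemmas

variable {n : ℕ}

theorem Proper_congr {ω ω' : Om n} {S : Finset (Fin n)} {σ : Col n}
    (h : ∀ a ∈ S, ∀ b ∈ S, a ≠ b → (s(a, b) ∈ ω ↔ s(a, b) ∈ ω')) :
    Proper ω S σ ↔ Proper ω' S σ := by
  constructor
  · intro H a ha b hb hab hm
    exact H a ha b hb hab ((h a ha b hb hab).2 hm)
  · intro H a ha b hb hab hm
    exact H a ha b hb hab ((h a ha b hb hab).1 hm)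

/-- locality: `Sol R S ω` depends only on the pairs inside `S` -/
theorem Sol_congr {ω ω' : Om n} {S : Finset (Fin n)} (R : Set (Col n))
    (h : ∀ a ∈ S, ∀ b ∈ S, a ≠ b → (s(a, b) ∈ ω ↔ s(a, b) ∈ ω')) :
    Sol R S ω = Sol R S ω' := by
  ext σ
  simp only [Sol, Set.mem_setOf_eq, Proper_congr h]

/-- removing coordinates that are not inside `S` does not change the solutions -/
theorem Sol_sdiff {ω B : Om n} {S : Finset (Fin n)} (R : Set (Col n))
    (h : ∀ a ∈ S, ∀ b ∈ S, s(a, b) ∉ B) : Sol R S (ω \ B) = Sol R S ω := by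
  apply Sol_congr
  intro a ha b hb _
  simp [Finset.mem_sdiff, h a ha b hb]

theorem Alive_of_sol {R : Set (Col n)} {S : Finset (Fin n)} {ω ω' : Om n}
    (h : Sol R S ω = Sol R S ω') : Alive R S ω ↔ Alive R S ω' := by
  unfold Alive; rw [h]

theorem Same_of_sol {R : Set (Col n)} {S : Finset (Fin n)} {ω ω' : Om n}
    (h : Sol R S ω = Sol R S ω') (a b : Fin n) : Same R S ω a b ↔ Same R S ω' a b := by
  unfold Same; rw [h]

theorem Cov_of_sol {R : Set (Col n)} {S : Finset (Fin n)} {ω ω' : Om n}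
    (h : Sol R S ω = Sol R S ω') (Y : Finset (Fin n)) : Cov R S ω Y ↔ Cov R S ω' Y := by
  unfold Cov; rw [h]

theorem X_of_sol {R : Set (Col n)} {S : Finset (Fin n)} {ω ω' : Om n}
    (h : Sol R S ω = Sol R S ω') : X R S ω = X R S ω' := by
  unfold X; simp only [Same, h]

theorem cs_of_sol {R : Set (Col n)} {S : Finset (Fin n)} {ω ω' : Om n}
    (h : Sol R S ω = Sol R S ω') (Y : Finset (Fin n)) : cs R S ω Y = cs R S ω' Y := by
  unfold cs; simp only [Cov, h]

/-- `¬ Cov` is the same as being alive with the star constraint -/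
theorem not_Cov_iff {R : Set (Col n)} {S Y : Finset (Fin n)} {ω : Om n} :
    ¬ Cov R S ω Y ↔ Alive (RY R Y) S ω := by
  constructor
  · intro h
    unfold Cov at h
    push Not at h
    obtain ⟨σ, hσ, s, hs⟩ := h
    exact ⟨σ, hσ.1, hσ.2, s, hs⟩
  · rintro ⟨σ, h1, h2, s, hs⟩ hc
    obtain ⟨y, hy, hys⟩ := hc σ ⟨h1, h2⟩ s
    exact hs y hy hys

theorem Proper.mono {ω : Om n} {S S' : Finset (Fin n)} {σ : Col n} (h : Proper ω S σ)
    (hS : S' ⊆ S) : Proper ω S' σ :=
  fun a ha b hb hab hm => h a (hS ha) b (hS hb) hab hm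

theorem Sol_mono {R : Set (Col n)} {ω : Om n} {S S' : Finset (Fin n)} (hS : S' ⊆ S) :
    Sol R S ω ⊆ Sol R S' ω := fun _ h => ⟨h.1.mono hS, h.2⟩

theorem Alive.mono {R : Set (Col n)} {ω : Om n} {S S' : Finset (Fin n)} (h : Alive R S ω)
    (hS : S' ⊆ S) : Alive R S' ω := by
  obtain ⟨σ, hσ⟩ := h
  exact ⟨σ, Sol_mono hS hσ⟩

theorem Dep_RY {K Y : Finset (Fin n)} {R : Set (Col n)} (h : Dep K R) :
    Dep (K ∪ Y) (RY R Y) := by
  intro σ τ hst
  have h1 : σ ∈ R ↔ τ ∈ R := h σ τ (fun v hv => hst v (mem_union_left _ hv))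
  have h2 : ∀ s : Fin 3, (∀ y ∈ Y, σ y ≠ s) ↔ (∀ y ∈ Y, τ y ≠ s) := by
    intro s
    constructor
    · intro H y hy; rw [← hst y (mem_union_right _ hy)]; exact H y hy
    · intro H y hy; rw [hst y (mem_union_right _ hy)]; exact H y hy
  simp only [RY, Set.mem_setOf_eq, h1, h2]

theorem Dep_univ (K : Finset (Fin n)) : Dep K (Set.univ : Set (Col n)) := by
  intro σ τ _; simp

theorem G_nonneg {p : ℝ} (h0 : 0 ≤ p) (h1 : p ≤ 1) (R : Set (Col n)) (S Y : Finset (Fin n)) :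
    0 ≤ G p R S Y :=
  E_nonneg h0 h1 (fun _ => mul_nonneg (ind_nonneg _) (Nat.cast_nonneg _))

end Sollemmas

end Pool.Agent.H624C
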