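import Pool.Agent.H624C.Basic

/-!
# CM: pull back along an injection; law of the label process
-/

set_option autoImplicit false

namespace Pool.Agent.H624C

open Finset
open scoped Classical

namespace CM

/-- averages over Bernoulli subsets of a finite type -/
noncomputable def Eg {α : Type} [Fintype α] (p : ℝ) (f : Finset α → ℝ) : ℝ :=
  ∑ ω : Finset α, p ^ ω.card * (1 - p) ^ (Fintype.card α - ω.card) * f ω

theorem Eg_equiv {α β : Type} [Fintype α] [Fintype β] (e : β ≃ α) (p : ℝ) (f : Finset α → ℝ) :
    Eg p (fun ω : Finset β => f (ω.map e.toEmbedding)) = Eg p f := by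
  unfold Eg
  rw [← Equiv.sum_comp e.finsetCongr]
  refine Finset.sum_congr rfl fun ω _ => ?_
  rw [Equiv.finsetCongr_apply, Finset.card_map, Fintype.card_congr e]

theorem Eg_one {α : Type} [Fintype α] (p : ℝ) :
    ∑ ω : Finset α, p ^ ω.card * (1 - p) ^ (Fintype.card α - ω.card) = 1 := by
  have h := Finset.sum_pow_mul_eq_add_pow p (1 - p) (Finset.univ : Finset α)
  simp only [Finset.powerset_univ, Finset.card_univ] at h
  rw [h]
  simp

theorem Eg_sum {β γ : Type} [Fintype β] [Fintype γ] (p : ℝ) (f : Finset β → ℝ) :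
    Eg p (fun ω : Finset (β ⊕ γ) => f ω.toLeft) = Eg p f := by
  unfold Eg
  rw [← Equiv.sum_comp (Finset.sumEquiv (α := β) (β := γ)).symm.toEquiv, Fintype.sum_prod_type]
  refine Finset.sum_congr rfl fun η _ => ?_
  have h1 : ∀ θ : Finset γ, p ^ ((Finset.sumEquiv (α := β) (β := γ)).symm.toEquiv (η, θ)).card *
      (1 - p) ^ (Fintype.card (β ⊕ γ) - ((Finset.sumEquiv (α := β) (β := γ)).symm.toEquiv
        (η, θ)).card) * f ((Finset.sumEquiv (α := β) (β := γ)).symm.toEquiv (η, θ)).toLeft =
      (p ^ η.card * (1 - p) ^ (Fintype.card β - η.card) * f η) *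
        (p ^ θ.card * (1 - p) ^ (Fintype.card γ - θ.card)) := by
    intro θ
    have e1 : ((Finset.sumEquiv (α := β) (β := γ)).symm.toEquiv (η, θ)) = η.disjSum θ := rfl
    rw [e1, Finset.card_disjSum, Finset.toLeft_disjSum, Fintype.card_sum]
    have h2 := Finset.card_le_univ η
    have h3 := Finset.card_le_univ θ
    have h4 : Fintype.card β + Fintype.card γ - (η.card + θ.card) =
      (Fintype.card β - η.card) + (Fintype.card γ - θ.card) := by omega
    rw [h4, pow_add, pow_add]
    ring
  simp only [h1]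
  rw [← Finset.mul_sum, Eg_one, mul_one]

/-- pull back along an injection -/
theorem Eg_comap {α β : Type} [Fintype α] [Fintype β] (j : β → α) (hj : Function.Injective j)
    (p : ℝ) (f : Finset β → ℝ) :
    Eg p (fun ω : Finset α => f ((Finset.univ : Finset β).filter (fun b => j b ∈ ω))) = Eg p f := by
  let e : β ⊕ {a // a ∉ Set.range j} ≃ α :=
    (Equiv.sumCongr (Equiv.ofInjective j hj) (Equiv.refl _)).trans (Equiv.Set.sumCompl (Set.range j))
  have he : ∀ b, e (Sum.inl b) = j b := fun b => rfl
  set F : Finset α → ℝ := fun ω => f ((Finset.univ : Finset β).filter (fun b => j b ∈ ω)) with hF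
  have h1 : Eg p F = Eg p (fun ω : Finset (β ⊕ {a // a ∉ Set.range j}) => F (ω.map e.toEmbedding)) :=
    (Eg_equiv e p F).symm
  rw [h1, ← Eg_sum (γ := {a // a ∉ Set.range j}) p f]
  unfold Eg
  refine Finset.sum_congr rfl fun ω _ => ?_
  have h2 : F (ω.map e.toEmbedding) = f ω.toLeft := by
    rw [hF]
    refine congrArg f ?_
    ext b
    rw [Finset.mem_filter, Finset.mem_toLeft, ← he, Finset.mem_map_equiv, Equiv.symm_apply_apply]
    simp
  exact congrArg (fun z => p ^ ω.card *
    (1 - p) ^ (Fintype.card (β ⊕ {a // a ∉ Set.range j}) - ω.card) * z) h2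

theorem card_lt {M t : ℕ} (h : t ≤ M) :
    ((Finset.univ : Finset (Fin M)).filter (fun x : Fin M => (x : ℕ) < t)).card = t := by
  rw [← Fintype.card_subtype]
  have e : {x : Fin M // (x : ℕ) < t} ≃ Fin t :=
    { toFun := fun x => ⟨x.1, x.2⟩
      invFun := fun x => ⟨⟨x.1, lt_of_lt_of_le x.2 h⟩, x.2⟩
      left_inv := fun x => rfl
      right_inv := fun x => rfl }
  rw [Fintype.card_congr e, Fintype.card_fin]

theorem card_nlt {M t : ℕ} (h : t ≤ M) :
    ((Finset.univ : Finset (Fin M)).filter (fun x : Fin M => ¬ (x : ℕ) < t)).card = M - t := by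
  have h1 := Finset.card_filter_add_card_filter_not (s := (Finset.univ : Finset (Fin M)))
    (fun x : Fin M => (x : ℕ) < t)
  rw [card_lt h, Finset.card_univ, Fintype.card_fin] at h1
  omega

theorem card_fib {n M t : ℕ} (h : t ≤ M) (ω : Om n) :
    ((Finset.univ : Finset (Lab n M)).filter (fun T => op t T = ω)).card =
      t ^ ω.card * (M - t) ^ (Fintype.card (Sym2 (Fin n)) - ω.card) := by
  have h1 : (Finset.univ : Finset (Lab n M)).filter (fun T => op t T = ω) =
      Fintype.piFinset (fun e : Sym2 (Fin n) => if e ∈ ω then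
        (Finset.univ : Finset (Fin M)).filter (fun x : Fin M => (x : ℕ) < t) else
        (Finset.univ : Finset (Fin M)).filter (fun x : Fin M => ¬ (x : ℕ) < t)) := by
    ext T
    rw [Finset.mem_filter, Fintype.mem_piFinset]
    constructor
    · rintro ⟨-, hT⟩ e
      rw [← hT]
      by_cases he : (T e : ℕ) < t
      · have : e ∈ op t T := by simp [op, he]
        rw [if_pos this]
        simp [he]
      · have : e ∉ op t T := by simp [op, he]
        rw [if_neg this]
        simp only [Finset.mem_filter, Finset.mem_univ, true_and]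
        exact he
    · intro hT
      refine ⟨Finset.mem_univ _, ?_⟩
      ext e
      have h2 := hT e
      by_cases he : e ∈ ω
      · rw [if_pos he, Finset.mem_filter] at h2
        simp [op, he, h2.2]
      · rw [if_neg he, Finset.mem_filter] at h2
        simp only [op, Finset.mem_filter, Finset.mem_univ, true_and, he, iff_false]
        exact h2.2
  rw [h1, Fintype.card_piFinset]
  have h2 : ∀ e : Sym2 (Fin n), (if e ∈ ω then
        (Finset.univ : Finset (Fin M)).filter (fun x : Fin M => (x : ℕ) < t) else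
        (Finset.univ : Finset (Fin M)).filter (fun x : Fin M => ¬ (x : ℕ) < t)).card =
      if e ∈ ω then t else M - t := by
    intro e
    split_ifs
    · exact card_lt h
    · exact card_nlt h
  simp only [h2]
  rw [Finset.prod_ite, Finset.prod_const, Finset.prod_const]
  have h3 : (Finset.univ : Finset (Sym2 (Fin n))).filter (fun e => e ∈ ω) = ω := by
    ext e; simp
  have h4 : (Finset.univ : Finset (Sym2 (Fin n))).filter (fun e => ¬ e ∈ ω) = ωᶜ := by
    ext e; simp
  rw [h3, h4, Finset.card_compl]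

end CM

open CM

theorem CM_comap : S_comap := by
  intro m n p ι hι f
  have h := Eg_comap (Sym2.map ι) (Sym2.map.injective hι) p f
  unfold Eg at h
  unfold E
  rw [← h]
  refine Finset.sum_congr rfl fun ω _ => ?_
  refine congrArg₂ (· * ·) rfl (congrArg f ?_)
  ext e
  simp [pull]

theorem CM_label : S_label := by
  intro n M t hM ht f
  have h1 : ∑ T : Lab n M, f (op t T) = ∑ ω : Om n,
      ((((Finset.univ : Finset (Lab n M)).filter (fun T => op t T = ω)).card : ℕ) : ℝ) * f ω := by
    rw [← Finset.sum_fiberwise (Finset.univ : Finset (Lab n M)) (fun T => op t T)]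
    refine Finset.sum_congr rfl fun ω _ => ?_
    rw [Finset.sum_congr rfl (g := fun _ => f ω)]
    · rw [Finset.sum_const, nsmul_eq_mul]
    · intro T hT
      rw [(Finset.mem_filter.mp hT).2]
  rw [h1]
  unfold E
  rw [Finset.mul_sum]
  refine Finset.sum_congr rfl fun ω _ => ?_
  rw [card_fib ht]
  have hω := Finset.card_le_univ ω
  have hM0 : (M : ℝ) ≠ 0 := by exact_mod_cast hM.ne'
  push_cast [Nat.cast_sub ht]
  have h2 : (M : ℝ) ^ Fintype.card (Sym2 (Fin n)) =
      (M : ℝ) ^ ω.card * (M : ℝ) ^ (Fintype.card (Sym2 (Fin n)) - ω.card) := by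
    rw [← pow_add]
    congr 1
    omega
  have h3 : (1 : ℝ) - t / M = ((M : ℝ) - t) / M := by field_simp
  rw [h2, h3, div_pow, div_pow]
  have h4 : (M : ℝ) ^ ω.card ≠ 0 := pow_ne_zero _ hM0
  have h5 : (M : ℝ) ^ (Fintype.card (Sym2 (Fin n)) - ω.card) ≠ 0 := pow_ne_zero _ hM0
  field_simp

theorem CM_thm : S_comap ∧ S_label := ⟨CM_comap, CM_label⟩

end Pool.Agent.H624C
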