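import Pool.Agent.H624C.Basic

/-! Task CN (helper58): counting good gadget data. -/

set_option autoImplicit false

namespace Pool.Agent.H624C

open Finset
open scoped Classical

noncomputable section

namespace CN

variable {n : ℕ}

/-- non-covering tuples in `S` -/
def A (l : ℕ) (S : Finset (Fin n)) (ω : Om n) : Finset (Fin l → Fin n) :=
  (univ : Finset (Fin l → Fin n)).filter
    (fun w => (∀ i, w i ∈ S) ∧ ¬ Cov Set.univ S ω (univ.image w))

theorem prs_eq (l : ℕ) (S : Finset (Fin n)) (ω : Om n) :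
    prs l S ω = ∑ w ∈ A l S ω, cs Set.univ S ω (univ.image w) := by
  unfold prs
  rw [Finset.card_eq_sum_card_fiberwise (f := Prod.fst) (t := A l S ω)]
  · apply Finset.sum_congr rfl
    intro w hw
    unfold cs
    have hw' := (mem_filter.1 hw).2
    apply Finset.card_nbij' (fun q => q.2) (fun z => (w, z))
    · intro q hq
      simp only [coe_filter, mem_filter, mem_univ, true_and, Set.mem_setOf_eq] at hq ⊢
      obtain ⟨⟨h1, h2, h3, h4⟩, h5⟩ := hq
      rw [← h5]
      exact ⟨h2, h4⟩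
    · intro z hz
      simp only [coe_filter, mem_filter, mem_univ, true_and, Set.mem_setOf_eq] at hz ⊢
      exact ⟨⟨hw'.1, hz.1, hw'.2, hz.2⟩, trivial⟩
    · intro q hq
      simp only [coe_filter, mem_filter, mem_univ, true_and, Set.mem_setOf_eq] at hq
      rw [← hq.2]
    · intro z _
      rfl
  · intro q hq
    simp only [coe_filter, mem_univ, true_and, Set.mem_setOf_eq] at hq
    simp only [A, coe_filter, mem_univ, true_and, Set.mem_setOf_eq]
    exact ⟨hq.1, hq.2.2.1⟩

theorem cs_le (S Y : Finset (Fin n)) (R : Set (Col n)) (ω : Om n) : cs R S ω Y ≤ S.card :=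
  card_filter_le _ _

theorem card_A_le (l : ℕ) (S : Finset (Fin n)) (ω : Om n) : (A l S ω).card ≤ S.card ^ l := by
  have h1 : A l S ω ⊆ Fintype.piFinset (fun _ : Fin l => S) := by
    intro w hw
    rw [Fintype.mem_piFinset]
    exact (mem_filter.1 hw).2.1
  refine (card_le_card h1).trans (le_of_eq ?_)
  rw [Fintype.card_piFinset]
  simp

/-- many `w` can be completed in many ways -/
theorem many (l : ℕ) (c : ℝ) (S : Finset (Fin n)) (ω : Om n) (hS : S.Nonempty)
    (hc : 0 < c) (hg : Good l c S ω) :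
    c / 2 * (S.card : ℝ) ^ l ≤ (((A l S ω).filter
      (fun w => c / 2 * (S.card : ℝ) ≤ (cs Set.univ S ω (univ.image w) : ℝ))).card : ℝ) := by
  set A1 := (A l S ω).filter
    (fun w => c / 2 * (S.card : ℝ) ≤ (cs Set.univ S ω (univ.image w) : ℝ)) with hA1
  have hs : (0 : ℝ) < S.card := by exact_mod_cast hS.card_pos
  have h1 : (prs l S ω : ℝ) = ∑ w ∈ A l S ω, (cs Set.univ S ω (univ.image w) : ℝ) := by
    rw [prs_eq]; push_cast; rfl
  have h2 : ∑ w ∈ A l S ω, (cs Set.univ S ω (univ.image w) : ℝ) ≤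
      (A1.card : ℝ) * S.card + (S.card : ℝ) ^ l * (c / 2 * S.card) := by
    rw [← Finset.sum_filter_add_sum_filter_not (A l S ω)
      (fun w => c / 2 * (S.card : ℝ) ≤ (cs Set.univ S ω (univ.image w) : ℝ))]
    apply add_le_add
    · rw [← nsmul_eq_mul]
      apply Finset.sum_le_card_nsmul
      intro w _
      exact_mod_cast cs_le S _ _ ω
    · have h3 := Finset.sum_le_card_nsmul ((A l S ω).filter
        (fun w => ¬ c / 2 * (S.card : ℝ) ≤ (cs Set.univ S ω (univ.image w) : ℝ)))
        (fun w => (cs Set.univ S ω (univ.image w) : ℝ)) (c / 2 * S.card) (by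
          intro w hw
          exact (not_le.1 (mem_filter.1 hw).2).le)
      refine h3.trans ?_
      rw [nsmul_eq_mul]
      apply mul_le_mul_of_nonneg_right _ (by positivity)
      have h4 : (((A l S ω).filter
        (fun w => ¬ c / 2 * (S.card : ℝ) ≤ (cs Set.univ S ω (univ.image w) : ℝ))).card) ≤
        S.card ^ l := (card_filter_le _ _).trans (card_A_le l S ω)
      exact_mod_cast h4
  have h3 : c * (S.card : ℝ) ^ (l + 1) ≤ prs l S ω := hg
  rw [h1] at h3
  have h4 := h3.trans h2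
  have h5 : c / 2 * (S.card : ℝ) ^ l * S.card ≤ (A1.card : ℝ) * S.card := by
    have : c * (S.card : ℝ) ^ (l + 1) = 2 * (c / 2 * (S.card : ℝ) ^ l * S.card) := by
      rw [pow_succ]; ring
    rw [this] at h4
    nlinarith
  exact le_of_mul_le_mul_right h5 hs

/-- covering tuples -/
theorem cov_count (l : ℕ) (S : Finset (Fin n)) (ω : Om n) :
    prs l S ω ≤ ((univ : Finset (Fin (l + 1) → {x // x ∈ S})).filter
      (fun Y => Cov Set.univ S ω (univ.image fun i => (Y i : Fin n)))).card := by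
  unfold prs
  refine le_trans (card_le_card ?_) (card_image_le (s := (univ : Finset (Fin (l + 1) →
    {x // x ∈ S})).filter (fun Y => Cov Set.univ S ω (univ.image fun i => (Y i : Fin n))))
    (f := fun Y => ((fun i : Fin l => (Y i.succ : Fin n)), (Y 0 : Fin n))))
  intro q hq
  rw [mem_filter] at hq
  obtain ⟨-, h1, h2, h3, h4⟩ := hq
  rw [mem_image]
  refine ⟨Fin.cons ⟨q.2, h2⟩ (fun i => ⟨q.1 i, h1 i⟩), ?_, ?_⟩
  · rw [mem_filter]
    refine ⟨mem_univ _, ?_⟩
    have : (univ.image fun i => ((Fin.cons (⟨q.2, h2⟩ : {x // x ∈ S}) (fun i => ⟨q.1 i, h1 i⟩) :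
        Fin (l + 1) → {x // x ∈ S}) i : Fin n)) = insert q.2 (univ.image q.1) := by
      ext x
      simp only [mem_image, mem_univ, true_and, mem_insert]
      constructor
      · rintro ⟨i, hi⟩
        induction i using Fin.cases with
        | zero => left; simpa using hi.symm
        | succ i => right; exact ⟨i, by simpa using hi⟩
      · rintro (hx | ⟨i, hi⟩)
        · exact ⟨0, by simpa using hx.symm⟩
        · exact ⟨i.succ, by simpa using hi⟩
    rw [this]
    exact h4
  · simp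

/-- the bijection of the slots -/
def e {N : ℕ} (k : Fin N × Fin N × Fin 5) : Fin N × (Fin N × Fin 5) :=
  if k.2.2 = 1 ∨ k.2.2 = 4 then (k.2.1, (k.1, k.2.2)) else (k.1, (k.2.1, k.2.2))

theorem e_e {N : ℕ} (k : Fin N × Fin N × Fin 5) : e (e k) = k := by
  obtain ⟨i, j, x⟩ := k
  unfold e
  by_cases h : x = 1 ∨ x = 4
  · simp [h]
  · simp [h]

theorem e_fst {N : ℕ} (k : Slot N) : (e k).1 = lab k := by
  obtain ⟨i, j, x⟩ := k
  unfold e lab
  by_cases h : x = 1 ∨ x = 4
  · simp [h]
  · simp [h]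

/-- data for fixed `w` -/
theorem fixed (h1 : S_super) (l : ℕ) (c : ℝ) (hc : 0 < c) (S : Finset (Fin n)) (ω : Om n)
    (hS : S.Nonempty) (hg : Good l c S ω) (w : Fin l → Fin n) (hwS : ∀ i, w i ∈ S)
    (hcov : ¬ Cov Set.univ S ω (univ.image w))
    (hcs : c / 2 * (S.card : ℝ) ≤ (cs Set.univ S ω (univ.image w) : ℝ)) :
    (c / 3 ^ (l + 1)) ^ ((5 * (l + 1)) ^ (l + 1)) * (S.card : ℝ) ^ (5 * (l + 1) ^ 2) ≤
      (((univ : Finset (Slot (l + 1) → Fin n)).filter (fun y => GoodT l c S ω w y)).card : ℝ) := by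
  -- a solution missing a colour
  obtain ⟨σ0, hσ0, s0, hs0⟩ : ∃ σ0 ∈ Sol Set.univ S ω, ∃ s : Fin 3, ∀ y ∈ univ.image w, σ0 y ≠ s := by
    unfold Cov at hcov
    push Not at hcov
    exact hcov
  have hs : (0 : ℝ) < S.card := by exact_mod_cast hS.card_pos
  set Z := {x // x ∈ S} with hZ
  have hcardZ : Fintype.card Z = S.card := Fintype.card_coe S
  set F0 := (univ : Finset (Fin (l + 1) → Z)).filter
      (fun Y => Cov Set.univ S ω (univ.image fun i => (Y i : Fin n))) with hF0
  have hF0c : c * (S.card : ℝ) ^ (l + 1) ≤ (F0.card : ℝ) :=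
    le_trans hg (by exact_mod_cast cov_count l S ω)
  -- pigeonhole
  obtain ⟨χ, hχ⟩ : ∃ χ : Fin (l + 1) → Fin 3, c / 3 ^ (l + 1) * (S.card : ℝ) ^ (l + 1) ≤
      ((F0.filter (fun Y => (fun i => σ0 (Y i)) = χ)).card : ℝ) := by
    by_contra hcon
    push Not at hcon
    have e1 : (F0.card : ℝ) = ∑ χ : Fin (l + 1) → Fin 3,
        ((F0.filter (fun Y => (fun i => σ0 (Y i)) = χ)).card : ℝ) := by
      rw [Finset.card_eq_sum_card_fiberwise (f := fun Y : Fin (l + 1) → Z => fun i => σ0 (Y i))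
        (t := univ) (fun _ _ => by simp)]
      push_cast
      rfl
    have e2 : ∑ χ : Fin (l + 1) → Fin 3,
        ((F0.filter (fun Y => (fun i => σ0 (Y i)) = χ)).card : ℝ) <
        ∑ χ : Fin (l + 1) → Fin 3, c / 3 ^ (l + 1) * (S.card : ℝ) ^ (l + 1) :=
      Finset.sum_lt_sum_of_nonempty ⟨fun _ => 0, mem_univ _⟩ (fun χ _ => hcon χ)
    rw [← e1, Finset.sum_const, card_univ, nsmul_eq_mul] at e2
    have e3 : ((Fintype.card (Fin (l + 1) → Fin 3) : ℕ) : ℝ) = 3 ^ (l + 1) := by
      rw [Fintype.card_fun, Fintype.card_fin, Fintype.card_fin]; push_cast; rfl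
    rw [e3] at e2
    have e4 : (3 : ℝ) ^ (l + 1) * (c / 3 ^ (l + 1) * (S.card : ℝ) ^ (l + 1)) =
        c * (S.card : ℝ) ^ (l + 1) := by
      field_simp
    rw [e4] at e2
    linarith
  obtain ⟨F, hF⟩ : ∃ F : (Fin (l + 1) → Z) → Prop, ∀ Y, F Y ↔
      (Cov Set.univ S ω (univ.image fun i => (Y i : Fin n)) ∧ (fun i => σ0 (Y i)) = χ) :=
    ⟨_, fun _ => Iff.rfl⟩
  have hsup := h1 (l + 1) (Fin (l + 1) × Fin 5) Z F (c / 3 ^ (l + 1)) (by positivity)
    (by rw [hcardZ]; exact hS.card_pos) (by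
      rw [hcardZ]
      refine hχ.trans (Nat.cast_le.2 (card_le_card ?_))
      intro Y hY
      rw [hF0, mem_filter, mem_filter] at hY
      exact mem_filter.2 ⟨mem_univ _, (hF Y).2 ⟨hY.1.2, hY.2⟩⟩)
  have hQ : Fintype.card (Fin (l + 1) × Fin 5) = 5 * (l + 1) := by
    rw [Fintype.card_prod, Fintype.card_fin, Fintype.card_fin]; ring
  rw [hQ, hcardZ] at hsup
  have hexp : (l + 1) * (5 * (l + 1)) = 5 * (l + 1) ^ 2 := by ring
  rw [hexp] at hsup
  refine hsup.trans ?_
  -- from blow-ups to slots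
  refine Nat.cast_le.2 ?_
  · apply Finset.card_le_card_of_injOn (fun ys k => ((ys (e k).1 (e k).2 : Z) : Fin n))
    · intro ys hys
      replace hys := (mem_filter.1 (mem_coe.1 hys)).2
      refine mem_coe.2 (mem_filter.2 ⟨mem_univ _, ?_⟩)
      have hcol : ∀ i q, σ0 (ys i q) = χ i := by
        intro i q
        have := ((hF _).1 (hys (fun _ => q))).2
        exact congrFun this i
      refine ⟨hwS, fun k => (ys (e k).1 (e k).2).2, hcs, ⟨σ0, hσ0, ⟨s0, ?_⟩, ?_⟩, ?_⟩
      · intro i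
        exact hs0 (w i) (mem_image_of_mem _ (mem_univ _))
      · intro k k' hkk
        rw [hcol, hcol, e_fst, e_fst, hkk]
      · intro σ hσ s
        by_contra hcon
        push Not at hcon
        choose k hk1 hk2 using hcon
        have := ((hF _).1 (hys (fun i => (e (k i)).2))).1 σ hσ s
        obtain ⟨y, hy, hys'⟩ := this
        rw [mem_image] at hy
        obtain ⟨i, -, rfl⟩ := hy
        apply hk2 i
        rw [e_fst, hk1 i]
        exact hys'
    · intro ys _ ys' _ heq
      ext i q : 2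
      apply Subtype.ext
      have := congrFun heq (e (i, q))
      simp only [e_e] at this
      exact this

end CN

open CN in
theorem CN_thm (h1 : S_super) : S_count := by
  intro l c hc
  refine ⟨c / 2 * (c / 3 ^ (l + 1)) ^ ((5 * (l + 1)) ^ (l + 1)), by positivity, ?_⟩
  intro n S ω hg hS
  set c4 : ℝ := (c / 3 ^ (l + 1)) ^ ((5 * (l + 1)) ^ (l + 1)) with hc4
  have hc4' : 0 < c4 := by positivity
  have hs : (0 : ℝ) < S.card := by exact_mod_cast hS.card_pos
  set A1 := (A l S ω).filter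
    (fun w => c / 2 * (S.card : ℝ) ≤ (cs Set.univ S ω (univ.image w) : ℝ)) with hA1
  have h2 := many l c S ω hS hc hg
  have h3 : (((Finset.univ : Finset ((Fin l → Fin n) × (Slot (l + 1) → Fin n))).filter
        (fun q => GoodT l c S ω q.1 q.2)).card : ℝ) =
      ∑ w : Fin l → Fin n, (((univ : Finset (Slot (l + 1) → Fin n)).filter
        (fun y => GoodT l c S ω w y)).card : ℝ) := by
    have : ((Finset.univ : Finset ((Fin l → Fin n) × (Slot (l + 1) → Fin n))).filter
        (fun q => GoodT l c S ω q.1 q.2)).card =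
      ∑ w : Fin l → Fin n, ((univ : Finset (Slot (l + 1) → Fin n)).filter
        (fun y => GoodT l c S ω w y)).card := by
      rw [Finset.card_filter, Fintype.sum_prod_type]
      apply Finset.sum_congr rfl
      intro w _
      rw [Finset.card_filter]
    rw [this]
    push_cast
    rfl
  rw [h3]
  have h4 : ∑ w ∈ A1, (((univ : Finset (Slot (l + 1) → Fin n)).filter
        (fun y => GoodT l c S ω w y)).card : ℝ) ≤ ∑ w : Fin l → Fin n,
        (((univ : Finset (Slot (l + 1) → Fin n)).filter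
        (fun y => GoodT l c S ω w y)).card : ℝ) :=
    Finset.sum_le_sum_of_subset_of_nonneg (subset_univ _) (fun _ _ _ => Nat.cast_nonneg _)
  refine le_trans ?_ h4
  have h5 : (A1.card : ℝ) * (c4 * (S.card : ℝ) ^ (5 * (l + 1) ^ 2)) ≤
      ∑ w ∈ A1, (((univ : Finset (Slot (l + 1) → Fin n)).filter
        (fun y => GoodT l c S ω w y)).card : ℝ) := by
    rw [← nsmul_eq_mul]
    apply Finset.card_nsmul_le_sum
    intro w hw
    rw [hA1, mem_filter] at hw
    have hw2 := (mem_filter.1 hw.1).2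
    exact fixed h1 l c hc S ω hS hg w hw2.1 hw2.2 hw.2
  refine le_trans ?_ h5
  calc c / 2 * c4 * (S.card : ℝ) ^ (l + 5 * (l + 1) ^ 2)
      = (c / 2 * (S.card : ℝ) ^ l) * (c4 * (S.card : ℝ) ^ (5 * (l + 1) ^ 2)) := by
        rw [pow_add]; ring
    _ ≤ (A1.card : ℝ) * (c4 * (S.card : ℝ) ^ (5 * (l + 1) ^ 2)) :=
        mul_le_mul_of_nonneg_right h2 (by positivity)

end

end Pool.Agent.H624C
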