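import Pool.Agent.H624C.Basic

/-!
# Calculus of `E`: conditioning, inclusion, independence
-/

set_option autoImplicit false

namespace Pool.Agent.H624C

open Finset
open scoped Classical

namespace CO

variable {n : ℕ}

/-- weight of a subset of `B` -/
noncomputable def wt (p : ℝ) (B β : Om n) : ℝ := p ^ β.card * (1 - p) ^ (B.card - β.card)

theorem sum_wt (p : ℝ) (B : Om n) : ∑ β ∈ B.powerset, wt p B β = 1 := by
  have h := Finset.sum_pow_mul_eq_add_pow p (1 - p) B
  unfold wt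
  rw [h]
  simp

theorem E_split (p : ℝ) (B : Om n) (f : Om n → ℝ) :
    E p f = ∑ β ∈ B.powerset, ∑ γ ∈ Bᶜ.powerset, wt p B β * wt p Bᶜ γ * f (β ∪ γ) := by
  rw [← Finset.sum_product']
  unfold E
  refine Finset.sum_nbij' (fun ω => (ω ∩ B, ω \ B)) (fun q => q.1 ∪ q.2) ?_ ?_ ?_ ?_ ?_
  · intro ω _
    rw [mem_product, mem_powerset, mem_powerset]
    refine ⟨inter_subset_right, ?_⟩
    intro x hx
    rw [mem_compl]
    exact (mem_sdiff.1 hx).2
  · intro q _
    exact mem_univ _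
  · intro ω _
    ext x
    simp only [mem_union, mem_inter, mem_sdiff]
    tauto
  · rintro ⟨β, γ⟩ hq
    rw [mem_product, mem_powerset, mem_powerset] at hq
    obtain ⟨h1, h2⟩ := hq
    have h2' : ∀ x ∈ γ, x ∉ B := fun x hx => mem_compl.1 (h2 hx)
    simp only [Prod.mk.injEq]
    constructor
    · ext x
      simp only [mem_union, mem_inter]
      constructor
      · rintro ⟨h | h, h'⟩
        · exact h
        · exact absurd h' (h2' x h)
      · intro h
        exact ⟨Or.inl h, h1 h⟩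
    · ext x
      simp only [mem_union, mem_sdiff]
      constructor
      · rintro ⟨h | h, h'⟩
        · exact absurd (h1 h) h'
        · exact h
      · intro h
        exact ⟨Or.inr h, h2' x h⟩
  · intro ω _
    have e1 : ω ∩ B ∪ ω \ B = ω := by
      ext x
      simp only [mem_union, mem_inter, mem_sdiff]
      tauto
    have c1 : ω.card = (ω ∩ B).card + (ω \ B).card := by
      rw [Finset.card_inter_add_card_sdiff]
    have c2 : Fintype.card (Sym2 (Fin n)) = B.card + (Bᶜ : Om n).card := by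
      rw [Finset.card_add_card_compl]
    have c3 : (ω ∩ B).card ≤ B.card := card_le_card inter_subset_right
    have c4 : (ω \ B).card ≤ (Bᶜ : Om n).card := by
      apply card_le_card
      intro x hx
      rw [mem_compl]
      exact (mem_sdiff.1 hx).2
    simp only [wt]
    rw [e1, c1, c2]
    have c5 : B.card + (Bᶜ : Om n).card - ((ω ∩ B).card + (ω \ B).card) =
        (B.card - (ω ∩ B).card) + ((Bᶜ : Om n).card - (ω \ B).card) := by omega
    rw [c5, pow_add, pow_add]
    ring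

theorem inter_of {B β γ : Om n} (h1 : β ∈ B.powerset) (h2 : γ ∈ Bᶜ.powerset) :
    (β ∪ γ) ∩ B = β := by
  rw [mem_powerset] at h1 h2
  ext x
  simp only [mem_union, mem_inter]
  constructor
  · rintro ⟨h | h, h'⟩
    · exact h
    · exact absurd h' (mem_compl.1 (h2 h))
  · intro h
    exact ⟨Or.inl h, h1 h⟩

theorem sdiff_of {B β γ : Om n} (h1 : β ∈ B.powerset) (h2 : γ ∈ Bᶜ.powerset) :
    (β ∪ γ) \ B = γ := by
  rw [mem_powerset] at h1 h2
  ext x
  simp only [mem_union, mem_sdiff]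
  constructor
  · rintro ⟨h | h, h'⟩
    · exact absurd (h1 h) h'
    · exact h
  · intro h
    exact ⟨Or.inr h, mem_compl.1 (h2 h)⟩

theorem E_outer (p : ℝ) (B : Om n) (f : Om n → ℝ) (hf : ∀ ω, f ω = f (ω \ B)) :
    E p f = ∑ γ ∈ Bᶜ.powerset, wt p Bᶜ γ * f γ := by
  rw [E_split p B f]
  have h1 : ∀ β ∈ B.powerset, ∑ γ ∈ Bᶜ.powerset, wt p B β * wt p Bᶜ γ * f (β ∪ γ) =
      wt p B β * ∑ γ ∈ Bᶜ.powerset, wt p Bᶜ γ * f γ := by
    intro β hβ
    rw [Finset.mul_sum]
    refine Finset.sum_congr rfl fun γ hγ => ?_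
    rw [hf (β ∪ γ), sdiff_of hβ hγ]
    ring
  rw [Finset.sum_congr rfl h1, ← Finset.sum_mul, sum_wt, one_mul]

theorem E_inner (p : ℝ) (B : Om n) (f : Om n → ℝ) (hf : ∀ ω, f ω = f (ω ∩ B)) :
    E p f = ∑ β ∈ B.powerset, wt p B β * f β := by
  rw [E_split p B f]
  refine Finset.sum_congr rfl fun β hβ => ?_
  have h1 : ∀ γ ∈ Bᶜ.powerset, wt p B β * wt p Bᶜ γ * f (β ∪ γ) =
      wt p Bᶜ γ * (wt p B β * f β) := by
    intro γ hγ
    rw [hf (β ∪ γ), inter_of hβ hγ]
    ring
  rw [Finset.sum_congr rfl h1, ← Finset.sum_mul, sum_wt, one_mul]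

end CO

open CO in
/-- T1a -/
theorem S_cond_thm : S_cond := by
  intro n p B β f hβ hf
  rw [E_split p B, E_outer p B f hf]
  have h1 : ∀ β' ∈ B.powerset, ∑ γ ∈ Bᶜ.powerset, wt p B β' * wt p Bᶜ γ *
      (ind ((β' ∪ γ) ∩ B = β) * f (β' ∪ γ)) =
      (ind (β' = β) * wt p B β') * ∑ γ ∈ Bᶜ.powerset, wt p Bᶜ γ * f γ := by
    intro β' hβ'
    rw [Finset.mul_sum]
    refine Finset.sum_congr rfl fun γ hγ => ?_
    rw [inter_of hβ' hγ, hf (β' ∪ γ), sdiff_of hβ' hγ]
    ring
  rw [Finset.sum_congr rfl h1, ← Finset.sum_mul]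
  congr 1
  rw [Finset.sum_eq_single β]
  · rw [ind_true rfl, one_mul]
    rfl
  · intro b _ hb
    rw [ind_false hb, zero_mul]
  · intro h
    exact absurd (mem_powerset.2 hβ) h

/-- T1b -/
theorem S_incl_thm : S_incl := by
  intro n p B f hf
  have h := S_cond_thm n p B B f (Finset.Subset.refl B) hf
  rw [Nat.sub_self, pow_zero, mul_one] at h
  rw [← h]
  refine E_congr fun ω => ?_
  congr 1
  refine ind_congr ?_
  rw [Finset.inter_eq_right]

open CO in
/-- T1c -/
theorem S_indep_thm : S_indep := by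
  intro n p B f g hf hg
  rw [E_split p B, E_inner p B f hf, E_outer p B g hg, Finset.sum_mul_sum]
  refine Finset.sum_congr rfl fun β hβ => Finset.sum_congr rfl fun γ hγ => ?_
  rw [hf (β ∪ γ), hg (β ∪ γ), inter_of hβ hγ, sdiff_of hβ hγ]
  ring

end Pool.Agent.H624C
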