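import Mathlib

/-!
# A random graph becomes non-3-choosable strictly before it becomes non-3-colourable, with
# probability bounded away from 0  (negation of the list-colouring hitting time question)

Definitions and the statements (as `Prop`s, all named `S_...`) of the steps of the proof.
Vertices `Fin n`, edge configurations `Om n = Finset (Sym2 (Fin n))` (diagonal pairs are dummy
coordinates), colours `Fin 3`.  `E p f` is the average of `f ω` over a random set of pairs that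
contains every pair independently with probability `p`.
-/

set_option autoImplicit false

namespace Pool.Agent.H624C

open Finset
open scoped Classical

noncomputable section

/-- indicator of a proposition -/
def ind (P : Prop) : ℝ := if P then 1 else 0

/-- edge configurations on `Fin n` -/
abbrev Om (n : ℕ) := Finset (Sym2 (Fin n))

/-- 3-colourings (not necessarily proper) -/
abbrev Col (n : ℕ) := Fin n → Fin 3

/-- average over a random `ω` containing every pair independently with probability `p` -/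
def E {n : ℕ} (p : ℝ) (f : Om n → ℝ) : ℝ :=
  ∑ ω : Om n, p ^ ω.card * (1 - p) ^ (Fintype.card (Sym2 (Fin n)) - ω.card) * f ω

/-- `σ` is proper on the subgraph of `ω` induced by `S` -/
def Proper {n : ℕ} (ω : Om n) (S : Finset (Fin n)) (σ : Col n) : Prop :=
  ∀ a ∈ S, ∀ b ∈ S, a ≠ b → s(a, b) ∈ ω → σ a ≠ σ b

/-- solutions: proper on `ω[S]` and in the background set `R` -/
def Sol {n : ℕ} (R : Set (Col n)) (S : Finset (Fin n)) (ω : Om n) : Set (Col n) :=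
  {σ | Proper ω S σ ∧ σ ∈ R}

def Alive {n : ℕ} (R : Set (Col n)) (S : Finset (Fin n)) (ω : Om n) : Prop :=
  (Sol R S ω).Nonempty

/-- all solutions give `a` and `b` the same colour -/
def Same {n : ℕ} (R : Set (Col n)) (S : Finset (Fin n)) (ω : Om n) (a b : Fin n) : Prop :=
  ∀ σ ∈ Sol R S ω, σ a = σ b

/-- number of ordered pairs `(a,b)`, `a ≠ b`, in `S` with `Same` -/
def X {n : ℕ} (R : Set (Col n)) (S : Finset (Fin n)) (ω : Om n) : ℕ :=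
  ((S ×ˢ S).filter (fun q => q.1 ≠ q.2 ∧ Same R S ω q.1 q.2)).card

/-- number of `z ∈ S`, `z ≠ v`, with `Same v z` -/
def degX {n : ℕ} (R : Set (Col n)) (S : Finset (Fin n)) (ω : Om n) (v : Fin n) : ℕ :=
  (S.filter (fun z => z ≠ v ∧ Same R S ω v z)).card

/-- `Y` is covering: every solution uses all three colours on `Y` -/
def Cov {n : ℕ} (R : Set (Col n)) (S : Finset (Fin n)) (ω : Om n) (Y : Finset (Fin n)) : Prop :=
  ∀ σ ∈ Sol R S ω, ∀ s : Fin 3, ∃ y ∈ Y, σ y = s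

/-- number of `z ∈ S` such that `Y ∪ {z}` is covering -/
def cs {n : ℕ} (R : Set (Col n)) (S : Finset (Fin n)) (ω : Om n) (Y : Finset (Fin n)) : ℕ :=
  (S.filter (fun z => Cov R S ω (insert z Y))).card

/-- the background `R` together with the constraint '`Y` misses some colour' -/
def RY {n : ℕ} (R : Set (Col n)) (Y : Finset (Fin n)) : Set (Col n) :=
  {σ | σ ∈ R ∧ ∃ s : Fin 3, ∀ y ∈ Y, σ y ≠ s}

/-- no solution is constant on `W` -/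
def NC {n : ℕ} (R : Set (Col n)) (S : Finset (Fin n)) (ω : Om n) (W : Finset (Fin n)) : Prop :=
  ∀ σ ∈ Sol R S ω, ¬ ∃ s : Fin 3, ∀ w ∈ W, σ w = s

/-- the background `R` depends only on the colours of `K` -/
def Dep {n : ℕ} (K : Finset (Fin n)) (R : Set (Col n)) : Prop :=
  ∀ σ τ : Col n, (∀ v ∈ K, σ v = τ v) → (σ ∈ R ↔ τ ∈ R)

/-- `E [ alive with the star constraint on Y ; number of z completing Y to a covering set ]` -/
def G {n : ℕ} (p : ℝ) (R : Set (Col n)) (S Y : Finset (Fin n)) : ℝ :=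
  E p (fun ω => ind (Alive (RY R Y) S ω) * (cs R S ω Y : ℝ))

/-- abbreviation for the background without constraint and the full vertex set -/
abbrev AliveU {n : ℕ} (ω : Om n) : Prop := Alive Set.univ Finset.univ ω

/-! ### T1: calculus of `E` -/

/-- T1a: conditioning on the coordinates in `B` -/
def S_cond : Prop := ∀ (n : ℕ) (p : ℝ) (B β : Om n) (f : Om n → ℝ), β ⊆ B →
  (∀ ω, f ω = f (ω \ B)) →
  E p (fun ω => ind (ω ∩ B = β) * f ω) = p ^ β.card * (1 - p) ^ (B.card - β.card) * E p f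

/-- T1b -/
def S_incl : Prop := ∀ (n : ℕ) (p : ℝ) (B : Om n) (f : Om n → ℝ),
  (∀ ω, f ω = f (ω \ B)) →
  E p (fun ω => ind (B ⊆ ω) * f ω) = p ^ B.card * E p f

/-- T1c: independence of functions of disjoint sets of coordinates -/
def S_indep : Prop := ∀ (n : ℕ) (p : ℝ) (B : Om n) (f g : Om n → ℝ),
  (∀ ω, f ω = f (ω ∩ B)) → (∀ ω, g ω = g (ω \ B)) →
  E p (fun ω => f ω * g ω) = E p f * E p g

/-- pull back of a configuration along a map -/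
def pull {m n : ℕ} (ι : Fin m → Fin n) (ω : Om n) : Om m :=
  (Finset.univ : Finset (Sym2 (Fin m))).filter (fun e => e.map ι ∈ ω)

/-- T1d: the pull back along an injection is again Bernoulli -/
def S_comap : Prop := ∀ (m n : ℕ) (p : ℝ) (ι : Fin m → Fin n), Function.Injective ι →
  ∀ f : Om m → ℝ, E p (fun ω : Om n => f (pull ι ω)) = E p f

/-! ### T2: the label process -/

/-- labels of the pairs -/
abbrev Lab (n M : ℕ) := Sym2 (Fin n) → Fin M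

/-- configuration at time `t`: pairs with label `< t` -/
def op {n M : ℕ} (t : ℕ) (T : Lab n M) : Om n :=
  (Finset.univ : Finset (Sym2 (Fin n))).filter (fun e => (T e : ℕ) < t)

/-- T1e: the law of `op t` is Bernoulli `t / M` -/
def S_label : Prop := ∀ (n M t : ℕ), 0 < M → t ≤ M → ∀ f : Om n → ℝ,
  (∑ T : Lab n M, f (op t T)) = (M : ℝ) ^ Fintype.card (Sym2 (Fin n)) * E ((t : ℝ) / M) f

/-- the kill sum is bounded -/
def KS (n M t1 : ℕ) : Prop := ∀ (R : Set (Col n)) (S : Finset (Fin n)),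
  ∑ t ∈ range t1, E ((t : ℝ) / M) (fun ω => ind (Alive R S ω) * (X R S ω : ℝ)) ≤ 4 * M

/-- T2a -/
def S_kill : Prop := ∀ n M t1 : ℕ, 0 < n → n ^ 5 ≤ M → 2 * t1 ≤ M → KS n M t1

/-- T2b: lower bound for the kill sum -/
def S_killlow : Prop := ∀ n M t0 t1 : ℕ, 8 ≤ n → n ^ 5 ≤ M → 2 * t1 ≤ M → t0 ≤ t1 →
  3 / 4 ≤ E ((t0 : ℝ) / M) (fun ω : Om n => ind (AliveU ω)) →
  E ((t1 : ℝ) / M) (fun ω : Om n => ind (AliveU ω)) ≤ 1 / 8 →
  (M : ℝ) / 2 ≤ ∑ t ∈ Ico t0 t1,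
    E ((t : ℝ) / M) (fun ω : Om n => ind (AliveU ω) * (X Set.univ Finset.univ ω : ℝ))

/-- T2c: if alive `B`-configurations have at least `δ n²` killing pairs, then the probability that
the process ever visits `B` is at least `(δ/4) (n²/M) ∑ P_t(B) - 1/n`. -/
def S_visit : Prop := ∀ (n M t1 : ℕ) (δ : ℝ) (B : Om n → Prop), 0 < n → n ^ 5 ≤ M → 2 * t1 ≤ M →
  0 < δ → (∀ ω, B ω → AliveU ω ∧ δ * (n : ℝ) ^ 2 ≤ (X Set.univ Finset.univ ω : ℝ)) →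
  δ / 4 * ((n : ℝ) ^ 2 / M) * ∑ t ∈ range t1, E ((t : ℝ) / M) (fun ω => ind (B ω)) - 1 / n
    ≤ (∑ T : Lab n M, ind (∃ t, t < t1 ∧ B (op t T))) /
        (M : ℝ) ^ Fintype.card (Sym2 (Fin n))

/-! ### T3-T6: the recursion -/

/-- T3: merging -/
def S_E1 : Prop := ∀ (n : ℕ) (p : ℝ), 0 ≤ p → p ≤ 1 →
  ∀ (S K W : Finset (Fin n)) (R : Set (Col n)), K ⊆ S → W ⊆ S → Disjoint W K → Dep K R →
  E p (fun ω => ind (Alive R S ω ∧ NC R S ω W)) ≤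
    (W.card : ℝ) ^ 2 * p +
      ∑ Y ∈ (S \ W).powerset, ((W.card : ℝ) * p) ^ (Y.card + 1) * G p R (S \ W) Y

/-- T4: one step of the recursion, at a fixed `p` -/
def S_step : Prop := ∀ (n : ℕ) (p : ℝ), 0 ≤ p → p ≤ 1 →
  ∀ (S K : Finset (Fin n)) (R : Set (Col n)), K ⊆ S → Dep K R →
  E p (fun ω => ind (Alive R S ω) * √(X R S ω : ℝ)) ≤
    (K.card : ℝ) + ∑ v ∈ S \ K, ((K.card : ℝ) * p +
      ∑ W ∈ ((S \ K).erase v).powerset, p ^ W.card * ((W.card : ℝ) ^ 2 * p +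
        ∑ Y ∈ ((S.erase v) \ W).powerset,
          ((W.card : ℝ) * p) ^ (Y.card + 1) * G p R ((S.erase v) \ W) Y))

/-- S_small: decomposition according to the neighbourhood of `v` -/
def S_small : Prop := ∀ (n : ℕ) (p : ℝ) (S K : Finset (Fin n)) (v : Fin n) (R : Set (Col n)),
  v ∉ S → K ⊆ S → Dep K R →
  ∑ Y ∈ S.powerset, p ^ Y.card * (1 - p) ^ (S.card - Y.card) * G p R S Y =
    E p (fun ω => ind (Alive R (insert v S) ω) * (degX R (insert v S) ω v : ℝ))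

/-- S_large: the completing vertices are in one class -/
def S_large : Prop := ∀ (n : ℕ) (S Y : Finset (Fin n)) (R : Set (Col n)) (ω : Om n),
  Alive (RY R Y) S ω → (cs R S ω Y : ℝ) ≤ √(X (RY R Y) S ω : ℝ) + 1

/-- T5: the main estimate (A) -/
def S_A : Prop := ∀ Λ : ℝ, 0 < Λ → ∃ a b : ℝ, 0 ≤ a ∧ 0 ≤ b ∧
  ∀ (n M t1 : ℕ), 0 < n → 2 * Λ ≤ n → 0 < M → (t1 : ℝ) * n ≤ Λ * M → KS n M t1 →
  ∀ (S K : Finset (Fin n)) (R : Set (Col n)), K ⊆ S → Dep K R →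
    (n : ℝ) / M * ∑ t ∈ range t1, E ((t : ℝ) / M)
      (fun ω => ind (Alive R S ω) * √(X R S ω : ℝ)) ≤ a + b * K.card

/-- T6: the merging sum is bounded -/
def S_kappa : Prop := ∀ (Λ : ℝ) (r : ℕ), 0 < Λ → ∃ C : ℝ, 0 ≤ C ∧
  ∀ (n M t1 : ℕ), 0 < n → 2 * Λ ≤ n → 0 < M → (t1 : ℝ) * n ≤ Λ * M → KS n M t1 →
  ∀ (S W : Finset (Fin n)), W ⊆ S → W.card ≤ r →
    (n : ℝ) ^ 2 / M * ∑ t ∈ range t1, E ((t : ℝ) / M)
      (fun ω => ind (Alive Set.univ S ω ∧ NC Set.univ S ω W)) ≤ C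

/-! ### T7, T8: times with a dense family of covering sets -/

/-- the number of `(w, z)`, `w ∈ S^l`, `z ∈ S`, such that `w` is not covering, `w ∪ {z}` is -/
def prs {n : ℕ} (l : ℕ) (S : Finset (Fin n)) (ω : Om n) : ℕ :=
  ((Finset.univ : Finset ((Fin l → Fin n) × Fin n)).filter (fun q =>
    (∀ i, q.1 i ∈ S) ∧ q.2 ∈ S ∧ ¬ Cov Set.univ S ω (univ.image q.1) ∧
      Cov Set.univ S ω (insert q.2 (univ.image q.1)))).card

def Good {n : ℕ} (l : ℕ) (c : ℝ) (S : Finset (Fin n)) (ω : Om n) : Prop :=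
  c * (S.card : ℝ) ^ (l + 1) ≤ (prs l S ω : ℝ)

/-- T7 -/
def S_alpha : Prop := ∃ (ε Λ c : ℝ) (D n0 : ℕ), 0 < ε ∧ ε < Λ ∧ 0 < c ∧
  ∀ n ≥ n0, ∀ M ≥ n ^ 5, ∀ t0 t1 : ℕ, t0 = ⌈ε * M / n⌉₊ → t1 = ⌊Λ * M / n⌋₊ →
    ∃ (v0 : Fin n) (l : ℕ), l ≤ D ∧
      c * M ≤ (n : ℝ) ^ 2 * ∑ t ∈ Ico t0 t1, E ((t : ℝ) / M)
        (fun ω : Om n => (prs l (univ.erase v0) ω : ℝ) / (n : ℝ) ^ (l + 1))

/-- T8 -/
def S_good : Prop := ∃ (ε Λ c c' : ℝ) (D n0 : ℕ), 0 < ε ∧ ε < Λ ∧ 0 < c ∧ 0 < c' ∧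
  ∀ n ≥ n0, ∀ M ≥ n ^ 5, ∀ t0 t1 : ℕ, t0 = ⌈ε * M / n⌉₊ → t1 = ⌊Λ * M / n⌋₊ →
    ∃ (v0 : Fin n) (l : ℕ), 2 ≤ l ∧ l ≤ D ∧
      c' * M ≤ (n : ℝ) ^ 2 * ∑ t ∈ Ico t0 t1, E ((t : ℝ) / M)
        (fun ω : Om n => ind (Good l c (univ.erase v0) ω))

/-! ### T9: supersaturation -/

/-- T9a: blow-ups of a dense `N`-partite relation -/
def S_super : Prop := ∀ (N : ℕ) (Q Z : Type) [Fintype Q] [Fintype Z] (F : (Fin N → Z) → Prop)
  (β : ℝ), 0 ≤ β → 0 < Fintype.card Z →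
  β * (Fintype.card Z : ℝ) ^ N ≤
    (((Finset.univ : Finset (Fin N → Z)).filter F).card : ℝ) →
  β ^ (Fintype.card Q ^ N) * (Fintype.card Z : ℝ) ^ (N * Fintype.card Q) ≤
    (((Finset.univ : Finset (Fin N → Q → Z)).filter
      (fun y => ∀ J : Fin N → Q, F (fun i => y i (J i)))).card : ℝ)

/-- slots of the gadgets: gadget `(i,j)` uses five slots -/
abbrev Slot (N : ℕ) := Fin N × Fin N × Fin 5

/-- the row of a slot -/
def lab {N : ℕ} (k : Slot N) : Fin N := if k.2.2 = 1 ∨ k.2.2 = 4 then k.2.1 else k.1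

/-- good data for the gadgets -/
def GoodT {n : ℕ} (l : ℕ) (c : ℝ) (S : Finset (Fin n)) (ω : Om n)
    (w : Fin l → Fin n) (y : Slot (l + 1) → Fin n) : Prop :=
  (∀ i, w i ∈ S) ∧ (∀ k, y k ∈ S) ∧
  c / 2 * (S.card : ℝ) ≤ (cs Set.univ S ω (univ.image w) : ℝ) ∧
  (∃ σ0 ∈ Sol Set.univ S ω, (∃ s, ∀ i, σ0 (w i) ≠ s) ∧
    ∀ k k', lab k = lab k' → σ0 (y k) = σ0 (y k')) ∧
  (∀ σ ∈ Sol Set.univ S ω, ∀ s : Fin 3, ∃ i : Fin (l + 1), ∀ k, lab k = i → σ (y k) = s)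

/-- T9b -/
def S_count : Prop := ∀ (l : ℕ) (c : ℝ), 0 < c → ∃ c3 : ℝ, 0 < c3 ∧
  ∀ (n : ℕ) (S : Finset (Fin n)) (ω : Om n), Good l c S ω → S.Nonempty →
    c3 * (S.card : ℝ) ^ (l + 5 * (l + 1) ^ 2) ≤
      (((Finset.univ : Finset ((Fin l → Fin n) × (Slot (l + 1) → Fin n))).filter
        (fun q => GoodT l c S ω q.1 q.2)).card : ℝ)

/-! ### T10, T11: gadgets -/

/-- the fresh vertices: `none` is the vertex `v`, `some (i,j,·)` the path of gadget `(i,j)` -/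
abbrev Rt (N : ℕ) := Option (Fin N × Fin N × Fin 3)

/-- the internal edges of the gadgets: paths `(i,j,0) - (i,j,1) - (i,j,2)` -/
def RAdj {N : ℕ} (r r' : Rt N) : Prop :=
  ∃ i j, (r = some (i, j, 0) ∧ r' = some (i, j, 1)) ∨ (r = some (i, j, 1) ∧ r' = some (i, j, 0)) ∨
    (r = some (i, j, 1) ∧ r' = some (i, j, 2)) ∨ (r = some (i, j, 2) ∧ r' = some (i, j, 1))

/-- the vertices outside the placement -/
def Out {n N : ℕ} (ρ : Rt N → Fin n) : Finset (Fin n) := univ \ univ.image ρ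

/-- the planted event -/
def Ev {n : ℕ} (l : ℕ) (c : ℝ) (ω : Om n) (ρ : Rt (l + 1) → Fin n) : Prop :=
  Function.Injective ρ ∧
  (∀ r r', r ≠ r' → (s(ρ r, ρ r') ∈ ω ↔ RAdj r r')) ∧
  ∃ (w : Fin l → Fin n) (y : Slot (l + 1) → Fin n), GoodT l c (Out ρ) ω w y ∧
    (∀ x ∈ Out ρ, s(ρ none, x) ∈ ω ↔ ∃ i, x = w i) ∧
    (∀ i j, ∀ x ∈ Out ρ, s(ρ (some (i, j, 0)), x) ∈ ω ↔ (x = y (i, j, 0) ∨ x = y (i, j, 1))) ∧
    (∀ i j, ∀ x ∈ Out ρ, s(ρ (some (i, j, 1)), x) ∈ ω ↔ x = y (i, j, 2)) ∧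
    (∀ i j, ∀ x ∈ Out ρ, s(ρ (some (i, j, 2)), x) ∈ ω ↔ (x = y (i, j, 3) ∨ x = y (i, j, 4)))

/-- 3-colourable but not 3-list-colourable -/
def Bad3 {n : ℕ} (ω : Om n) : Prop :=
  (SimpleGraph.fromEdgeSet (ω : Set (Sym2 (Fin n)))).Colorable 3 ∧
  ∃ L : Fin n → Finset ℕ, (∀ v, (L v).card = 3) ∧
    ¬ ∃ f : Fin n → ℕ, (∀ v, f v ∈ L v) ∧
      ∀ u v, (SimpleGraph.fromEdgeSet (ω : Set (Sym2 (Fin n)))).Adj u v → f u ≠ f v

/-- T10 -/
def S_gadget : Prop := ∀ (l : ℕ) (c : ℝ), 0 < c → ∃ (δ : ℝ) (n0 : ℕ), 0 < δ ∧ ∀ n ≥ n0,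
  ∀ (ω : Om n) (ρ : Rt (l + 1) → Fin n), Ev l c ω ρ →
    Bad3 ω ∧ AliveU ω ∧ δ * (n : ℝ) ^ 2 ≤ (X Set.univ Finset.univ ω : ℝ)

/-- T11a -/
def S_plantprob : Prop := ∀ (l : ℕ) (c ε Λ : ℝ), 0 < c → 0 < ε → 0 < Λ →
  ∃ (c5 : ℝ) (n0 : ℕ), 0 < c5 ∧ ∀ n ≥ n0, ∀ p : ℝ, 0 ≤ p → ε ≤ p * n → p * n ≤ Λ →
  ∀ ρ : Rt (l + 1) → Fin n, Function.Injective ρ →
    c5 * p ^ (2 * (l + 1) ^ 2) * E p (fun ω => ind (Good l c (Out ρ) ω)) ≤
      E p (fun ω => ind (Ev l c ω ρ))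

/-- T11b -/
def S_mult : Prop := ∀ (l n : ℕ) (c : ℝ) (ω : Om n),
  ((Finset.univ : Finset (Rt (l + 1) → Fin n)).filter (fun ρ => Ev l c ω ρ)).card ≤
    n * (9 * n) ^ ((l + 1) ^ 2)

/-- T11c -/
def S_plant : Prop := ∀ (l : ℕ) (c ε Λ : ℝ), 0 < c → 0 < ε → 0 < Λ →
  ∃ (c6 : ℝ) (n0 : ℕ), 0 < c6 ∧ ∀ n ≥ n0, ∀ m : ℕ, m + Fintype.card (Rt (l + 1)) = n →
  ∀ p : ℝ, 0 ≤ p → ε ≤ p * n → p * n ≤ Λ →
  ∀ (n' : ℕ) (S : Finset (Fin n')), S.card = m →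
    c6 * E p (fun ω : Om n' => ind (Good l c S ω)) ≤
      E p (fun ω : Om n => ind (∃ ρ, Ev l c ω ρ))

/-! ### T12: very sparse and dense graphs -/

/-- T12a -/
def S_early : Prop := ∃ ε : ℝ, 0 < ε ∧ ∀ n : ℕ, 0 < n → ∀ p : ℝ, 0 ≤ p → p * n ≤ ε →
  3 / 4 ≤ E p (fun ω : Om n => ind (AliveU ω))

/-- T12b -/
def S_late : Prop := ∀ n : ℕ, 6 ≤ n → ∀ p : ℝ, 18 ≤ p * n → p ≤ 1 →
  E p (fun ω : Om n => ind (AliveU ω)) ≤ 1 / 8

/-! ### T13: transfer to uniform orderings of the edges -/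

/-- a stage of the process given by an ordering (same as in the frozen statement) -/
def Stage {n : ℕ} (σ : Fin (Nat.card (⊤ : SimpleGraph (Fin n)).edgeSet) ≃
    (⊤ : SimpleGraph (Fin n)).edgeSet) (m : ℕ) : SimpleGraph (Fin n) :=
  SimpleGraph.fromEdgeSet {e : Sym2 (Fin n) |
    ∃ i : Fin (Nat.card (⊤ : SimpleGraph (Fin n)).edgeSet), (i : ℕ) < m ∧ (σ i).val = e}

/-- T13: a property visited by the label process is visited by the uniform process at least as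
often -/
def S_transfer : Prop := ∀ (n M : ℕ), 0 < M → ∀ B : SimpleGraph (Fin n) → Prop,
  (∑ T : Lab n M, ind (∃ t : ℕ, B (SimpleGraph.fromEdgeSet (op t T : Set (Sym2 (Fin n)))))) /
      (M : ℝ) ^ Fintype.card (Sym2 (Fin n)) ≤
    (Nat.card {σ : Fin (Nat.card (⊤ : SimpleGraph (Fin n)).edgeSet) ≃
        (⊤ : SimpleGraph (Fin n)).edgeSet // ∃ m : ℕ, B (Stage σ m)} : ℝ) /
      (Nat.card (Fin (Nat.card (⊤ : SimpleGraph (Fin n)).edgeSet) ≃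
        (⊤ : SimpleGraph (Fin n)).edgeSet) : ℝ)

end

end Pool.Agent.H624C
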