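import Pool.Agent.H624C.Basic

/-!
# EA: sparse random graphs are 3-colourable

With `p n ≤ 1/2` the expected number of cycles is at most `1/4`, and forests are 2-colourable.
-/

set_option autoImplicit false

namespace Pool.Agent.H624C

open Finset
open scoped Classical

namespace EAaux

theorem edges_getElem {V : Type} {G : SimpleGraph V} {u v : V} (p : G.Walk u v) (i : ℕ)
    (h : i < p.edges.length) : p.edges[i] = s(p.getVert i, p.getVert (i + 1)) := by
  induction p generalizing i with
  | nil => simp at h
  | cons hadj p ih =>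
    cases i with
    | zero => simp
    | succ i =>
      simp only [SimpleGraph.Walk.edges_cons, List.length_cons] at h
      simp only [SimpleGraph.Walk.edges_cons, List.getElem_cons_succ,
        SimpleGraph.Walk.getVert_cons_succ]
      exact ih i (by omega)

/-- the pairs of consecutive vertices of a cyclic sequence -/
noncomputable def cyc {n m : ℕ} (f : Fin (m + 1) → Fin n) : Om n :=
  univ.image (fun i : Fin (m + 1) => s(f i, f (i + 1)))

/-- a configuration that is not 3-colourable contains a cycle -/
theorem exists_cyc {n : ℕ} {ω : Om n} (h : ¬ AliveU ω) :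
    ∃ m ∈ Ico 2 n, ∃ f ∈ (univ : Finset (Fin (m + 1) → Fin n)),
      (cyc f).card = m + 1 ∧ cyc f ⊆ ω := by
  set G : SimpleGraph (Fin n) := SimpleGraph.fromEdgeSet (ω : Set (Sym2 (Fin n))) with hG
  have hac : ¬ G.IsAcyclic := by
    intro hac
    apply h
    have h3 : G.Colorable 3 := hac.colorable_two.mono (by norm_num)
    obtain ⟨σ⟩ := h3
    refine ⟨fun v => σ v, ?_, Set.mem_univ _⟩
    intro a _ b _ hab hm
    apply σ.valid
    rw [hG, SimpleGraph.fromEdgeSet_adj]
    exact ⟨by exact_mod_cast hm, hab⟩
  unfold SimpleGraph.IsAcyclic at hac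
  push Not at hac
  obtain ⟨v, c, hc⟩ := hac
  have h3 := hc.three_le_length
  obtain ⟨m, hm⟩ : ∃ m, c.length = m + 1 := ⟨c.length - 1, by omega⟩
  have hcard : c.length ≤ n := by
    have h1 : c.support.tail.Nodup := hc.support_nodup
    have h2 := h1.length_le_card
    simp only [List.length_tail, SimpleGraph.Walk.length_support, Fintype.card_fin] at h2
    omega
  have hstep : ∀ i : Fin (m + 1), c.getVert ((i + 1 : Fin (m + 1)) : ℕ) = c.getVert (i.val + 1) := by
    intro i
    rcases Nat.lt_or_ge i.val m with hi | hi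
    · have : ((i + 1 : Fin (m + 1)) : ℕ) = i.val + 1 := by
        rw [Fin.val_add_one_of_lt]
        exact hi
      rw [this]
    · have hil : i = Fin.last m := Fin.ext (le_antisymm (Nat.lt_succ_iff.mp i.2) hi)
      subst hil
      rw [Fin.last_add_one]
      simp only [Fin.val_zero, SimpleGraph.Walk.getVert_zero, Fin.val_last, ← hm,
        SimpleGraph.Walk.getVert_length]
  have hlen : c.edges.length = m + 1 := by rw [SimpleGraph.Walk.length_edges, hm]
  have hedge : ∀ i : Fin (m + 1), s(c.getVert i.val, c.getVert ((i + 1 : Fin (m + 1)) : ℕ)) =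
      c.edges[i.val]'(by rw [hlen]; exact i.2) := by
    intro i
    rw [hstep, edges_getElem]
  refine ⟨m, mem_Ico.mpr ⟨by omega, by omega⟩, fun i => c.getVert i.val, mem_univ _, ?_, ?_⟩
  · unfold cyc
    rw [card_image_of_injective, card_univ, Fintype.card_fin]
    intro i j hij
    simp only [hedge] at hij
    have hnd : c.edges.Nodup := hc.edges_nodup
    exact Fin.ext ((List.Nodup.getElem_inj_iff hnd).mp hij)
  · intro e he
    unfold cyc at he
    rw [mem_image] at he
    obtain ⟨i, _, rfl⟩ := he
    rw [hedge]
    have h1 : c.edges[i.val]'(by rw [hlen]; exact i.2) ∈ c.edges := List.getElem_mem _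
    have h2 := c.edges_subset_edgeSet h1
    have h4 : ∀ e ∈ G.edgeSet, e ∈ ω := by
      intro e he
      rw [hG, SimpleGraph.edgeSet_fromEdgeSet] at he
      exact_mod_cast he.1
    exact h4 _ h2

theorem geom (n : ℕ) (x : ℝ) (hx : 0 ≤ x) (hx2 : x ≤ 1 / 2) :
    ∑ m ∈ Ico 2 n, x ^ (m + 1) ≤ 1 / 4 := by
  have key : ∀ n : ℕ, ∑ m ∈ Ico 2 (n + 2), (1 / 2 : ℝ) ^ (m + 1) = 1 / 4 - (1 / 2) ^ (n + 2) := by
    intro n
    induction n with
    | zero => norm_num
    | succ n ih =>
      rw [show n + 1 + 2 = (n + 2) + 1 by ring, Finset.sum_Ico_succ_top (by omega), ih]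
      ring
  have h1 : ∑ m ∈ Ico 2 n, x ^ (m + 1) ≤ ∑ m ∈ Ico 2 n, (1 / 2 : ℝ) ^ (m + 1) :=
    Finset.sum_le_sum fun m _ => pow_le_pow_left₀ hx hx2 _
  refine h1.trans ?_
  rcases Nat.lt_or_ge n 2 with hn | hn
  · rw [Finset.Ico_eq_empty (by omega), Finset.sum_empty]; norm_num
  · obtain ⟨k, rfl⟩ : ∃ k, n = k + 2 := ⟨n - 2, by omega⟩
    rw [key]
    have : (0 : ℝ) ≤ (1 / 2) ^ (k + 2) := by positivity
    linarith

end EAaux

open EAaux in
theorem EA_thm (h1 : S_incl) : S_early := by
  refine ⟨1 / 2, by norm_num, ?_⟩
  intro n hn p hp hpn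
  have hn1 : (1 : ℝ) ≤ n := by exact_mod_cast hn
  have hp1 : p ≤ 1 := by nlinarith
  have hincl : ∀ B : Om n, E p (fun ω => ind (B ⊆ ω)) = p ^ B.card := by
    intro B
    have := h1 n p B (fun _ => 1) (fun _ => rfl)
    simp only [mul_one] at this
    rw [this, E_one, mul_one]
  have hbound : E p (fun ω : Om n => ind (¬ AliveU ω)) ≤ 1 / 4 := by
    calc E p (fun ω : Om n => ind (¬ AliveU ω))
        ≤ E p (fun ω : Om n => ∑ m ∈ Ico 2 n, ∑ f ∈ (univ : Finset (Fin (m + 1) → Fin n)),
            ind ((cyc f).card = m + 1) * ind (cyc f ⊆ ω)) := by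
          apply E_mono hp hp1
          intro ω
          refine (ind_mono (fun h => exists_cyc h)).trans ?_
          refine (ind_exists_le _ _).trans ?_
          apply Finset.sum_le_sum
          intro m _
          refine (ind_exists_le _ _).trans ?_
          apply Finset.sum_le_sum
          intro f _
          rw [ind_and]
      _ = ∑ m ∈ Ico 2 n, ∑ f ∈ (univ : Finset (Fin (m + 1) → Fin n)),
            ind ((cyc f).card = m + 1) * p ^ (cyc f).card := by
          rw [E_sum]
          apply Finset.sum_congr rfl
          intro m _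
          rw [E_sum]
          apply Finset.sum_congr rfl
          intro f _
          rw [E_mul_left, hincl]
      _ ≤ ∑ m ∈ Ico 2 n, (p * n) ^ (m + 1) := by
          apply Finset.sum_le_sum
          intro m _
          calc ∑ f ∈ (univ : Finset (Fin (m + 1) → Fin n)),
                ind ((cyc f).card = m + 1) * p ^ (cyc f).card
              ≤ ∑ f ∈ (univ : Finset (Fin (m + 1) → Fin n)), p ^ (m + 1) := by
                apply Finset.sum_le_sum
                intro f _
                by_cases h : (cyc f).card = m + 1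
                · rw [ind_true h, one_mul, h]
                · rw [ind_false h, zero_mul]; positivity
            _ = (p * n) ^ (m + 1) := by
                rw [Finset.sum_const, card_univ, Fintype.card_fun, Fintype.card_fin,
                  Fintype.card_fin, nsmul_eq_mul]
                push_cast
                rw [mul_pow, mul_comm]
      _ ≤ 1 / 4 := geom n (p * n) (by positivity) hpn
  have h2 : E p (fun ω : Om n => ind (¬ AliveU ω)) = 1 - E p (fun ω : Om n => ind (AliveU ω)) := by
    rw [E_congr (g := fun ω => 1 - ind (AliveU ω)) (fun ω => ind_not _), E_sub, E_one]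
  rw [h2] at hbound
  linarith

end Pool.Agent.H624C
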