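import Pool.Agent.H624C.Basic

/-!
# The gadget lemma (task GA)
-/

set_option autoImplicit false

namespace Pool.Agent.H624C

open Finset
open scoped Classical

namespace GA

theorem colours : ∀ A B : Fin 3, ∃ c0 c1 : Fin 3, c0 ≠ A ∧ c0 ≠ B ∧ c1 ≠ A ∧ c0 ≠ c1 := by
  decide

variable {n l : ℕ}

theorem mem_Out {N : ℕ} {ρ : Rt N → Fin n} {x : Fin n} : x ∈ Out ρ ↔ ∀ r, ρ r ≠ x := by
  unfold Out
  simp

theorem lab0 {N : ℕ} (i j : Fin N) : lab (i, j, 0) = i := by simp [lab]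
theorem lab1 {N : ℕ} (i j : Fin N) : lab (i, j, 1) = j := by simp [lab]
theorem lab2 {N : ℕ} (i j : Fin N) : lab (i, j, 2) = i := by simp [lab]
theorem lab3 {N : ℕ} (i j : Fin N) : lab (i, j, 3) = i := by simp [lab]
theorem lab4 {N : ℕ} (i j : Fin N) : lab (i, j, 4) = j := by simp [lab]

/-- a proper colouring of the whole graph -/
theorem exists_col {c : ℝ} {ω : Om n} {ρ : Rt (l + 1) → Fin n} (h : Ev l c ω ρ) :
    ∃ σ : Col n, ∀ a b, a ≠ b → s(a, b) ∈ ω → σ a ≠ σ b := by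
  obtain ⟨hρ, hRR, w, y, hT, hv, h0, h1, h2⟩ := h
  obtain ⟨hw, hy, -, ⟨σ0, hσ0, ⟨s, hs⟩, hrow⟩, -⟩ := hT
  choose g0 g1 hg using colours
  set A : Fin (l + 1) → Fin 3 := fun i => σ0 (y (i, i, 0)) with hA
  have hA' : ∀ k i, lab k = i → σ0 (y k) = A i := fun k i hk => hrow k (i, i, 0) (by rw [hk, lab0])
  set τ : Rt (l + 1) → Fin 3 := fun r => match r with
    | none => s
    | some (i, j, k) => if k = 1 then g1 (A i) (A j) else g0 (A i) (A j) with hτ
  -- fresh vertices against old ones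
  have hf : ∀ r, ∀ x ∈ Out ρ, s(ρ r, x) ∈ ω → τ r ≠ σ0 x := by
    intro r x hx he
    match r with
    | none =>
      obtain ⟨i, rfl⟩ := (hv x hx).1 he
      exact (hs i).symm
    | some (i, j, k) =>
      obtain ⟨p1, p2, p3, p4⟩ := hg (A i) (A j)
      match k with
      | 0 =>
        have e : τ (some (i, j, 0)) = g0 (A i) (A j) := by simp [hτ]
        rw [e]
        rcases (h0 i j x hx).1 he with rfl | rfl
        · rw [hA' _ i (lab0 i j)]; exact p1
        · rw [hA' _ j (lab1 i j)]; exact p2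
      | 1 =>
        have e : τ (some (i, j, 1)) = g1 (A i) (A j) := by simp [hτ]
        rw [e, (h1 i j x hx).1 he, hA' _ i (lab2 i j)]
        exact p3
      | 2 =>
        have e : τ (some (i, j, 2)) = g0 (A i) (A j) := by simp [hτ]
        rw [e]
        rcases (h2 i j x hx).1 he with rfl | rfl
        · rw [hA' _ i (lab3 i j)]; exact p1
        · rw [hA' _ j (lab4 i j)]; exact p2
  have hff : ∀ r r', RAdj r r' → τ r ≠ τ r' := by
    rintro r r' ⟨i, j, h | h | h | h⟩ <;> obtain ⟨rfl, rfl⟩ := h <;>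
      obtain ⟨p1, p2, p3, p4⟩ := hg (A i) (A j)
    · simpa [hτ] using p4
    · simpa [hτ] using p4.symm
    · simpa [hτ] using p4.symm
    · simpa [hτ] using p4
  have e1 : ∀ r, Function.extend ρ τ σ0 (ρ r) = τ r := fun r => hρ.extend_apply τ σ0 r
  have e2 : ∀ x ∈ Out ρ, Function.extend ρ τ σ0 x = σ0 x := by
    intro x hx
    refine Function.extend_apply' τ σ0 x ?_
    rintro ⟨r, hr⟩
    exact mem_Out.1 hx r hr
  refine ⟨Function.extend ρ τ σ0, fun a b hab he => ?_⟩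
  by_cases ha : a ∈ Out ρ
  · by_cases hb : b ∈ Out ρ
    · rw [e2 a ha, e2 b hb]
      exact hσ0.1 a ha b hb hab he
    · rw [mem_Out] at hb
      push Not at hb
      obtain ⟨r, rfl⟩ := hb
      rw [e2 a ha, e1 r]
      exact (hf r a ha (by rwa [Sym2.eq_swap])).symm
  · rw [mem_Out] at ha
    push Not at ha
    obtain ⟨r, rfl⟩ := ha
    rw [e1 r]
    by_cases hb : b ∈ Out ρ
    · rw [e2 b hb]
      exact hf r b hb he
    · rw [mem_Out] at hb
      push Not at hb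
      obtain ⟨r', rfl⟩ := hb
      rw [e1 r']
      have hrr : r ≠ r' := fun h => hab (by rw [h])
      exact hff r r' ((hRR r r' hrr).1 he)

/-- lists -/
def Lt {N : ℕ} : Rt N → Finset ℕ
  | none => {0, 1, 2}
  | some (_, _, 0) => {0, 1, 3}
  | some (_, _, 1) => {0, 3, 4}
  | some (_, _, 2) => {0, 1, 4}

theorem Lt_card {N : ℕ} (r : Rt N) : (Lt r).card = 3 := by
  match r with
  | none => rfl
  | some (_, _, 0) => rfl
  | some (_, _, 1) => rfl
  | some (_, _, 2) => rfl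

theorem not_choosable {c : ℝ} {ω : Om n} {ρ : Rt (l + 1) → Fin n} (h : Ev l c ω ρ) :
    ∃ L : Fin n → Finset ℕ, (∀ v, (L v).card = 3) ∧
      ¬ ∃ f : Fin n → ℕ, (∀ v, f v ∈ L v) ∧ ∀ u v, u ≠ v → s(u, v) ∈ ω → f u ≠ f v := by
  obtain ⟨hρ, hRR, w, y, hT, hv, h0, h1, h2⟩ := h
  obtain ⟨hw, hy, -, -, hall⟩ := hT
  set L : Fin n → Finset ℕ := Function.extend ρ Lt (fun _ => {0, 1, 2}) with hL
  have e1 : ∀ r, L (ρ r) = Lt r := fun r => hρ.extend_apply _ _ r
  have e2 : ∀ x ∈ Out ρ, L x = {0, 1, 2} := by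
    intro x hx
    refine Function.extend_apply' _ _ x ?_
    rintro ⟨r, hr⟩
    exact mem_Out.1 hx r hr
  refine ⟨L, ?_, ?_⟩
  · intro v
    by_cases hvo : v ∈ Out ρ
    · rw [e2 v hvo]; rfl
    · rw [mem_Out] at hvo
      push Not at hvo
      obtain ⟨r, rfl⟩ := hvo
      rw [e1 r, Lt_card]
  · rintro ⟨f, hf, hfp⟩
    set σ : Col n := fun x => if h : f x < 3 then ⟨f x, h⟩ else 0 with hσ
    have hlt : ∀ x ∈ Out ρ, f x < 3 := by
      intro x hx
      have := hf x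
      rw [e2 x hx] at this
      simp only [mem_insert, mem_singleton] at this
      omega
    have hσf : ∀ x ∈ Out ρ, (σ x : ℕ) = f x := by
      intro x hx
      simp only [hσ, dif_pos (hlt x hx)]
    have hsol : σ ∈ Sol Set.univ (Out ρ) ω := by
      refine ⟨fun a ha b hb hab he heq => ?_, Set.mem_univ _⟩
      apply hfp a b hab he
      rw [← hσf a ha, ← hσf b hb, heq]
    obtain ⟨i, hi⟩ := hall σ hsol 0
    obtain ⟨j, hj⟩ := hall σ hsol 1
    have f0 : ∀ k, lab k = i → f (y k) = 0 := by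
      intro k hk
      rw [← hσf _ (hy k), hi k hk]; rfl
    have f1 : ∀ k, lab k = j → f (y k) = 1 := by
      intro k hk
      rw [← hσf _ (hy k), hj k hk]; rfl
    have hne : ∀ r k, ρ r ≠ y k := fun r k => mem_Out.1 (hy k) r
    -- vertex 0
    have a1 : f (ρ (some (i, j, 0))) ≠ 0 := by
      rw [← f0 _ (lab0 i j)]
      exact hfp _ _ (hne _ _) ((h0 i j _ (hy _)).2 (Or.inl rfl))
    have a2 : f (ρ (some (i, j, 0))) ≠ 1 := by
      intro h
      exact hfp _ _ (hne _ _) ((h0 i j _ (hy _)).2 (Or.inr rfl)) (h.trans (f1 _ (lab1 i j)).symm)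
    have a3 := hf (ρ (some (i, j, 0)))
    rw [e1] at a3
    simp only [Lt, mem_insert, mem_singleton] at a3
    -- vertex 2
    have b1 : f (ρ (some (i, j, 2))) ≠ 0 := by
      rw [← f0 _ (lab3 i j)]
      exact hfp _ _ (hne _ _) ((h2 i j _ (hy _)).2 (Or.inl rfl))
    have b2 : f (ρ (some (i, j, 2))) ≠ 1 := by
      intro h
      exact hfp _ _ (hne _ _) ((h2 i j _ (hy _)).2 (Or.inr rfl)) (h.trans (f1 _ (lab4 i j)).symm)
    have b3 := hf (ρ (some (i, j, 2)))
    rw [e1] at b3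
    simp only [Lt, mem_insert, mem_singleton] at b3
    -- vertex 1
    have c1 : f (ρ (some (i, j, 1))) ≠ 0 := by
      rw [← f0 _ (lab2 i j)]
      exact hfp _ _ (hne _ _) ((h1 i j _ (hy _)).2 rfl)
    have c3 := hf (ρ (some (i, j, 1)))
    rw [e1] at c3
    simp only [Lt, mem_insert, mem_singleton] at c3
    have r01 : (some (i, j, 0) : Rt (l + 1)) ≠ some (i, j, 1) := by simp
    have r12 : (some (i, j, 1) : Rt (l + 1)) ≠ some (i, j, 2) := by simp
    have d1 : f (ρ (some (i, j, 0))) ≠ f (ρ (some (i, j, 1))) :=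
      hfp _ _ (fun h => r01 (hρ h)) ((hRR _ _ r01).2 ⟨i, j, Or.inl ⟨rfl, rfl⟩⟩)
    have d2 : f (ρ (some (i, j, 1))) ≠ f (ρ (some (i, j, 2))) :=
      hfp _ _ (fun h => r12 (hρ h)) ((hRR _ _ r12).2 ⟨i, j, Or.inr (Or.inr (Or.inl ⟨rfl, rfl⟩))⟩)
    omega

/-- many equal pairs -/
theorem X_lower {c : ℝ} {ω : Om n} {ρ : Rt (l + 1) → Fin n} (h : Ev l c ω ρ) :
    ∃ Z : Finset (Fin n), c / 2 * ((Out ρ).card : ℝ) ≤ (Z.card : ℝ) ∧
      Z.card * Z.card ≤ X Set.univ Finset.univ ω + Z.card := by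
  obtain ⟨hρ, hRR, w, y, hT, hv, h0, h1, h2⟩ := h
  obtain ⟨hw, hy, hcs, -, -⟩ := hT
  refine ⟨(Out ρ).filter (fun z => Cov Set.univ (Out ρ) ω (insert z (univ.image w))), hcs, ?_⟩
  set Z := (Out ρ).filter (fun z => Cov Set.univ (Out ρ) ω (insert z (univ.image w))) with hZ
  have key : ∀ z ∈ Z, ∀ σ ∈ Sol Set.univ (Finset.univ : Finset (Fin n)) ω,
      σ z = σ (ρ none) := by
    intro z hz σ hσ
    rw [hZ, mem_filter] at hz
    have hσ' : σ ∈ Sol Set.univ (Out ρ) ω := Sol_mono (Finset.subset_univ _) hσ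
    obtain ⟨x, hx, hxs⟩ := hz.2 σ hσ' (σ (ρ none))
    rw [mem_insert, mem_image] at hx
    rcases hx with rfl | ⟨i, -, rfl⟩
    · exact hxs
    · exfalso
      refine hσ.1 (ρ none) (mem_univ _) (w i) (mem_univ _) (mem_Out.1 (hw i) none)
        ((hv (w i) (hw i)).2 ⟨i, rfl⟩) hxs.symm
  have h1 : (Z.offDiag).card ≤ X Set.univ Finset.univ ω := by
    refine Finset.card_le_card ?_
    intro q hq
    rw [mem_offDiag] at hq
    rw [mem_filter]
    refine ⟨by simp, hq.2.2, fun σ hσ => ?_⟩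
    rw [key q.1 hq.1 σ hσ, key q.2 hq.2.1 σ hσ]
  rw [Finset.offDiag_card] at h1
  omega

end GA

open GA

theorem GA_thm : S_gadget := by
  intro l c hc
  set N := Fintype.card (Rt (l + 1)) with hN
  refine ⟨c ^ 2 / 32, max (2 * N) ⌈8 / c⌉₊, by positivity, ?_⟩
  intro n hn ω ρ hEv
  obtain ⟨σ, hσ⟩ := exists_col hEv
  obtain ⟨L, hL, hL'⟩ := not_choosable hEv
  refine ⟨⟨?_, L, hL, ?_⟩, ?_, ?_⟩
  · refine ⟨SimpleGraph.Coloring.mk σ ?_⟩
    intro a b hab
    rw [SimpleGraph.fromEdgeSet_adj] at hab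
    exact hσ a b hab.2 (by simpa using hab.1)
  · rintro ⟨f, hf, hf'⟩
    refine hL' ⟨f, hf, fun u v huv he => hf' u v ?_⟩
    rw [SimpleGraph.fromEdgeSet_adj]
    exact ⟨by simpa using he, huv⟩
  · exact ⟨σ, fun a _ b _ hab he => hσ a b hab he, Set.mem_univ _⟩
  · obtain ⟨Z, hZ1, hZ2⟩ := X_lower hEv
    have hn1 : 2 * N ≤ n := le_trans (le_max_left _ _) hn
    have hn2 : 8 / c ≤ (n : ℝ) := by
      refine (Nat.le_ceil _).trans ?_
      exact_mod_cast le_trans (le_max_right _ _) hn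
    have hS : n - N ≤ (Out ρ).card := by
      have h1 : (univ : Finset (Fin n)).card - (univ.image ρ).card ≤ (Out ρ).card :=
        Finset.le_card_sdiff _ _
      have h2 : (univ.image ρ).card ≤ N := by
        refine (Finset.card_image_le).trans ?_
        rw [Finset.card_univ]
      rw [Finset.card_univ, Fintype.card_fin] at h1
      omega
    have hS' : (n : ℝ) / 2 ≤ ((Out ρ).card : ℝ) := by
      have h1 : n ≤ 2 * (Out ρ).card := by omega
      have h2 : (n : ℝ) ≤ 2 * ((Out ρ).card : ℝ) := by exact_mod_cast h1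
      linarith
    have hz : c * n / 4 ≤ (Z.card : ℝ) := by
      refine le_trans ?_ hZ1
      nlinarith
    have hcn : 8 ≤ c * n := by
      rw [div_le_iff₀ hc] at hn2
      linarith
    have hX : (Z.card : ℝ) * Z.card ≤ (X Set.univ Finset.univ ω : ℝ) + Z.card := by
      exact_mod_cast hZ2
    have h1 : c * n / 8 ≤ (Z.card : ℝ) - 1 := by linarith
    have h2 : (c * n / 4) * (c * n / 8) ≤ (Z.card : ℝ) * ((Z.card : ℝ) - 1) :=
      mul_le_mul hz h1 (by positivity) (by positivity)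
    nlinarith

end Pool.Agent.H624C
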