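import Pool.Agent.H624C.Basic

/-!
# GO: dense covering families (statement `S_good`)

If `w ∪ {z}` (`l + 1` vertices) is covering and the configuration is alive, then after removal of
any one vertex no solution is constant on the remaining `l` vertices.  The discrete
Loomis-Whitney inequality for one family of `l`-tuples gives `d ^ l ≤ κ ^ (l + 1)` for the
densities, so the configurations in which the density `d` is small contribute little.
-/

set_option autoImplicit false

namespace Pool.Agent.H624C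

open Finset
open scoped Classical

noncomputable section

namespace GO

/-- `(l+1)`-tuples all of whose `l`-subtuples are in `A` (Loomis-Whitney for one family) -/
theorem lw {V : Type} [Fintype V] : ∀ (l : ℕ) (A : (Fin (l + 1) → V) → Prop),
    ((((univ : Finset (Fin (l + 2) → V)).filter
      (fun a => ∀ i : Fin (l + 2), A (fun j => a (i.succAbove j)))).card : ℕ) : ℝ) ^ (l + 1)
      ≤ ((((univ : Finset (Fin (l + 1) → V)).filter A).card : ℕ) : ℝ) ^ (l + 2) := by
  intro l
  induction l with
  | zero =>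
    intro A
    have h : ((univ : Finset (Fin 2 → V)).filter
        (fun a => ∀ i : Fin 2, A (fun j => a (i.succAbove j)))).card ≤
        (((univ : Finset (Fin 1 → V)).filter A) ×ˢ ((univ : Finset (Fin 1 → V)).filter A)).card := by
      apply Finset.card_le_card_of_injOn
        (fun a => ((fun j => a ((0 : Fin 2).succAbove j)), (fun j => a ((1 : Fin 2).succAbove j))))
      · intro a ha
        have ha' := (Finset.mem_filter.1 ha).2
        exact Finset.mem_product.2 ⟨Finset.mem_filter.2 ⟨mem_univ _, ha' 0⟩,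
          Finset.mem_filter.2 ⟨mem_univ _, ha' 1⟩⟩
      · intro a _ b _ hab
        have h1 := congrFun (congrArg Prod.fst hab) 0
        have h2 := congrFun (congrArg Prod.snd hab) 0
        funext i
        fin_cases i
        · simpa using h2
        · simpa using h1
    rw [Finset.card_product] at h
    have h' : ((((univ : Finset (Fin 2 → V)).filter
        (fun a => ∀ i : Fin 2, A (fun j => a (i.succAbove j)))).card : ℕ) : ℝ) ≤
        ((((univ : Finset (Fin 1 → V)).filter A).card : ℕ) : ℝ) *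
        ((((univ : Finset (Fin 1 → V)).filter A).card : ℕ) : ℝ) := by exact_mod_cast h
    calc _ = ((((univ : Finset (Fin 2 → V)).filter
        (fun a => ∀ i : Fin 2, A (fun j => a (i.succAbove j)))).card : ℕ) : ℝ) := by
          simp
      _ ≤ _ := h'
      _ = _ := by ring
  | succ l ih =>
    intro A
    set a0 : ℝ := ((((univ : Finset (Fin (l + 1 + 1) → V)).filter A).card : ℕ) : ℝ) with ha0
    have ha0n : 0 ≤ a0 := Nat.cast_nonneg _
    let Av : V → (Fin (l + 1) → V) → Prop := fun v c => A (Fin.cons v c)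
    let x : V → ℕ := fun v => ((univ : Finset (Fin (l + 1 + 1) → V)).filter
      (fun b => ∀ i : Fin (l + 1 + 2), A (fun j => (Fin.cons v b : Fin (l + 1 + 2) → V)
        (i.succAbove j)))).card
    let y : V → ℕ := fun v => ((univ : Finset (Fin (l + 1) → V)).filter (Av v)).card
    -- decomposition of the counts
    have hx : (((univ : Finset (Fin (l + 1 + 2) → V)).filter
        (fun a => ∀ i : Fin (l + 1 + 2), A (fun j => a (i.succAbove j)))).card) = ∑ v, x v := by
      simp only [x, Finset.card_filter]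
      rw [← Fintype.sum_prod_type']
      symm
      exact Fintype.sum_equiv (Fin.consEquiv (fun _ : Fin (l + 1 + 2) => V)) _ _ (fun p => rfl)
    have hy : (((univ : Finset (Fin (l + 1 + 1) → V)).filter A).card) = ∑ v, y v := by
      simp only [y, Av, Finset.card_filter]
      rw [← Fintype.sum_prod_type']
      symm
      exact Fintype.sum_equiv (Fin.consEquiv (fun _ : Fin (l + 1 + 1) => V)) _ _ (fun p => rfl)
    -- bounds of the parts
    have hx1 : ∀ v, (x v : ℝ) ≤ a0 := by
      intro v
      rw [ha0]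
      exact_mod_cast Finset.card_le_card (fun b hb => by
        have hb' := (Finset.mem_filter.1 hb).2 0
        refine Finset.mem_filter.2 ⟨mem_univ _, ?_⟩
        simpa using hb')
    have hx2 : ∀ v, (x v : ℝ) ^ (l + 1) ≤ (y v : ℝ) ^ (l + 2) := by
      intro v
      refine le_trans ?_ (ih (Av v))
      apply pow_le_pow_left₀ (Nat.cast_nonneg _)
      exact_mod_cast Finset.card_le_card (fun b hb => by
        have hb' := (Finset.mem_filter.1 hb).2
        refine Finset.mem_filter.2 ⟨mem_univ _, fun i => ?_⟩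
        have h3 := hb' i.succ
        have h4 : (fun j => (Fin.cons v b : Fin (l + 1 + 2) → V) (i.succ.succAbove j)) =
            (Fin.cons v (fun j => b (i.succAbove j)) : Fin (l + 2) → V) := by
          funext j
          refine Fin.cases ?_ (fun j' => ?_) j
          · simp
          · simp
        rw [h4] at h3
        exact h3)
    -- the root
    obtain ⟨r, hr0, hr⟩ : ∃ r : ℝ, 0 ≤ r ∧ r ^ (l + 2) = a0 := by
      refine ⟨a0 ^ (1 / ((l + 2 : ℕ) : ℝ)), Real.rpow_nonneg ha0n _, ?_⟩
      rw [← Real.rpow_natCast, ← Real.rpow_mul ha0n]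
      rw [one_div, inv_mul_cancel₀ (by positivity), Real.rpow_one]
    have hx3 : ∀ v, (x v : ℝ) ≤ r * y v := by
      intro v
      have h5 : (x v : ℝ) ^ (l + 2) ≤ (r * y v) ^ (l + 2) := by
        calc (x v : ℝ) ^ (l + 2) = x v * (x v : ℝ) ^ (l + 1) := by ring
          _ ≤ a0 * (y v : ℝ) ^ (l + 2) :=
            mul_le_mul (hx1 v) (hx2 v) (by positivity) ha0n
          _ = (r * y v) ^ (l + 2) := by rw [mul_pow, hr]
      exact le_of_pow_le_pow_left₀ (by omega) (by positivity) h5
    have hsum : ((((univ : Finset (Fin (l + 1 + 2) → V)).filter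
        (fun a => ∀ i : Fin (l + 1 + 2), A (fun j => a (i.succAbove j)))).card : ℕ) : ℝ) ≤
        r * a0 := by
      rw [hx, ha0, hy]
      push_cast
      rw [Finset.mul_sum]
      exact Finset.sum_le_sum (fun v _ => hx3 v)
    calc _ ≤ (r * a0) ^ (l + 1 + 1) := pow_le_pow_left₀ (Nat.cast_nonneg _) hsum _
      _ = r ^ (l + 2) * a0 ^ (l + 1 + 1) := by rw [mul_pow]
      _ = a0 * a0 ^ (l + 1 + 1) := by rw [hr]
      _ = a0 ^ (l + 1 + 2) := by ring

variable {n : ℕ}

/-- tuples in `S` on which no solution is constant -/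
def Qp (l : ℕ) (S : Finset (Fin n)) (ω : Om n) (w : Fin l → Fin n) : Prop :=
  (∀ i, w i ∈ S) ∧ Alive Set.univ S ω ∧ NC Set.univ S ω (univ.image w)

/-- the number of `l`-tuples of `S` on which no solution is constant (alive configurations) -/
def nck (l : ℕ) (S : Finset (Fin n)) (ω : Om n) : ℕ :=
  ((Finset.univ : Finset (Fin l → Fin n)).filter (Qp l S ω)).card

theorem alive_of_not_cov {R : Set (Col n)} {S Y : Finset (Fin n)} {ω : Om n}
    (h : ¬ Cov R S ω Y) : Alive R S ω := by
  unfold Cov at h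
  push Not at h
  obtain ⟨σ, hσ, -⟩ := h
  exact ⟨σ, hσ⟩

/-- a third colour -/
theorem third (a b : Fin 3) : ∃ c : Fin 3, c ≠ a ∧ c ≠ b := by
  revert a b; decide

theorem prs_le_cnt (l : ℕ) (S : Finset (Fin n)) (ω : Om n) :
    prs l S ω ≤ ((univ : Finset (Fin (l + 1) → Fin n)).filter
      (fun a => ∀ i : Fin (l + 1), Qp l S ω (fun j => a (i.succAbove j)))).card := by
  unfold prs
  apply Finset.card_le_card_of_injOn (fun q => (Fin.cons q.2 q.1 : Fin (l + 1) → Fin n))
  · intro q hq
    obtain ⟨-, h1, h2, h3, h4⟩ := Finset.mem_filter.1 hq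
    have key : ∀ k : Fin (l + 1), (Fin.cons q.2 q.1 : Fin (l + 1) → Fin n) k ∈ S := by
      intro k
      refine Fin.cases ?_ (fun k => ?_) k
      · simpa using h2
      · simpa using h1 k
    refine Finset.mem_filter.2 ⟨mem_univ _, fun i => ⟨fun j => key _, alive_of_not_cov h3, ?_⟩⟩
    · intro σ hσ hc
      obtain ⟨s, hs⟩ := hc
      obtain ⟨c, hc1, hc2⟩ := third s (σ ((Fin.cons q.2 q.1 : Fin (l + 1) → Fin n) i))
      obtain ⟨y, hy, hyc⟩ := h4 σ hσ c
      obtain ⟨k, rfl⟩ : ∃ k, (Fin.cons q.2 q.1 : Fin (l + 1) → Fin n) k = y := by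
        rcases Finset.mem_insert.1 hy with h | h
        · exact ⟨0, by simp [h]⟩
        · obtain ⟨k, -, hk⟩ := Finset.mem_image.1 h
          exact ⟨k.succ, by simpa using hk⟩
      by_cases hk : k = i
      · subst hk
        exact hc2 hyc.symm
      · obtain ⟨j, rfl⟩ := Fin.exists_succAbove_eq hk
        exact hc1 (by
          rw [← hyc]
          exact hs _ (Finset.mem_image.2 ⟨j, mem_univ _, rfl⟩))
  · intro q _ q' _ h
    have h' := Fin.cons_injective2 h
    exact Prod.ext h'.2 h'.1

theorem prs_pow_le (l : ℕ) (hl : 1 ≤ l) (S : Finset (Fin n)) (ω : Om n) :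
    (prs l S ω : ℝ) ^ l ≤ (nck l S ω : ℝ) ^ (l + 1) := by
  obtain ⟨k, rfl⟩ : ∃ k, l = k + 1 := ⟨l - 1, by omega⟩
  have h1 := lw k (Qp (k + 1) S ω)
  have h2 := prs_le_cnt (k + 1) S ω
  have h3 : (prs (k + 1) S ω : ℝ) ≤ _ := Nat.cast_le.2 h2
  exact le_trans (pow_le_pow_left₀ (Nat.cast_nonneg _) h3 _) h1

theorem prs_le (l : ℕ) (S : Finset (Fin n)) (ω : Om n) : prs l S ω ≤ S.card ^ (l + 1) := by
  unfold prs
  calc _ ≤ ((Fintype.piFinset (fun _ : Fin l => S)) ×ˢ S).card := by
        apply Finset.card_le_card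
        intro q hq
        obtain ⟨-, h1, h2, -, -⟩ := Finset.mem_filter.1 hq
        exact Finset.mem_product.2 ⟨Fintype.mem_piFinset.2 h1, h2⟩
    _ = S.card ^ (l + 1) := by
        rw [Finset.card_product, Fintype.card_piFinset_const, pow_succ]

theorem prs_zero (l : ℕ) (hl : l < 2) (S : Finset (Fin n)) (ω : Om n) : prs l S ω = 0 := by
  unfold prs
  rw [Finset.card_eq_zero, Finset.filter_eq_empty_iff]
  rintro q - ⟨h1, h2, h3, h4⟩
  obtain ⟨σ, hσ⟩ := alive_of_not_cov h3
  have h5 : (univ : Finset (Fin 3)) ⊆ (insert q.2 (univ.image q.1)).image σ := by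
    intro s _
    obtain ⟨y, hy, hys⟩ := h4 σ hσ s
    exact Finset.mem_image.2 ⟨y, hy, hys⟩
  have h6 := Finset.card_le_card h5
  have h7 : ((insert q.2 (univ.image q.1)).image σ).card ≤ l + 1 := by
    calc _ ≤ (insert q.2 (univ.image q.1)).card := Finset.card_image_le
      _ ≤ (univ.image q.1).card + 1 := Finset.card_insert_le _ _
      _ ≤ l + 1 := by
        have := Finset.card_image_le (s := (univ : Finset (Fin l))) (f := q.1)
        simp at this
        omega
  rw [Finset.card_univ, Fintype.card_fin] at h6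
  omega

theorem nck_eq (l : ℕ) (S : Finset (Fin n)) (ω : Om n) :
    (nck l S ω : ℝ) = ∑ w ∈ Fintype.piFinset (fun _ : Fin l => S),
      ind (Alive Set.univ S ω ∧ NC Set.univ S ω (univ.image w)) := by
  rw [← card_filter_eq_sum_ind]
  unfold nck
  norm_cast
  congr 1
  ext w
  simp only [Finset.mem_filter, mem_univ, true_and, Fintype.mem_piFinset, Qp]

/-- if the density of covering tuples is small then it is small compared with the density of the
nonconstant tuples -/
theorem small_case (l : ℕ) (hl : 1 ≤ l) (y m d N : ℝ) (hy : 0 ≤ y) (hm : 0 < m) (hd : 0 ≤ d)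
    (hN : 0 ≤ N) (h : d ^ l ≤ N ^ (l + 1)) (h2 : d ≤ y ^ (l + 1) * m ^ (l + 1)) :
    d / m ^ (l + 1) ≤ y * (N / m ^ l) := by
  have h3 : d ≤ y * m * N := by
    apply le_of_pow_le_pow_left₀ (n := l + 1) (by omega) (by positivity)
    calc d ^ (l + 1) = d * d ^ l := by ring
      _ ≤ (y ^ (l + 1) * m ^ (l + 1)) * N ^ (l + 1) := mul_le_mul h2 h (by positivity)
          (by positivity)
      _ = (y * m * N) ^ (l + 1) := by rw [mul_pow, mul_pow]
  rw [div_le_iff₀ (by positivity)]
  calc d ≤ y * m * N := h3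
    _ = y * (N / m ^ l) * m ^ (l + 1) := by
      rw [pow_succ]
      field_simp

end GO

open GO in
theorem GO_thm (h1 : S_alpha) (h2 : S_kappa) (h3 : S_kill) : S_good := by
  obtain ⟨ε, Λ, c, D, n0, hε, hεΛ, hc, H⟩ := h1
  have hΛ : 0 < Λ := lt_trans hε hεΛ
  obtain ⟨C, hC0, hC⟩ := h2 Λ D hΛ
  set y : ℝ := min 1 (c / (2 * (C + 1))) with hy
  have hy0 : 0 < y := lt_min one_pos (by positivity)
  have hy1 : y ≤ 1 := min_le_left _ _
  have hyC : y * C ≤ c / 2 := by
    calc y * C ≤ (c / (2 * (C + 1))) * (C + 1) :=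
          mul_le_mul (min_le_right _ _) (by linarith) hC0 (by positivity)
      _ = c / 2 := by field_simp
  refine ⟨ε, Λ, y ^ (D + 1), c / 2, D, max n0 (max 2 (⌈2 * Λ⌉₊)), hε, hεΛ, by positivity,
    by positivity, ?_⟩
  intro n hn M hM t0 t1 ht0 ht1
  have hn0 : n0 ≤ n := le_trans (le_max_left _ _) hn
  have hn2 : 2 ≤ n := le_trans (le_trans (le_max_left _ _) (le_max_right _ _)) hn
  have hnΛ : 2 * Λ ≤ (n : ℝ) := by
    have : ⌈2 * Λ⌉₊ ≤ n := le_trans (le_trans (le_max_right _ _) (le_max_right _ _)) hn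
    exact le_trans (Nat.le_ceil _) (by exact_mod_cast this)
  have hnpos : (0 : ℝ) < n := by positivity
  have hMpos : 0 < M := lt_of_lt_of_le (by positivity) hM
  have hMr : (0 : ℝ) < M := by exact_mod_cast hMpos
  obtain ⟨v0, l, hlD, hl⟩ := H n hn0 M hM t0 t1 ht0 ht1
  have hl2 : 2 ≤ l := by
    by_contra hcon
    push Not at hcon
    have hz : ∀ t : ℕ, E ((t : ℝ) / M)
        (fun ω : Om n => (prs l (univ.erase v0) ω : ℝ) / (n : ℝ) ^ (l + 1)) = 0 := by
      intro t
      rw [E_congr (g := fun _ => (0 : ℝ))]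
      · exact E_zero _
      · intro ω
        rw [prs_zero l hcon]
        simp
    simp only [hz, Finset.sum_const_zero, mul_zero] at hl
    have : 0 < c * M := by positivity
    linarith
  refine ⟨v0, l, hl2, hlD, ?_⟩
  set S : Finset (Fin n) := univ.erase v0 with hS
  set m : ℝ := (S.card : ℝ) with hm
  have hScard : S.card = n - 1 := by
    rw [hS, Finset.card_erase_of_mem (mem_univ _)]; simp
  have hSpos : 0 < S.card := by omega
  have hmpos : 0 < m := by rw [hm]; exact_mod_cast hSpos
  have hmn : m ≤ n := by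
    rw [hm, hScard]; exact_mod_cast Nat.sub_le _ _
  have ht1' : (t1 : ℝ) * n ≤ Λ * M := by
    have : (t1 : ℝ) ≤ Λ * M / n := by
      rw [ht1]; exact Nat.floor_le (by positivity)
    calc (t1 : ℝ) * n ≤ (Λ * M / n) * n := mul_le_mul_of_nonneg_right this hnpos.le
      _ = Λ * M := by field_simp
  have ht12 : 2 * t1 ≤ M := by
    have h4 : (2 * (t1 : ℝ)) * n ≤ M * n := by
      calc (2 * (t1 : ℝ)) * n = 2 * ((t1 : ℝ) * n) := by ring
        _ ≤ 2 * (Λ * M) := by linarith
        _ = (2 * Λ) * M := by ring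
        _ ≤ n * M := mul_le_mul_of_nonneg_right hnΛ hMr.le
        _ = M * n := by ring
    have h5 : 2 * (t1 : ℝ) ≤ M := le_of_mul_le_mul_right h4 hnpos
    exact_mod_cast h5
  have hKS : KS n M t1 := h3 n M t1 (by omega) hM ht12
  -- the pointwise inequality
  have hpt : ∀ ω : Om n, (prs l S ω : ℝ) / (n : ℝ) ^ (l + 1) ≤
      ind (Good l (y ^ (D + 1)) S ω) + y * ((nck l S ω : ℝ) / m ^ l) := by
    intro ω
    have h4 : (prs l S ω : ℝ) / (n : ℝ) ^ (l + 1) ≤ (prs l S ω : ℝ) / m ^ (l + 1) := by
      apply div_le_div_of_nonneg_left (Nat.cast_nonneg _) (by positivity)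
      exact pow_le_pow_left₀ hmpos.le hmn _
    refine le_trans h4 ?_
    by_cases hg : Good l (y ^ (D + 1)) S ω
    · rw [ind_true hg]
      have h5 : (prs l S ω : ℝ) / m ^ (l + 1) ≤ 1 := by
        rw [div_le_one (by positivity)]
        rw [hm]
        exact_mod_cast prs_le l S ω
      have h6 : 0 ≤ y * ((nck l S ω : ℝ) / m ^ l) := by positivity
      linarith
    · rw [ind_false hg, zero_add]
      unfold Good at hg
      push Not at hg
      apply small_case l (by omega) y m _ _ hy0.le hmpos (Nat.cast_nonneg _) (Nat.cast_nonneg _)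
        (prs_pow_le l (by omega) S ω)
      refine le_trans hg.le ?_
      apply mul_le_mul_of_nonneg_right _ (by positivity)
      exact pow_le_pow_of_le_one hy0.le hy1 (by omega)
  -- probabilities
  have hp : ∀ t ∈ Ico t0 t1, (0 : ℝ) ≤ (t : ℝ) / M ∧ (t : ℝ) / M ≤ 1 := by
    intro t ht
    have : t < t1 := (Finset.mem_Ico.1 ht).2
    refine ⟨by positivity, ?_⟩
    rw [div_le_one hMr]
    exact_mod_cast (by omega : t ≤ M)
  have hp' : ∀ t ∈ range t1, (0 : ℝ) ≤ (t : ℝ) / M ∧ (t : ℝ) / M ≤ 1 := by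
    intro t ht
    have : t < t1 := Finset.mem_range.1 ht
    refine ⟨by positivity, ?_⟩
    rw [div_le_one hMr]
    exact_mod_cast (by omega : t ≤ M)
  -- the sum of the densities of nonconstant tuples
  have hkap : (n : ℝ) ^ 2 * ∑ t ∈ Ico t0 t1, E ((t : ℝ) / M)
      (fun ω : Om n => (nck l S ω : ℝ) / m ^ l) ≤ C * M := by
    have h4 : ∀ t : ℕ, E ((t : ℝ) / M) (fun ω : Om n => (nck l S ω : ℝ) / m ^ l) =
        (∑ w ∈ Fintype.piFinset (fun _ : Fin l => S), E ((t : ℝ) / M)
          (fun ω => ind (Alive Set.univ S ω ∧ NC Set.univ S ω (univ.image w)))) / m ^ l := by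
      intro t
      rw [← E_sum, div_eq_mul_inv _ (m ^ l), ← E_mul_right]
      apply E_congr
      intro ω
      rw [nck_eq, div_eq_mul_inv]
    have h5 : ∑ t ∈ Ico t0 t1, E ((t : ℝ) / M) (fun ω : Om n => (nck l S ω : ℝ) / m ^ l) ≤
        ∑ t ∈ range t1, E ((t : ℝ) / M) (fun ω : Om n => (nck l S ω : ℝ) / m ^ l) := by
      apply Finset.sum_le_sum_of_subset_of_nonneg
      · intro t ht
        exact Finset.mem_range.2 (Finset.mem_Ico.1 ht).2
      · intro t ht _
        exact E_nonneg (hp' t ht).1 (hp' t ht).2 (fun ω => by positivity)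
    have h6 : ∑ t ∈ range t1, E ((t : ℝ) / M) (fun ω : Om n => (nck l S ω : ℝ) / m ^ l) =
        (∑ w ∈ Fintype.piFinset (fun _ : Fin l => S), ∑ t ∈ range t1, E ((t : ℝ) / M)
          (fun ω => ind (Alive Set.univ S ω ∧ NC Set.univ S ω (univ.image w)))) / m ^ l := by
      rw [Finset.sum_congr rfl (fun t _ => h4 t), ← Finset.sum_div, Finset.sum_comm]
    have h7 : ∀ w ∈ Fintype.piFinset (fun _ : Fin l => S), ∑ t ∈ range t1, E ((t : ℝ) / M)
          (fun ω => ind (Alive Set.univ S ω ∧ NC Set.univ S ω (univ.image w))) ≤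
          C * M / (n : ℝ) ^ 2 := by
      intro w hw
      have hw' := Fintype.mem_piFinset.1 hw
      have h8 := hC n M t1 (by omega) hnΛ hMpos ht1' hKS S (univ.image w) (by
        intro z hz
        obtain ⟨i, -, rfl⟩ := Finset.mem_image.1 hz
        exact hw' i) (by
        have := Finset.card_image_le (s := (univ : Finset (Fin l))) (f := w)
        simp at this
        omega)
      rw [le_div_iff₀ (by positivity)]
      rw [div_mul_eq_mul_div, div_le_iff₀ hMr] at h8
      linarith
    calc (n : ℝ) ^ 2 * ∑ t ∈ Ico t0 t1, E ((t : ℝ) / M)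
          (fun ω : Om n => (nck l S ω : ℝ) / m ^ l)
        ≤ (n : ℝ) ^ 2 * ((∑ w ∈ Fintype.piFinset (fun _ : Fin l => S), C * M / (n : ℝ) ^ 2)
            / m ^ l) := by
          apply mul_le_mul_of_nonneg_left _ (by positivity)
          rw [h6] at h5
          refine le_trans h5 ?_
          apply div_le_div_of_nonneg_right _ (by positivity)
          exact Finset.sum_le_sum h7
      _ = C * M := by
          rw [Finset.sum_const, Fintype.card_piFinset_const, nsmul_eq_mul]
          push_cast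
          rw [← hm]
          field_simp
  -- conclusion
  have hmain : c * M ≤ (n : ℝ) ^ 2 * ∑ t ∈ Ico t0 t1, E ((t : ℝ) / M)
        (fun ω : Om n => ind (Good l (y ^ (D + 1)) S ω)) + y * (C * M) := by
    calc c * M ≤ _ := hl
      _ ≤ (n : ℝ) ^ 2 * ∑ t ∈ Ico t0 t1, E ((t : ℝ) / M) (fun ω : Om n =>
            ind (Good l (y ^ (D + 1)) S ω) + y * ((nck l S ω : ℝ) / m ^ l)) := by
          apply mul_le_mul_of_nonneg_left _ (by positivity)
          exact Finset.sum_le_sum (fun t ht => E_mono (hp t ht).1 (hp t ht).2 hpt)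
      _ = (n : ℝ) ^ 2 * ∑ t ∈ Ico t0 t1, E ((t : ℝ) / M)
            (fun ω : Om n => ind (Good l (y ^ (D + 1)) S ω)) +
          y * ((n : ℝ) ^ 2 * ∑ t ∈ Ico t0 t1, E ((t : ℝ) / M)
            (fun ω : Om n => (nck l S ω : ℝ) / m ^ l)) := by
          simp only [E_add, E_mul_left, Finset.sum_add_distrib, ← Finset.mul_sum]
          ring
      _ ≤ _ := by
          have := mul_le_mul_of_nonneg_left hkap hy0.le
          linarith
  have h9 : y * (C * M) ≤ c / 2 * M := by
    calc y * (C * M) = (y * C) * M := by ring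
      _ ≤ c / 2 * M := mul_le_mul_of_nonneg_right hyC hMr.le
  linarith

end

end Pool.Agent.H624C
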