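import Pool.Agent.H624C.Basic

/-!
# Task KA: the merging sum is bounded (helper246)
-/

set_option autoImplicit false

namespace Pool.Agent.H624C

open Finset
open scoped Classical

theorem ka_G_le {n : ℕ} (hL : S_large) {p : ℝ} (h0 : 0 ≤ p) (h1 : p ≤ 1)
    (T Y : Finset (Fin n)) :
    G p Set.univ T Y ≤ E p (fun ω => ind (Alive (RY Set.univ Y) T ω) *
      √(X (RY Set.univ Y) T ω : ℝ)) + 1 := by
  unfold G
  calc E p (fun ω => ind (Alive (RY Set.univ Y) T ω) * (cs Set.univ T ω Y : ℝ))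
      ≤ E p (fun ω => ind (Alive (RY Set.univ Y) T ω) *
          √(X (RY Set.univ Y) T ω : ℝ) + 1) := by
        apply E_mono h0 h1
        intro ω
        by_cases hA : Alive (RY Set.univ Y) T ω
        · have := hL n T Y Set.univ ω hA
          rw [ind_true hA]
          linarith
        · rw [ind_false hA]
          norm_num
    _ = _ := by
        rw [E_add, E_one]

theorem kappa_of (hE1 : S_E1) (hL : S_large) (hA : S_A) : S_kappa := by
  intro Λ r hΛ
  obtain ⟨a, b, ha, hb, hAA⟩ := hA Λ hΛ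
  refine ⟨(r : ℝ) ^ 2 * Λ ^ 2 + r * Λ * (a + b + Λ) * Real.exp (2 * r * Λ), by positivity, ?_⟩
  intro n M t1 hn h2 hM ht hKS S W hWS hWr
  have hnR : (0 : ℝ) < n := by exact_mod_cast hn
  have hMR : (0 : ℝ) < M := by exact_mod_cast hM
  obtain ⟨q, hq⟩ : ∃ q : ℝ, q = Λ / n := ⟨_, rfl⟩
  have hqn : q * n = Λ := by rw [hq]; field_simp
  have hq0 : 0 < q := by rw [hq]; positivity
  have hq1 : q ≤ 1 / 2 := by
    rw [hq, div_le_iff₀ hnR]; linarith
  have hp0 : ∀ t : ℕ, 0 ≤ (t : ℝ) / M := fun t => by positivity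
  have hpq : ∀ t ∈ range t1, (t : ℝ) / M ≤ q := by
    intro t htt
    have h3 : (t : ℝ) ≤ t1 := by exact_mod_cast (Finset.mem_range.mp htt).le
    rw [div_le_iff₀ hMR, hq, div_mul_eq_mul_div, le_div_iff₀ hnR]
    nlinarith
  have hp1 : ∀ t ∈ range t1, (t : ℝ) / M ≤ 1 := fun t htt => by
    have := hpq t htt; linarith
  have hr0 : (0 : ℝ) ≤ r := Nat.cast_nonneg r
  have hWr' : (W.card : ℝ) ≤ r := by exact_mod_cast hWr
  have hW0 : (0 : ℝ) ≤ W.card := Nat.cast_nonneg _
  obtain ⟨T, hT⟩ : ∃ T : Finset (Fin n), T = S \ W := ⟨_, rfl⟩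
  obtain ⟨H, hH⟩ : ∃ H : ℕ → Finset (Fin n) → ℝ, H = fun (t : ℕ) Y =>
      E ((t : ℝ) / M) (fun ω => ind (Alive (RY Set.univ Y) T ω) *
        √(X (RY Set.univ Y) T ω : ℝ)) := ⟨_, rfl⟩
  have hHnn : ∀ t ∈ range t1, ∀ Y, 0 ≤ H t Y := by
    intro t htt Y
    rw [hH]
    exact E_nonneg (hp0 t) (hp1 t htt) (fun ω => mul_nonneg (ind_nonneg _) (Real.sqrt_nonneg _))
  have hstep : ∀ t ∈ range t1, E ((t : ℝ) / M)
      (fun ω => ind (Alive Set.univ S ω ∧ NC Set.univ S ω W)) ≤
      (r : ℝ) ^ 2 * q + ∑ Y ∈ T.powerset, ((r : ℝ) * q) ^ (Y.card + 1) * (H t Y + 1) := by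
    intro t htt
    have h3 := hE1 n ((t : ℝ) / M) (hp0 t) (hp1 t htt) S ∅ W Set.univ (Finset.empty_subset _)
      hWS (Finset.disjoint_empty_right _) (Dep_univ _)
    refine h3.trans ?_
    rw [← hT]
    apply add_le_add
    · apply mul_le_mul _ (hpq t htt) (hp0 t) (by positivity)
      exact pow_le_pow_left₀ hW0 hWr' 2
    · apply Finset.sum_le_sum
      intro Y _
      apply mul_le_mul
      · apply pow_le_pow_left₀ (mul_nonneg hW0 (hp0 t))
        exact mul_le_mul hWr' (hpq t htt) (hp0 t) hr0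
      · rw [hH]
        exact ka_G_le hL (hp0 t) (hp1 t htt) T Y
      · exact G_nonneg (hp0 t) (hp1 t htt) _ _ _
      · positivity
  have hsumH : ∀ Y ∈ T.powerset, (n : ℝ) / M * ∑ t ∈ range t1, H t Y ≤ a + b * Y.card := by
    intro Y hY
    have hdep : Dep Y (RY (Set.univ : Set (Col n)) Y) := by
      have := Dep_RY (K := ∅) (Y := Y) (Dep_univ (n := n) ∅)
      rwa [Finset.empty_union] at this
    have := hAA n M t1 hn h2 hM ht hKS T Y (RY Set.univ Y) (Finset.mem_powerset.mp hY) hdep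
    rw [hH]
    exact this
  have hc0 : 0 ≤ (n : ℝ) ^ 2 / M := by positivity
  have hnt : (n : ℝ) / M * t1 ≤ Λ := by
    rw [div_mul_eq_mul_div, div_le_iff₀ hMR]
    linarith
  calc (n : ℝ) ^ 2 / M * ∑ t ∈ range t1, E ((t : ℝ) / M)
        (fun ω => ind (Alive Set.univ S ω ∧ NC Set.univ S ω W))
      ≤ (n : ℝ) ^ 2 / M * ∑ t ∈ range t1, ((r : ℝ) ^ 2 * q +
          ∑ Y ∈ T.powerset, ((r : ℝ) * q) ^ (Y.card + 1) * (H t Y + 1)) := by
        apply mul_le_mul_of_nonneg_left _ hc0
        exact Finset.sum_le_sum hstep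
    _ = (r : ℝ) ^ 2 * (q * n) * ((n : ℝ) / M * t1) +
          ∑ Y ∈ T.powerset, (((r : ℝ) * q) ^ (Y.card + 1) * n) *
            ((n : ℝ) / M * ∑ t ∈ range t1, H t Y + (n : ℝ) / M * t1) := by
        rw [Finset.sum_add_distrib, mul_add, Finset.sum_const, Finset.card_range, nsmul_eq_mul,
          Finset.sum_comm, Finset.mul_sum]
        congr 1
        · ring
        · apply Finset.sum_congr rfl
          intro Y _
          rw [← Finset.mul_sum, Finset.sum_add_distrib, Finset.sum_const, Finset.card_range,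
            nsmul_eq_mul]
          ring
    _ ≤ (r : ℝ) ^ 2 * Λ ^ 2 + ∑ Y ∈ T.powerset,
          ((r : ℝ) * Λ * (a + b + Λ)) * (2 * r * q) ^ Y.card := by
        apply add_le_add
        · rw [hqn]
          calc (r : ℝ) ^ 2 * Λ * ((n : ℝ) / M * t1) ≤ (r : ℝ) ^ 2 * Λ * Λ :=
                mul_le_mul_of_nonneg_left hnt (by positivity)
            _ = _ := by ring
        · apply Finset.sum_le_sum
          intro Y hY
          have h3 : (n : ℝ) / M * ∑ t ∈ range t1, H t Y + (n : ℝ) / M * t1 ≤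
              (a + b + Λ) * 2 ^ Y.card := by
            have h4 := hsumH Y hY
            have h5 : (Y.card : ℝ) ≤ 2 ^ Y.card := by
              exact_mod_cast (Nat.lt_two_pow_self (n := Y.card)).le
            have h6 : (1 : ℝ) ≤ 2 ^ Y.card := one_le_pow₀ (by norm_num)
            have h7 : b * (Y.card : ℝ) ≤ b * 2 ^ Y.card := mul_le_mul_of_nonneg_left h5 hb
            have h8 : a * 1 ≤ a * 2 ^ Y.card := mul_le_mul_of_nonneg_left h6 ha
            have h9 : Λ * 1 ≤ Λ * 2 ^ Y.card := mul_le_mul_of_nonneg_left h6 hΛ.le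
            linarith
          calc (((r : ℝ) * q) ^ (Y.card + 1) * n) *
              ((n : ℝ) / M * ∑ t ∈ range t1, H t Y + (n : ℝ) / M * t1)
              ≤ (((r : ℝ) * q) ^ (Y.card + 1) * n) * ((a + b + Λ) * 2 ^ Y.card) :=
                mul_le_mul_of_nonneg_left h3 (by positivity)
            _ = ((r : ℝ) * (q * n) * (a + b + Λ)) * (2 * r * q) ^ Y.card := by
                rw [pow_succ, mul_assoc (2 : ℝ) r q, mul_pow 2]
                ring
            _ = _ := by rw [hqn]
    _ = (r : ℝ) ^ 2 * Λ ^ 2 + ((r : ℝ) * Λ * (a + b + Λ)) * (2 * r * q + 1) ^ T.card := by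
        rw [← Finset.mul_sum, ← Finset.sum_pow_mul_eq_add_pow (2 * r * q) 1 T]
        simp
    _ ≤ (r : ℝ) ^ 2 * Λ ^ 2 + ((r : ℝ) * Λ * (a + b + Λ)) * Real.exp (2 * r * Λ) := by
        apply add_le_add le_rfl
        apply mul_le_mul_of_nonneg_left _ (by positivity)
        have h3 : (2 * r * q + 1) ≤ Real.exp (2 * r * q) := Real.add_one_le_exp _
        have hTn : (T.card : ℝ) ≤ n := by
          have := Finset.card_le_univ T
          rw [Fintype.card_fin] at this
          exact_mod_cast this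
        calc (2 * r * q + 1) ^ T.card ≤ (Real.exp (2 * r * q)) ^ T.card :=
              pow_le_pow_left₀ (by positivity) h3 _
          _ = Real.exp (T.card * (2 * r * q)) := by rw [← Real.exp_nat_mul]
          _ ≤ Real.exp (2 * r * Λ) := by
              apply Real.exp_le_exp.mpr
              calc (T.card : ℝ) * (2 * r * q) ≤ n * (2 * r * q) :=
                    mul_le_mul_of_nonneg_right hTn (by positivity)
                _ = 2 * r * (q * n) := by ring
                _ = 2 * r * Λ := by rw [hqn]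

end Pool.Agent.H624C
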