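import Pool.Agent.H624C.Basic

/-!
# KI: the kill sum upper bound (helper267)
-/

set_option autoImplicit false

namespace Pool.Agent.H624C

open Finset
open scoped Classical

/-- `H t T` depends only on the labels smaller than `t` -/
def Adapted {n M : ℕ} (H : ℕ → Lab n M → Prop) : Prop :=
  ∀ (t : ℕ) (T T' : Lab n M),
    (∀ e, T e = T' e ∨ (t ≤ (T e : ℕ) ∧ t ≤ (T' e : ℕ))) → H t T → H t T'

theorem op_congr {n M t : ℕ} {T T' : Lab n M}
    (h : ∀ e, T e = T' e ∨ (t ≤ (T e : ℕ) ∧ t ≤ (T' e : ℕ))) : op t T = op t T' := by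
  ext e
  simp only [op, mem_filter, mem_univ, true_and]
  rcases h e with h | ⟨h1, h2⟩
  · rw [h]
  · omega

theorem op_mono {n M t t' : ℕ} (T : Lab n M) (h : t ≤ t') : op t T ⊆ op t' T := by
  intro e
  simp only [op, mem_filter, mem_univ, true_and]
  omega

theorem Alive.anti {n : ℕ} {R : Set (Col n)} {S : Finset (Fin n)} {ω ω' : Om n} (h : ω ⊆ ω')
    (hA : Alive R S ω') : Alive R S ω := by
  obtain ⟨σ, h1, h2⟩ := hA
  exact ⟨σ, fun a ha b hb hab hm => h1 a ha b hb hab (h hm), h2⟩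

/-- the ordered killing pairs -/
noncomputable def Xo {n : ℕ} (R : Set (Col n)) (S : Finset (Fin n)) (ω : Om n) : Finset (Fin n × Fin n) :=
  (S ×ˢ S).filter (fun q => q.1 ≠ q.2 ∧ Same R S ω q.1 q.2)

theorem X_eq {n : ℕ} (R : Set (Col n)) (S : Finset (Fin n)) (ω : Om n) :
    X R S ω = (Xo R S ω).card := rfl

theorem mem_Xo {n : ℕ} {R : Set (Col n)} {S : Finset (Fin n)} {ω : Om n} {q : Fin n × Fin n} :
    q ∈ Xo R S ω ↔ (q.1 ∈ S ∧ q.2 ∈ S) ∧ q.1 ≠ q.2 ∧ Same R S ω q.1 q.2 := by
  simp [Xo]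

/-- a killing pair of an alive configuration is not open -/
theorem Xo_not_mem {n : ℕ} {R : Set (Col n)} {S : Finset (Fin n)} {ω : Om n} {q : Fin n × Fin n}
    (hA : Alive R S ω) (hq : q ∈ Xo R S ω) : s(q.1, q.2) ∉ ω := by
  intro hm
  obtain ⟨σ, hσ⟩ := hA
  rw [mem_Xo] at hq
  exact hσ.1 q.1 hq.1.1 q.2 hq.1.2 hq.2.1 hm (hq.2.2 σ hσ)

/-- adding a killing pair kills -/
theorem Xo_kill {n : ℕ} {R : Set (Col n)} {S : Finset (Fin n)} {ω ω' : Om n} {q : Fin n × Fin n}
    (hq : q ∈ Xo R S ω) (h : ω ⊆ ω') (hm : s(q.1, q.2) ∈ ω') : ¬ Alive R S ω' := by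
  rintro ⟨σ, h1, h2⟩
  rw [mem_Xo] at hq
  have h3 : σ ∈ Sol R S ω := ⟨fun a ha b hb hab hm => h1 a ha b hb hab (h hm), h2⟩
  exact h1 q.1 hq.1.1 q.2 hq.1.2 hq.2.1 hm (hq.2.2 σ h3)

theorem KI_card {ι : Type} (s : Finset ι) (P : ι → Prop) [DecidablePred P] :
    ((s.filter P).card : ℝ) = ∑ i ∈ s, ind (P i) := by
  rw [Finset.card_filter]
  push_cast
  refine sum_congr rfl fun i _ => ?_
  unfold ind
  split_ifs <;> rfl

section
variable {n M : ℕ} {R : Set (Col n)} {S : Finset (Fin n)} {H : ℕ → Lab n M → Prop}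

/-- step A -/
theorem KI_stepA (hH : Adapted H) (hA : ∀ t T, H t T → Alive R S (op t T)) {t : ℕ} (ht : t < M)
    (q : Fin n × Fin n) :
    ((univ : Finset (Lab n M)).filter (fun T => H t T ∧ q ∈ Xo R S (op t T))).card ≤
      M * ((univ : Finset (Lab n M)).filter (fun T => (H t T ∧ q ∈ Xo R S (op t T)) ∧
        (T s(q.1, q.2) : ℕ) = t)).card := by
  set e := s(q.1, q.2) with he
  refine Finset.card_le_mul_card_image_of_maps_to (f := fun T => Function.update T e ⟨t, ht⟩)
    ?_ M ?_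
  · intro T hT
    rw [mem_filter] at hT ⊢
    obtain ⟨-, h1, h2⟩ := hT
    have h3 : e ∉ op t T := Xo_not_mem (hA t T h1) h2
    have h4 : t ≤ (T e : ℕ) := by
      by_contra hcon
      push Not at hcon
      exact h3 (by simp only [op, mem_filter, mem_univ, true_and]; exact hcon)
    have hcong : ∀ e', T e' = Function.update T e ⟨t, ht⟩ e' ∨
        (t ≤ (T e' : ℕ) ∧ t ≤ (Function.update T e ⟨t, ht⟩ e' : ℕ)) := by
      intro e'
      by_cases h : e' = e
      · subst h
        right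
        exact ⟨h4, by simp⟩
      · left
        rw [Function.update_of_ne h]
    refine ⟨mem_univ _, ⟨hH t T _ hcong h1, ?_⟩, by simp⟩
    rw [← op_congr hcong]
    exact h2
  · intro T' _
    have h1 : ((univ : Finset (Lab n M)).filter (fun T => H t T ∧ q ∈ Xo R S (op t T))).filter
        (fun T => Function.update T e ⟨t, ht⟩ = T') ⊆
        (univ : Finset (Fin M)).image (fun x => Function.update T' e x) := by
      intro T hT
      rw [mem_filter] at hT
      rw [mem_image]
      refine ⟨T e, mem_univ _, ?_⟩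
      rw [← hT.2]
      simp
    refine (card_le_card h1).trans (card_image_le.trans ?_)
    simp

/-- step B -/
theorem KI_stepB (hH : Adapted H) (hA : ∀ t T, H t T → Alive R S (op t T)) {t : ℕ} (ht : t < M) :
    ∑ T : Lab n M, ind (H t T) * (X R S (op t T) : ℝ) ≤
      M * ∑ T : Lab n M, ind (H t T) *
        (((Xo R S (op t T)).filter (fun q => (T s(q.1, q.2) : ℕ) = t)).card : ℝ) := by
  have h1 : ∀ (P : Lab n M → Prop) (A : Lab n M → Finset (Fin n × Fin n)),
      ∑ T : Lab n M, ind (P T) * ((A T).card : ℝ) =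
        ∑ q : Fin n × Fin n, (((univ : Finset (Lab n M)).filter
          (fun T => P T ∧ q ∈ A T)).card : ℝ) := by
    intro P A
    have h2 : ∀ T, ind (P T) * ((A T).card : ℝ) = ∑ q : Fin n × Fin n, ind (P T ∧ q ∈ A T) := by
      intro T
      have h3 : univ.filter (fun q => q ∈ A T) = A T := by ext q; simp
      have h4 : ((A T).card : ℝ) = ∑ q : Fin n × Fin n, ind (q ∈ A T) := by
        rw [← KI_card univ (fun q => q ∈ A T), h3]
      rw [h4, mul_sum]
      exact sum_congr rfl fun q _ => (ind_and _ _).symm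
    rw [sum_congr rfl fun T _ => h2 T, sum_comm]
    exact sum_congr rfl fun q _ => (KI_card _ _).symm
  rw [h1 (fun T => H t T) (fun T => (Xo R S (op t T)).filter (fun q => (T s(q.1, q.2) : ℕ) = t)),
    mul_sum]
  have h5 := h1 (fun T => H t T) (fun T => Xo R S (op t T))
  simp only [← X_eq] at h5
  rw [h5]
  refine sum_le_sum fun q _ => ?_
  have h6 := KI_stepA hH hA ht q
  have h7 : (univ : Finset (Lab n M)).filter (fun T => (H t T ∧ q ∈ Xo R S (op t T)) ∧
        (T s(q.1, q.2) : ℕ) = t) = (univ : Finset (Lab n M)).filter (fun T => H t T ∧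
        q ∈ (Xo R S (op t T)).filter (fun q => (T s(q.1, q.2) : ℕ) = t)) := by
    ext T
    simp only [mem_filter, mem_univ, true_and, and_assoc]
  rw [h7] at h6
  exact_mod_cast h6

/-- number of ordered pairs of distinct coordinates with equal labels -/
noncomputable def coll (T : Lab n M) : ℕ :=
  ((univ : Finset (Sym2 (Fin n) × Sym2 (Fin n))).filter
    (fun p => p.1 ≠ p.2 ∧ T p.1 = T p.2)).card

theorem KI_coll_ge (T : Lab n M) (t : ℕ) (A : Finset (Sym2 (Fin n)))
    (hA : ∀ e ∈ A, (T e : ℕ) = t) : A.card ≤ 1 + coll T := by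
  have h1 : A.offDiag.card ≤ coll T := by
    refine card_le_card ?_
    intro p hp
    rw [mem_offDiag] at hp
    rw [mem_filter]
    exact ⟨mem_univ _, hp.2.2, Fin.ext ((hA _ hp.1).trans (hA _ hp.2.1).symm)⟩
  rw [offDiag_card] at h1
  by_cases h : A.card ≤ 1
  · omega
  · push Not at h
    have : A.card ≤ A.card * A.card - A.card := by
      have h2 : A.card * 2 ≤ A.card * A.card := Nat.mul_le_mul_left _ h
      omega
    omega

/-- step C -/
theorem KI_stepC (hA : ∀ t T, H t T → Alive R S (op t T)) (t1 : ℕ) (T : Lab n M) :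
    ∑ t ∈ range t1, ind (H t T) *
        (((Xo R S (op t T)).filter (fun q => (T s(q.1, q.2) : ℕ) = t)).card : ℝ) ≤
      2 * (ind (∃ t, t < t1 ∧ H t T) + coll T) := by
  set B : ℕ → Finset (Fin n × Fin n) :=
    fun t => (Xo R S (op t T)).filter (fun q => (T s(q.1, q.2) : ℕ) = t) with hB
  -- the unordered pairs
  have hcard : ∀ t, (B t).card ≤ 2 * ((B t).image (fun q => s(q.1, q.2))).card := by
    intro t
    refine card_le_mul_card_image _ 2 ?_
    intro e _
    induction e using Sym2.ind with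
    | _ a b =>
      refine (card_le_card (t := {(a, b), (b, a)}) ?_).trans card_le_two
      rintro ⟨x, y⟩ hxy
      rw [mem_filter] at hxy
      have := hxy.2
      simp only [Sym2.eq_iff] at this
      simp only [mem_insert, mem_singleton, Prod.mk.injEq]
      exact this
  have hB1 : ∀ t, ((B t).image (fun q => s(q.1, q.2))).card ≤ 1 + coll T := by
    intro t
    refine KI_coll_ge T t _ ?_
    intro e he
    rw [mem_image] at he
    obtain ⟨q, hq, rfl⟩ := he
    exact (mem_filter.1 hq).2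
  -- after a nonempty step everything is dead
  have hdead : ∀ t, (B t).Nonempty → ∀ t', t < t' → ¬ H t' T := by
    rintro t ⟨q, hq⟩ t' htt' hH'
    rw [hB, mem_filter] at hq
    refine Xo_kill hq.1 (op_mono T htt'.le) ?_ (hA t' T hH')
    simp only [op, mem_filter, mem_univ, true_and]
    omega
  by_cases hex : ∃ t0, t0 < t1 ∧ H t0 T ∧ (B t0).Nonempty
  · obtain ⟨t0, ht0, hH0, hne⟩ := hex
    have hzero : ∀ t ∈ range t1, t ≠ t0 → ind (H t T) * ((B t).card : ℝ) = 0 := by
      intro t _ htt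
      by_cases hHt : H t T
      · by_cases hne' : (B t).Nonempty
        · exfalso
          rcases lt_or_gt_of_ne htt with h | h
          · exact hdead t hne' t0 h hH0
          · exact hdead t0 hne t h hHt
        · rw [not_nonempty_iff_eq_empty] at hne'
          rw [hne']; simp
      · rw [ind_false hHt, zero_mul]
    rw [sum_eq_single_of_mem t0 (mem_range.2 ht0) hzero, ind_true hH0, ind_true ⟨t0, ht0, hH0⟩,
      one_mul]
    have h1 := (hcard t0).trans (Nat.mul_le_mul_left 2 (hB1 t0))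
    exact_mod_cast h1
  · push Not at hex
    have : ∑ t ∈ range t1, ind (H t T) * ((B t).card : ℝ) = 0 := by
      refine sum_eq_zero fun t ht => ?_
      by_cases hHt : H t T
      · have := hex t (mem_range.1 ht) hHt
        rw [this]; simp
      · rw [ind_false hHt, zero_mul]
    rw [this]
    have := ind_nonneg (∃ t, t < t1 ∧ H t T)
    positivity

end

/-- step D -/
theorem KI_stepD {n M : ℕ} (hn : 0 < n) (hM : n ^ 5 ≤ M) :
    ∑ T : Lab n M, (coll T : ℝ) ≤ (M : ℝ) ^ Fintype.card (Sym2 (Fin n)) / n := by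
  have hM0 : 0 < M := lt_of_lt_of_le (by positivity) hM
  -- one pair of coordinates
  have h1 : ∀ p : Sym2 (Fin n) × Sym2 (Fin n), p.1 ≠ p.2 →
      ((univ : Finset (Lab n M)).filter (fun T => T p.1 = T p.2)).card * M ≤
        M ^ Fintype.card (Sym2 (Fin n)) := by
    intro p hp
    have h2 : (((univ : Finset (Lab n M)).filter (fun T => T p.1 = T p.2)) ×ˢ
        (univ : Finset (Fin M))).card ≤ (univ : Finset (Lab n M)).card := by
      refine card_le_card_of_injOn (fun q => Function.update q.1 p.1 q.2) (fun _ _ => mem_univ _) ?_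
      rintro ⟨T, x⟩ hT ⟨T', x'⟩ hT' heq
      simp only at heq
      simp only [coe_product, coe_filter, mem_univ, true_and, coe_univ, Set.mem_prod,
        Set.mem_ofPred_eq, Set.mem_univ, and_true] at hT hT'
      have hx : x = x' := by
        have := congrFun heq p.1
        simpa using this
      have hoff : ∀ e, e ≠ p.1 → T e = T' e := by
        intro e he
        have := congrFun heq e
        rwa [Function.update_of_ne he, Function.update_of_ne he] at this
      have hTT : T = T' := by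
        funext e
        by_cases he : e = p.1
        · rw [he, hT, hT']
          exact hoff _ hp.symm
        · exact hoff e he
      rw [hx, hTT]
    rw [card_product] at h2
    simpa using h2
  have h3 : ∑ T : Lab n M, (coll T : ℝ) = ∑ p : Sym2 (Fin n) × Sym2 (Fin n),
      (((univ : Finset (Lab n M)).filter (fun T => p.1 ≠ p.2 ∧ T p.1 = T p.2)).card : ℝ) := by
    have h4 : ∀ T : Lab n M, (coll T : ℝ) = ∑ p : Sym2 (Fin n) × Sym2 (Fin n),
        ind (p.1 ≠ p.2 ∧ T p.1 = T p.2) := fun T => by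
      unfold coll
      rw [KI_card]
    rw [sum_congr rfl fun T _ => h4 T, sum_comm]
    exact sum_congr rfl fun p _ => (KI_card _ _).symm
  rw [h3]
  have hM' : (0:ℝ) < M := by exact_mod_cast hM0
  have hn' : (0:ℝ) < n := by exact_mod_cast hn
  set N := Fintype.card (Sym2 (Fin n)) with hN
  have h5 : ∀ p : Sym2 (Fin n) × Sym2 (Fin n),
      (((univ : Finset (Lab n M)).filter (fun T => p.1 ≠ p.2 ∧ T p.1 = T p.2)).card : ℝ) ≤
        (M : ℝ) ^ N / M := by
    intro p
    by_cases hp : p.1 = p.2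
    · have : ((univ : Finset (Lab n M)).filter (fun T => p.1 ≠ p.2 ∧ T p.1 = T p.2)) = ∅ := by
        refine filter_eq_empty_iff.2 ?_
        intro T _ h
        exact h.1 hp
      rw [this]
      simp only [card_empty, Nat.cast_zero]
      positivity
    · rw [le_div_iff₀ hM']
      have h6 : ((univ : Finset (Lab n M)).filter (fun T => p.1 ≠ p.2 ∧ T p.1 = T p.2)).card ≤
          ((univ : Finset (Lab n M)).filter (fun T => T p.1 = T p.2)).card :=
        card_le_card (monotone_filter_right _ fun T _ h => h.2)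
      have h7 := (Nat.mul_le_mul_right M h6).trans (h1 p hp)
      exact_mod_cast h7
  have hNn : (N : ℝ) ≤ n ^ 2 := by
    have h8 : N ≤ n ^ 2 := by
      rw [hN, Sym2.card, Fintype.card_fin, Nat.choose_two_right]
      have : (n + 1) * (n + 1 - 1) ≤ n ^ 2 * 2 := by
        simp only [Nat.add_sub_cancel]
        nlinarith
      exact Nat.div_le_of_le_mul (by omega)
    exact_mod_cast h8
  calc ∑ p : Sym2 (Fin n) × Sym2 (Fin n),
      (((univ : Finset (Lab n M)).filter (fun T => p.1 ≠ p.2 ∧ T p.1 = T p.2)).card : ℝ)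
      ≤ ∑ _p : Sym2 (Fin n) × Sym2 (Fin n), (M : ℝ) ^ N / M := sum_le_sum fun p _ => h5 p
    _ = (N : ℝ) ^ 2 * ((M : ℝ) ^ N / M) := by
        rw [sum_const, card_univ, Fintype.card_prod, nsmul_eq_mul]
        push_cast
        ring
    _ ≤ ((n : ℝ) ^ 2) ^ 2 * ((M : ℝ) ^ N / M) := by
        apply mul_le_mul_of_nonneg_right _ (by positivity)
        exact pow_le_pow_left₀ (Nat.cast_nonneg _) hNn 2
    _ ≤ (M : ℝ) ^ N / n := by
        have h9 : (n : ℝ) ^ 5 ≤ M := by exact_mod_cast hM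
        rw [mul_div_assoc', div_le_div_iff₀ hM' hn']
        have h10 : 0 ≤ (M : ℝ) ^ N := by positivity
        calc ((n : ℝ) ^ 2) ^ 2 * (M : ℝ) ^ N * n = (n : ℝ) ^ 5 * (M : ℝ) ^ N := by ring
          _ ≤ M * (M : ℝ) ^ N := mul_le_mul_of_nonneg_right h9 h10
          _ = (M : ℝ) ^ N * M := by ring

/-- **The adapted kill sum bound.** -/
theorem KI_core {n M t1 : ℕ} (hn : 0 < n) (hM : n ^ 5 ≤ M) (ht1 : t1 ≤ M) {R : Set (Col n)}
    {S : Finset (Fin n)} {H : ℕ → Lab n M → Prop} (hH : Adapted H)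
    (hA : ∀ t T, H t T → Alive R S (op t T)) :
    ∑ t ∈ range t1, ∑ T : Lab n M, ind (H t T) * (X R S (op t T) : ℝ) ≤
      2 * M * (∑ T : Lab n M, ind (∃ t, t < t1 ∧ H t T) +
        (M : ℝ) ^ Fintype.card (Sym2 (Fin n)) / n) := by
  have hMnn : (0:ℝ) ≤ M := Nat.cast_nonneg _
  calc ∑ t ∈ range t1, ∑ T : Lab n M, ind (H t T) * (X R S (op t T) : ℝ)
      ≤ ∑ t ∈ range t1, (M : ℝ) * ∑ T : Lab n M, ind (H t T) *
        (((Xo R S (op t T)).filter (fun q => (T s(q.1, q.2) : ℕ) = t)).card : ℝ) :=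
        sum_le_sum fun t ht => KI_stepB hH hA (lt_of_lt_of_le (mem_range.1 ht) ht1)
    _ = M * ∑ T : Lab n M, ∑ t ∈ range t1, ind (H t T) *
        (((Xo R S (op t T)).filter (fun q => (T s(q.1, q.2) : ℕ) = t)).card : ℝ) := by
        rw [← mul_sum, sum_comm]
    _ ≤ M * ∑ T : Lab n M, 2 * (ind (∃ t, t < t1 ∧ H t T) + coll T) :=
        mul_le_mul_of_nonneg_left (sum_le_sum fun T _ => KI_stepC hA t1 T) hMnn
    _ = 2 * M * (∑ T : Lab n M, ind (∃ t, t < t1 ∧ H t T) + ∑ T : Lab n M, (coll T : ℝ)) := by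
        rw [← mul_sum, sum_add_distrib]
        ring
    _ ≤ _ := by
        apply mul_le_mul_of_nonneg_left _ (by positivity)
        have := KI_stepD hn hM
        linarith

/-- KI -/
theorem KI_thm (h1 : S_label) : S_kill := by
  intro n M t1 hn hM ht R S
  have hM0 : 0 < M := lt_of_lt_of_le (by positivity) hM
  have hM' : (0:ℝ) < M := by exact_mod_cast hM0
  have hn' : (1:ℝ) ≤ n := by exact_mod_cast hn
  set N := Fintype.card (Sym2 (Fin n)) with hN
  have hpos : (0:ℝ) < (M : ℝ) ^ N := by positivity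
  have hcore := KI_core hn hM (show t1 ≤ M by omega) (R := R) (S := S)
    (H := fun t (T : Lab n M) => Alive R S (op t T))
    (fun t T T' h hT => by
      change Alive R S (op t T')
      rw [← op_congr h]
      exact hT) (fun t T h => h)
  have h2 : ∀ t ∈ range t1, ∑ T : Lab n M, ind (Alive R S (op t T)) * (X R S (op t T) : ℝ) =
      (M : ℝ) ^ N * E ((t : ℝ) / M) (fun ω => ind (Alive R S ω) * (X R S ω : ℝ)) := by
    intro t htt
    exact h1 n M t hM0 (by have := mem_range.1 htt; omega)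
      (fun ω => ind (Alive R S ω) * (X R S ω : ℝ))
  rw [sum_congr rfl h2, ← mul_sum] at hcore
  have h3 : ∑ T : Lab n M, ind (∃ t, t < t1 ∧ Alive R S (op t T)) ≤ (M : ℝ) ^ N := by
    calc ∑ T : Lab n M, ind (∃ t, t < t1 ∧ Alive R S (op t T)) ≤ ∑ _T : Lab n M, (1:ℝ) :=
          sum_le_sum fun T _ => ind_le_one _
      _ = (M : ℝ) ^ N := by simp [hN]
  have h4 : (M : ℝ) ^ N / n ≤ (M : ℝ) ^ N := div_le_self hpos.le hn'
  have h5 : (M : ℝ) ^ N * ∑ t ∈ range t1,
      E ((t : ℝ) / M) (fun ω => ind (Alive R S ω) * (X R S ω : ℝ)) ≤ (M : ℝ) ^ N * (4 * M) := by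
    refine hcore.trans ?_
    calc 2 * M * (∑ T : Lab n M, ind (∃ t, t < t1 ∧ Alive R S (op t T)) + (M : ℝ) ^ N / n)
        ≤ 2 * M * ((M : ℝ) ^ N + (M : ℝ) ^ N) := by
          apply mul_le_mul_of_nonneg_left _ (by positivity)
          linarith
      _ = (M : ℝ) ^ N * (4 * M) := by ring
  exact le_of_mul_le_mul_left h5 hpos

end Pool.Agent.H624C
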