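import Pool.Agent.H624C.Basic

/-!
# Task KL: lower bound for the kill sum
-/

set_option autoImplicit false

namespace Pool.Agent.H624C

open Finset
open scoped Classical

noncomputable section

theorem kl_card_filter {ι : Type} (s : Finset ι) (P : ι → Prop) [DecidablePred P] :
    ((s.filter P).card : ℝ) = ∑ i ∈ s, ind (P i) := by
  rw [Finset.card_filter]
  push_cast
  refine Finset.sum_congr rfl fun i _ => ?_
  unfold ind
  by_cases h : P i <;> simp [h]

/-- changing the label of `e` among the values `≥ t` does not change the configuration -/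
theorem kl_op_update {n M : ℕ} (t : ℕ) (T : Lab n M) (e : Sym2 (Fin n)) (j : Fin M)
    (h1 : t ≤ (T e : ℕ)) (h2 : t ≤ (j : ℕ)) : op t (Function.update T e j) = op t T := by
  ext e'
  unfold op
  rw [Finset.mem_filter, Finset.mem_filter]
  by_cases h : e' = e
  · subst h
    rw [Function.update_self]
    constructor
    · rintro ⟨_, h3⟩; omega
    · rintro ⟨_, h3⟩; omega
  · rw [Function.update_of_ne h]

theorem kl_card_ge {M t : ℕ} (ht : t ≤ M) :
    ((Finset.univ : Finset (Fin M)).filter (fun j : Fin M => t ≤ (j : ℕ))).card = M - t := by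
  have h : ((Finset.univ : Finset (Fin M)).filter (fun j : Fin M => t ≤ (j : ℕ))).image Fin.val =
      Finset.Ico t M := by
    ext x
    simp only [Finset.mem_image, Finset.mem_filter, Finset.mem_univ, true_and, Finset.mem_Ico]
    constructor
    · rintro ⟨j, hj, rfl⟩
      exact ⟨hj, j.2⟩
    · rintro ⟨h1, h2⟩
      exact ⟨⟨x, h2⟩, h1, rfl⟩
  rw [← Finset.card_image_of_injective _ Fin.val_injective, h, Nat.card_Ico]

/-- the label of a fixed pair, given that it is at least `t`, is uniform -/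
theorem kl_count {n M t : ℕ} (ht : t ≤ M) (A : Om n → Prop) (e : Sym2 (Fin n)) :
    ((Finset.univ : Finset (Lab n M)).filter (fun T => A (op t T) ∧ (T e : ℕ) = t)).card * (M - t) ≤
      ((Finset.univ : Finset (Lab n M)).filter (fun T => A (op t T))).card := by
  have hc : ((Finset.univ : Finset (Lab n M)).filter
      (fun T => A (op t T) ∧ (T e : ℕ) = t)).card * (M - t) =
      (((Finset.univ : Finset (Lab n M)).filter (fun T => A (op t T) ∧ (T e : ℕ) = t)) ×ˢ
        ((Finset.univ : Finset (Fin M)).filter (fun j : Fin M => t ≤ (j : ℕ)))).card := by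
    rw [Finset.card_product, kl_card_ge ht]
  rw [hc]
  refine Finset.card_le_card_of_injOn
    (fun q : Lab n M × Fin M => (Function.update q.1 e q.2 : Lab n M)) ?_ ?_
  · intro q hq
    rw [Finset.mem_coe, Finset.mem_product, Finset.mem_filter, Finset.mem_filter] at hq
    rw [Finset.mem_coe, Finset.mem_filter]
    refine ⟨Finset.mem_univ _, ?_⟩
    rw [kl_op_update t q.1 e q.2 hq.1.2.2.ge hq.2.2]
    exact hq.1.2.1
  · intro q hq r hr h
    rw [Finset.mem_coe, Finset.mem_product, Finset.mem_filter, Finset.mem_filter] at hq hr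
    have h2 : q.2 = r.2 := by
      have := congrFun h e
      simpa using this
    refine Prod.ext ?_ h2
    funext e'
    by_cases he : e' = e
    · subst he
      exact Fin.ext (hq.1.2.2.trans hr.1.2.2.symm)
    · have := congrFun h e'
      simpa [Function.update_of_ne he] using this

/-- two given coordinates are equal with probability at most `1 / M` -/
theorem kl_eq_count {n M : ℕ} {e e' : Sym2 (Fin n)} (he : e ≠ e') :
    ((Finset.univ : Finset (Lab n M)).filter (fun T => T e = T e')).card * M ≤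
      M ^ Fintype.card (Sym2 (Fin n)) := by
  have h1 : M ^ Fintype.card (Sym2 (Fin n)) = (Finset.univ : Finset (Lab n M)).card := by
    rw [Finset.card_univ]
    simp
  have hc : ((Finset.univ : Finset (Lab n M)).filter (fun T => T e = T e')).card * M =
      (((Finset.univ : Finset (Lab n M)).filter (fun T => T e = T e')) ×ˢ
        (Finset.univ : Finset (Fin M))).card := by
    rw [Finset.card_product, Finset.card_univ, Fintype.card_fin]
  rw [h1, hc]
  refine Finset.card_le_card_of_injOn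
    (fun q : Lab n M × Fin M => (Function.update q.1 e' q.2 : Lab n M)) ?_ ?_
  · intro q _
    exact Finset.mem_coe.2 (Finset.mem_univ _)
  · intro q hq r hr h
    rw [Finset.mem_coe, Finset.mem_product, Finset.mem_filter] at hq hr
    have h2 : q.2 = r.2 := by
      have := congrFun h e'
      simpa using this
    have h3 : q.1 e = r.1 e := by
      have := congrFun h e
      simpa [Function.update_of_ne he] using this
    refine Prod.ext ?_ h2
    funext x
    by_cases hx : x = e'
    · subst hx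
      rw [← hq.1.2, ← hr.1.2, h3]
    · have := congrFun h x
      simpa [Function.update_of_ne hx] using this

/-- non-injective labellings are rare -/
theorem kl_inj {n M : ℕ} (hM : 0 < M) :
    (∑ T : Lab n M, ind (¬ Function.Injective T)) * M ≤
      (Fintype.card (Sym2 (Fin n)) : ℝ) ^ 2 * (M : ℝ) ^ Fintype.card (Sym2 (Fin n)) := by
  have h1 : ∀ T : Lab n M, ind (¬ Function.Injective T) ≤
      ∑ q ∈ (Finset.univ : Finset (Sym2 (Fin n))).offDiag, ind (T q.1 = T q.2) := by
    intro T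
    refine le_trans (ind_mono ?_) (ind_exists_le _ (fun q : Sym2 (Fin n) × Sym2 (Fin n) => T q.1 = T q.2))
    intro h
    unfold Function.Injective at h
    push Not at h
    obtain ⟨a, b, h2, h3⟩ := h
    exact ⟨(a, b), by simp [h3], h2⟩
  have h2 : ∑ T : Lab n M, ind (¬ Function.Injective T) ≤
      ∑ q ∈ (Finset.univ : Finset (Sym2 (Fin n))).offDiag, ∑ T : Lab n M, ind (T q.1 = T q.2) := by
    rw [Finset.sum_comm]
    exact Finset.sum_le_sum fun T _ => h1 T
  have h3 : ∀ q ∈ (Finset.univ : Finset (Sym2 (Fin n))).offDiag,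
      (∑ T : Lab n M, ind (T q.1 = T q.2)) * M ≤ (M : ℝ) ^ Fintype.card (Sym2 (Fin n)) := by
    intro q hq
    rw [Finset.mem_offDiag] at hq
    rw [← kl_card_filter]
    exact_mod_cast kl_eq_count (M := M) hq.2.2
  calc (∑ T : Lab n M, ind (¬ Function.Injective T)) * M
      ≤ (∑ q ∈ (Finset.univ : Finset (Sym2 (Fin n))).offDiag,
          ∑ T : Lab n M, ind (T q.1 = T q.2)) * M :=
        mul_le_mul_of_nonneg_right h2 (Nat.cast_nonneg _)
    _ = ∑ q ∈ (Finset.univ : Finset (Sym2 (Fin n))).offDiag,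
          (∑ T : Lab n M, ind (T q.1 = T q.2)) * M := by rw [Finset.sum_mul]
    _ ≤ ∑ q ∈ (Finset.univ : Finset (Sym2 (Fin n))).offDiag,
          (M : ℝ) ^ Fintype.card (Sym2 (Fin n)) := Finset.sum_le_sum h3
    _ = ((Finset.univ : Finset (Sym2 (Fin n))).offDiag.card : ℝ) *
          (M : ℝ) ^ Fintype.card (Sym2 (Fin n)) := by rw [Finset.sum_const, nsmul_eq_mul]
    _ ≤ (Fintype.card (Sym2 (Fin n)) : ℝ) ^ 2 * (M : ℝ) ^ Fintype.card (Sym2 (Fin n)) := by
        refine mul_le_mul_of_nonneg_right ?_ (by positivity)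
        rw [Finset.offDiag_card, Finset.card_univ, sq]
        exact_mod_cast Nat.sub_le _ _

/-- ordered killing pairs -/
def klK {n M : ℕ} (t : ℕ) (T : Lab n M) : ℕ :=
  ((Finset.univ : Finset (Fin n × Fin n)).filter (fun q => q.1 ≠ q.2 ∧
    Same Set.univ Finset.univ (op t T) q.1 q.2 ∧ (T s(q.1, q.2) : ℕ) = t)).card

/-- expectation of the number of killing pairs with label `t` -/
theorem kl_sum_K {n M t : ℕ} (ht : 2 * t ≤ M) (hM : 0 < M) :
    (M : ℝ) / 2 * ∑ T : Lab n M, ind (AliveU (op t T)) * (klK t T : ℝ) ≤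
      ∑ T : Lab n M, ind (AliveU (op t T)) * (X Set.univ Finset.univ (op t T) : ℝ) := by
  have hX : ∀ T : Lab n M, ind (AliveU (op t T)) * (X Set.univ Finset.univ (op t T) : ℝ) =
      ∑ q : Fin n × Fin n, ind (AliveU (op t T) ∧ (q.1 ≠ q.2 ∧
        Same Set.univ Finset.univ (op t T) q.1 q.2)) := by
    intro T
    unfold X
    rw [Finset.univ_product_univ, kl_card_filter, Finset.mul_sum]
    exact Finset.sum_congr rfl fun q _ => (ind_and _ _).symm
  have hK : ∀ T : Lab n M, ind (AliveU (op t T)) * (klK t T : ℝ) =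
      ∑ q : Fin n × Fin n, ind ((AliveU (op t T) ∧ (q.1 ≠ q.2 ∧
        Same Set.univ Finset.univ (op t T) q.1 q.2)) ∧ (T s(q.1, q.2) : ℕ) = t) := by
    intro T
    unfold klK
    rw [kl_card_filter, Finset.mul_sum]
    refine Finset.sum_congr rfl fun q _ => ?_
    rw [← ind_and]
    exact ind_congr (by tauto)
  simp_rw [hX, hK]
  rw [Finset.sum_comm, Finset.sum_comm (s := (Finset.univ : Finset (Lab n M))), Finset.mul_sum]
  refine Finset.sum_le_sum fun q _ => ?_
  rw [← kl_card_filter, ← kl_card_filter]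
  have h := kl_count (M := M) (t := t) (by omega) (fun ω => AliveU ω ∧ (q.1 ≠ q.2 ∧
        Same Set.univ Finset.univ ω q.1 q.2)) s(q.1, q.2)
  have h' : (((Finset.univ : Finset (Lab n M)).filter (fun T => (AliveU (op t T) ∧ (q.1 ≠ q.2 ∧
        Same Set.univ Finset.univ (op t T) q.1 q.2)) ∧ (T s(q.1, q.2) : ℕ) = t)).card : ℝ) *
      ((M - t : ℕ) : ℝ) ≤ (((Finset.univ : Finset (Lab n M)).filter (fun T => AliveU (op t T) ∧
        (q.1 ≠ q.2 ∧ Same Set.univ Finset.univ (op t T) q.1 q.2))).card : ℝ) := by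
    exact_mod_cast h
  refine le_trans ?_ h'
  rw [mul_comm]
  refine mul_le_mul_of_nonneg_left ?_ (Nat.cast_nonneg _)
  rw [Nat.cast_sub (by omega)]
  have : (2 : ℝ) * t ≤ M := by exact_mod_cast ht
  linarith

/-- the configuration at time `t + 1` -/
theorem kl_mem_op {n M : ℕ} (t : ℕ) (T : Lab n M) (e : Sym2 (Fin n)) :
    e ∈ op t T ↔ (T e : ℕ) < t := by
  unfold op
  simp

/-- the last edge is a killing pair -/
theorem kl_kill {n M : ℕ} {t0 t1 : ℕ} (h01 : t0 ≤ t1) (T : Lab n M) :
    2 * ind (AliveU (op t0 T) ∧ ¬ AliveU (op t1 T) ∧ Function.Injective T) ≤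
      ∑ t ∈ Ico t0 t1, ind (AliveU (op t T)) * (klK t T : ℝ) := by
  by_cases h : AliveU (op t0 T) ∧ ¬ AliveU (op t1 T) ∧ Function.Injective T
  swap
  · rw [ind_false h, mul_zero]
    exact Finset.sum_nonneg fun t _ => mul_nonneg (ind_nonneg _) (Nat.cast_nonneg _)
  · rw [ind_true h]
    obtain ⟨ha, hd, hinj⟩ := h
    have hex : ∃ t, t0 ≤ t ∧ t < t1 ∧ AliveU (op t T) ∧ ¬ AliveU (op (t + 1) T) := by
      by_contra hc
      push Not at hc
      have : ∀ s, t0 + s ≤ t1 → AliveU (op (t0 + s) T) := by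
        intro s
        induction s with
        | zero => intro _; exact ha
        | succ s ih =>
          intro hs
          exact hc (t0 + s) (by omega) (by omega) (ih (by omega))
      have h1 := this (t1 - t0) (by omega)
      rw [show t0 + (t1 - t0) = t1 by omega] at h1
      exact hd h1
    obtain ⟨t, h1, h2, h3, h4⟩ := hex
    refine le_trans ?_ (Finset.single_le_sum
      (f := fun t => ind (AliveU (op t T)) * (klK t T : ℝ))
      (fun t _ => mul_nonneg (ind_nonneg _) (Nat.cast_nonneg _)) (Finset.mem_Ico.2 ⟨h1, h2⟩))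
    rw [ind_true h3, one_mul, mul_one]
    -- every solution is destroyed by a pair with label `t`
    have hkey : ∀ σ ∈ Sol Set.univ Finset.univ (op t T), ∃ a b : Fin n, a ≠ b ∧
        (T s(a, b) : ℕ) = t ∧ σ a = σ b := by
      intro σ hσ
      have h5 : ¬ Proper (op (t + 1) T) Finset.univ σ := fun h => h4 ⟨σ, h, Set.mem_univ _⟩
      unfold Proper at h5
      push Not at h5
      obtain ⟨a, _, b, _, hab, hm, hs⟩ := h5
      refine ⟨a, b, hab, ?_, hs⟩
      have h6 : s(a, b) ∉ op t T := fun h => hσ.1 a (Finset.mem_univ _) b (Finset.mem_univ _) hab h hs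
      rw [kl_mem_op] at hm h6
      omega
    obtain ⟨σ0, hσ0⟩ := h3
    obtain ⟨a, b, hab, hT, _⟩ := hkey σ0 hσ0
    have hsame : ∀ σ ∈ Sol Set.univ Finset.univ (op t T), σ a = σ b := by
      intro σ hσ
      obtain ⟨c, d, _, hT', hs⟩ := hkey σ hσ
      have h7 : s(c, d) = s(a, b) := hinj (Fin.ext (hT'.trans hT.symm))
      rw [Sym2.eq_iff] at h7
      rcases h7 with ⟨rfl, rfl⟩ | ⟨rfl, rfl⟩
      · exact hs
      · exact hs.symm
    have h8 : 2 ≤ klK t T := by
      unfold klK
      have hsub : ({(a, b), (b, a)} : Finset (Fin n × Fin n)) ⊆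
          (Finset.univ : Finset (Fin n × Fin n)).filter (fun q => q.1 ≠ q.2 ∧
            Same Set.univ Finset.univ (op t T) q.1 q.2 ∧ (T s(q.1, q.2) : ℕ) = t) := by
        intro q hq
        rw [Finset.mem_insert, Finset.mem_singleton] at hq
        rw [Finset.mem_filter]
        refine ⟨Finset.mem_univ _, ?_⟩
        rcases hq with rfl | rfl
        · exact ⟨hab, hsame, hT⟩
        · refine ⟨hab.symm, fun σ hσ => (hsame σ hσ).symm, ?_⟩
          rw [Sym2.eq_swap]
          exact hT
      refine le_trans (le_of_eq ?_) (Finset.card_le_card hsub)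
      rw [Finset.card_pair]
      intro h
      exact hab (Prod.ext_iff.1 h).1
    exact_mod_cast h8

theorem KL_thm (hl : S_label) : S_killlow := by
  intro n M t0 t1 hn hM ht1 h01 h0 h1
  have hMpos : 0 < M := lt_of_lt_of_le (by positivity) hM
  have hMR : (0 : ℝ) < M := by exact_mod_cast hMpos
  set I := Fintype.card (Sym2 (Fin n)) with hI
  have hP : (0 : ℝ) < (M : ℝ) ^ I := by positivity
  -- the size of the coordinate set
  have hI2 : 16 * (I : ℝ) ^ 2 ≤ M := by
    have e1 : I * 2 = (n + 1) * n := by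
      rw [hI, Sym2.card, Fintype.card_fin, Nat.choose_two_right, Nat.add_sub_cancel]
      exact Nat.div_mul_cancel (by
        rw [mul_comm]
        exact (Nat.even_mul_succ_self n).two_dvd)
    have e2 : 16 * I ^ 2 ≤ n ^ 5 := by
      have e3 : 16 * I ^ 2 = 4 * ((n + 1) * n) ^ 2 := by rw [← e1]; ring
      rw [e3]
      have e4 : 4 * (n + 1) ^ 2 ≤ n ^ 3 := by nlinarith [Nat.mul_le_mul hn hn]
      calc 4 * ((n + 1) * n) ^ 2 = 4 * (n + 1) ^ 2 * n ^ 2 := by ring
        _ ≤ n ^ 3 * n ^ 2 := Nat.mul_le_mul_right _ e4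
        _ = n ^ 5 := by ring
    exact_mod_cast e2.trans hM
  -- non-injective labels
  have hinj : ∑ T : Lab n M, ind (¬ Function.Injective T) ≤ (M : ℝ) ^ I / 16 := by
    have h := kl_inj (n := n) hMpos
    rw [← hI] at h
    rw [le_div_iff₀ (by norm_num)]
    have h' : (∑ T : Lab n M, ind (¬ Function.Injective T)) * 16 * M ≤ (M : ℝ) ^ I * M := by
      calc (∑ T : Lab n M, ind (¬ Function.Injective T)) * 16 * M
          = 16 * ((∑ T : Lab n M, ind (¬ Function.Injective T)) * M) := by ring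
        _ ≤ 16 * ((I : ℝ) ^ 2 * (M : ℝ) ^ I) := by linarith
        _ = (M : ℝ) ^ I * (16 * (I : ℝ) ^ 2) := by ring
        _ ≤ (M : ℝ) ^ I * M := mul_le_mul_of_nonneg_left hI2 hP.le
    exact le_of_mul_le_mul_right h' hMR
  have hA0 : ∑ T : Lab n M, ind (AliveU (op t0 T)) ≥ 3 / 4 * (M : ℝ) ^ I := by
    rw [hl n M t0 hMpos (by omega) (fun ω => ind (AliveU ω)), ← hI]
    nlinarith
  have hA1 : ∑ T : Lab n M, ind (AliveU (op t1 T)) ≤ 1 / 8 * (M : ℝ) ^ I := by
    rw [hl n M t1 hMpos (by omega) (fun ω => ind (AliveU ω)), ← hI]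
    nlinarith
  have hlow : 9 / 16 * (M : ℝ) ^ I ≤
      ∑ T : Lab n M, ind (AliveU (op t0 T) ∧ ¬ AliveU (op t1 T) ∧ Function.Injective T) := by
    have hpt : ∀ T : Lab n M, ind (AliveU (op t0 T)) - ind (AliveU (op t1 T)) -
        ind (¬ Function.Injective T) ≤
        ind (AliveU (op t0 T) ∧ ¬ AliveU (op t1 T) ∧ Function.Injective T) := by
      intro T
      by_cases a1 : AliveU (op t0 T) <;> by_cases a2 : AliveU (op t1 T) <;>
        by_cases a3 : Function.Injective T <;> simp [ind, a1, a2, a3]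
    have := Finset.sum_le_sum fun (T : Lab n M) (_ : T ∈ Finset.univ) => hpt T
    rw [Finset.sum_sub_distrib, Finset.sum_sub_distrib] at this
    linarith
  have hmain : 2 * (9 / 16 * (M : ℝ) ^ I) ≤
      ∑ t ∈ Ico t0 t1, ∑ T : Lab n M, ind (AliveU (op t T)) * (klK t T : ℝ) := by
    rw [Finset.sum_comm]
    calc 2 * (9 / 16 * (M : ℝ) ^ I) ≤
        2 * ∑ T : Lab n M, ind (AliveU (op t0 T) ∧ ¬ AliveU (op t1 T) ∧ Function.Injective T) := by
          linarith
      _ = ∑ T : Lab n M,
          2 * ind (AliveU (op t0 T) ∧ ¬ AliveU (op t1 T) ∧ Function.Injective T) := by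
          rw [Finset.mul_sum]
      _ ≤ _ := Finset.sum_le_sum fun T _ => kl_kill h01 T
  have hstep : ∀ t ∈ Ico t0 t1,
      (M : ℝ) / 2 * ∑ T : Lab n M, ind (AliveU (op t T)) * (klK t T : ℝ) ≤
        (M : ℝ) ^ I * E ((t : ℝ) / M) (fun ω : Om n => ind (AliveU ω) *
          (X Set.univ Finset.univ ω : ℝ)) := by
    intro t ht
    rw [Finset.mem_Ico] at ht
    rw [hI, ← hl n M t hMpos (by omega) (fun ω => ind (AliveU ω) *
          (X Set.univ Finset.univ ω : ℝ))]
    exact kl_sum_K (by omega) hMpos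
  have hfin : (M : ℝ) / 2 * (2 * (9 / 16 * (M : ℝ) ^ I)) ≤ (M : ℝ) ^ I * ∑ t ∈ Ico t0 t1,
      E ((t : ℝ) / M) (fun ω : Om n => ind (AliveU ω) * (X Set.univ Finset.univ ω : ℝ)) := by
    calc (M : ℝ) / 2 * (2 * (9 / 16 * (M : ℝ) ^ I)) ≤ (M : ℝ) / 2 *
        ∑ t ∈ Ico t0 t1, ∑ T : Lab n M, ind (AliveU (op t T)) * (klK t T : ℝ) :=
          mul_le_mul_of_nonneg_left hmain (by positivity)
      _ = ∑ t ∈ Ico t0 t1, (M : ℝ) / 2 *
          ∑ T : Lab n M, ind (AliveU (op t T)) * (klK t T : ℝ) := by rw [Finset.mul_sum]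
      _ ≤ ∑ t ∈ Ico t0 t1, (M : ℝ) ^ I * E ((t : ℝ) / M) (fun ω : Om n => ind (AliveU ω) *
          (X Set.univ Finset.univ ω : ℝ)) := Finset.sum_le_sum hstep
      _ = _ := by rw [Finset.mul_sum]
  have hfin2 : (M : ℝ) ^ I * ((M : ℝ) / 2) ≤ (M : ℝ) ^ I * ∑ t ∈ Ico t0 t1,
      E ((t : ℝ) / M) (fun ω : Om n => ind (AliveU ω) * (X Set.univ Finset.univ ω : ℝ)) := by
    refine le_trans ?_ hfin
    have : (0 : ℝ) ≤ (M : ℝ) ^ I * M := by positivity
    nlinarith
  exact le_of_mul_le_mul_left hfin2 hP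

end

end Pool.Agent.H624C
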