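import Pool.Agent.H624C.Basic

/-!
# Final assembly
-/

set_option autoImplicit false

namespace Pool.Agent.H624C

open Finset
open scoped Classical

/-- graph version of `Bad3` -/
def BG {n : ℕ} (H : SimpleGraph (Fin n)) : Prop :=
  H.Colorable 3 ∧
  ∃ L : Fin n → Finset ℕ, (∀ v, (L v).card = 3) ∧
    ¬ ∃ f : Fin n → ℕ, (∀ v, f v ∈ L v) ∧ ∀ u v, H.Adj u v → f u ≠ f v

/-- combined statement for one `l` -/
def QQ (c ε Λ : ℝ) (l : ℕ) (a : ℝ) (N : ℕ) : Prop :=
  ∀ n ≥ N,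
    (∀ m : ℕ, m + Fintype.card (Rt (l + 1)) = n →
      ∀ p : ℝ, 0 ≤ p → ε ≤ p * n → p * n ≤ Λ → p ≤ 1 →
      ∀ (n' : ℕ) (S : Finset (Fin n')), S.card = m →
        a * E p (fun ω : Om n' => ind (Good l c S ω)) ≤
          E p (fun ω : Om n => ind (∃ ρ, Ev l c ω ρ))) ∧
    (∀ (ω : Om n) (ρ : Rt (l + 1) → Fin n), Ev l c ω ρ →
      Bad3 ω ∧ AliveU ω ∧ a * (n : ℝ) ^ 2 ≤ (X Set.univ Finset.univ ω : ℝ))

theorem QQ_mono {c ε Λ : ℝ} {l : ℕ} {a a' : ℝ} {N N' : ℕ} (h : QQ c ε Λ l a N) (ha : a' ≤ a)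
    (hN : N ≤ N') : QQ c ε Λ l a' N' := by
  intro n hn
  obtain ⟨h1, h2⟩ := h n (le_trans hN hn)
  refine ⟨?_, ?_⟩
  · intro m hm p hp0 hp1 hp2 hp3 n' S hS
    refine le_trans (mul_le_mul_of_nonneg_right ha ?_) (h1 m hm p hp0 hp1 hp2 hp3 n' S hS)
    exact E_nonneg hp0 hp3 (fun _ => ind_nonneg _)
  · intro ω ρ hE
    obtain ⟨h3, h4, h5⟩ := h2 ω ρ hE
    refine ⟨h3, h4, le_trans (mul_le_mul_of_nonneg_right ha (by positivity)) h5⟩

theorem QQ_all (hplant : S_plant) (hgadget : S_gadget) (c ε Λ : ℝ) (hc : 0 < c) (hε : 0 < ε)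
    (hΛ : 0 < Λ) (D : ℕ) : ∃ (a : ℝ) (N : ℕ), 0 < a ∧ ∀ l ≤ D, QQ c ε Λ l a N := by
  have one : ∀ l : ℕ, ∃ (a : ℝ) (N : ℕ), 0 < a ∧ QQ c ε Λ l a N := by
    intro l
    obtain ⟨c6, n1, hc6, h1⟩ := hplant l c ε Λ hc hε hΛ
    obtain ⟨δ, n2, hδ, h2⟩ := hgadget l c hc
    refine ⟨min c6 δ, max n1 n2, lt_min hc6 hδ, ?_⟩
    intro n hn
    refine ⟨?_, ?_⟩
    · intro m hm p hp0 hp1 hp2 hp3 n' S hS
      refine le_trans (mul_le_mul_of_nonneg_right (min_le_left _ _) ?_)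
        (h1 n (le_trans (le_max_left _ _) hn) m hm p hp0 hp1 hp2 n' S hS)
      exact E_nonneg hp0 hp3 (fun _ => ind_nonneg _)
    · intro ω ρ hE
      obtain ⟨h3, h4, h5⟩ := h2 n (le_trans (le_max_right _ _) hn) ω ρ hE
      exact ⟨h3, h4, le_trans (mul_le_mul_of_nonneg_right (min_le_right _ _) (by positivity)) h5⟩
  induction D with
  | zero =>
    obtain ⟨a, N, ha, h⟩ := one 0
    refine ⟨a, N, ha, ?_⟩
    intro l hl
    rw [Nat.le_zero.mp hl]; exact h
  | succ D ih =>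
    obtain ⟨a, N, ha, h⟩ := ih
    obtain ⟨a', N', ha', h'⟩ := one (D + 1)
    refine ⟨min a a', max N N', lt_min ha ha', ?_⟩
    intro l hl
    rcases Nat.lt_or_ge l (D + 1) with h3 | h3
    · exact QQ_mono (h l (by omega)) (min_le_left _ _) (le_max_left _ _)
    · have : l = D + 1 := by omega
      rw [this]; exact QQ_mono h' (min_le_right _ _) (le_max_right _ _)

theorem card_Rt (N : ℕ) : Fintype.card (Rt N) = N * (N * 3) + 1 := by
  simp [Rt, Fintype.card_option, Fintype.card_prod, Fintype.card_fin]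

/-- infinitely many `n` with a bad stage with probability at least `γ` -/
theorem label_bad (hgood : S_good) (hplant : S_plant) (hgadget : S_gadget) (hvisit : S_visit) :
    ∃ γ : ℝ, 0 < γ ∧ ∀ N0 : ℕ, ∃ n ≥ N0, ∃ M : ℕ, 0 < M ∧
      γ ≤ (∑ T : Lab n M, ind (∃ t : ℕ, Bad3 (op t T))) /
        (M : ℝ) ^ Fintype.card (Sym2 (Fin n)) := by
  obtain ⟨ε, Λ, c, c', D, n0, hε, hεΛ, hc, hc', hg⟩ := hgood
  have hΛ : 0 < Λ := hε.trans hεΛ
  obtain ⟨a, N, ha, hQ⟩ := QQ_all hplant hgadget c ε (2 * Λ) hc hε (by positivity) D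
  refine ⟨a / 8 * (a * c'), by positivity, ?_⟩
  intro N0
  set C := Fintype.card (Rt (D + 1)) with hC
  obtain ⟨K1, hK1⟩ := exists_nat_ge (2 * Λ)
  obtain ⟨K2, hK2⟩ := exists_nat_ge (1 / (a / 8 * (a * c')))
  set n1 := n0 + N + N0 + C + K1 + K2 + 1 with hn1
  set M := (n1 + C) ^ 5 with hM
  have hn1pos : 0 < n1 := by omega
  have hMpos : 0 < M := by positivity
  have hMge : M ≥ n1 ^ 5 := Nat.pow_le_pow_left (by omega) 5
  obtain ⟨v0, l, hl2, hlD, hsum⟩ := hg n1 (by omega) M hMge _ _ rfl rfl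
  set t0 := ⌈ε * M / n1⌉₊ with ht0
  set t1 := ⌊Λ * M / n1⌋₊ with ht1
  set m := n1 - 1 with hm
  set n := m + Fintype.card (Rt (l + 1)) with hn
  have hcl : Fintype.card (Rt (l + 1)) ≤ C := by
    rw [hC, card_Rt, card_Rt]
    have h1 : l + 1 ≤ D + 1 := by omega
    have := Nat.mul_le_mul h1 (Nat.mul_le_mul_right 3 h1)
    omega
  have hcl1 : 1 ≤ Fintype.card (Rt (l + 1)) := by rw [card_Rt]; omega
  have hnn1 : n1 ≤ n := by omega
  have hnn2 : n ≤ n1 + C := by omega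
  have hnM : n ^ 5 ≤ M := Nat.pow_le_pow_left hnn2 5
  have hMR : (0 : ℝ) < M := by exact_mod_cast hMpos
  have hn1R : (0 : ℝ) < n1 := by exact_mod_cast hn1pos
  have hK1' : (K1 : ℝ) ≤ n1 := by exact_mod_cast (by omega : K1 ≤ n1)
  have hK2' : (K2 : ℝ) ≤ n1 := by exact_mod_cast (by omega : K2 ≤ n1)
  have hΛn : 2 * Λ ≤ n1 := hK1.trans hK1'
  have ht1R : (t1 : ℝ) ≤ Λ * M / n1 := Nat.floor_le (by positivity)
  have ht1M : 2 * t1 ≤ M := by
    have h1 : (2 * t1 : ℝ) ≤ M := by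
      have h2 : Λ * M / n1 ≤ M / 2 := by
        rw [div_le_div_iff₀ hn1R (by norm_num)]
        nlinarith
      linarith
    exact_mod_cast h1
  obtain ⟨hq1, hq2⟩ := hQ l hlD n (by omega)
  have hcard : (univ.erase v0 : Finset (Fin n1)).card = m := by
    rw [card_erase_of_mem (mem_univ _), card_univ, Fintype.card_fin]
  -- bound for every `t`
  have hrange : ∀ t ∈ Ico t0 t1, (0 : ℝ) ≤ (t : ℝ) / M ∧ (t : ℝ) / M ≤ 1 ∧
      a * E ((t : ℝ) / M) (fun ω : Om n1 => ind (Good l c (univ.erase v0) ω)) ≤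
        E ((t : ℝ) / M) (fun ω : Om n => ind (∃ ρ, Ev l c ω ρ)) := by
    intro t ht
    rw [mem_Ico] at ht
    have h0 : (0 : ℝ) ≤ (t : ℝ) / M := by positivity
    have htt1 : (t : ℝ) ≤ t1 := by exact_mod_cast ht.2.le
    have htt0 : (t0 : ℝ) ≤ t := by exact_mod_cast ht.1
    have ht0R : ε * M / n1 ≤ t0 := Nat.le_ceil _
    have h1 : (t : ℝ) / M ≤ 1 := by
      rw [div_le_one hMR]
      have : (2 * t1 : ℝ) ≤ M := by exact_mod_cast ht1M
      have h3 : (0 : ℝ) ≤ t1 := by positivity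
      linarith
    have hp_lo : ε / n1 ≤ (t : ℝ) / M := by
      rw [div_le_div_iff₀ hn1R hMR]
      have h3 : ε * M / n1 ≤ t := ht0R.trans htt0
      rw [div_le_iff₀ hn1R] at h3
      linarith
    have hp_hi : (t : ℝ) / M ≤ Λ / n1 := by
      rw [div_le_div_iff₀ hMR hn1R]
      have h3 : (t : ℝ) ≤ Λ * M / n1 := htt1.trans ht1R
      rw [le_div_iff₀ hn1R] at h3
      linarith
    have hnR1 : (n1 : ℝ) ≤ n := by exact_mod_cast hnn1
    have hnR2 : (n : ℝ) ≤ 2 * n1 := by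
      have : n ≤ 2 * n1 := by omega
      exact_mod_cast this
    refine ⟨h0, h1, ?_⟩
    refine hq1 m rfl _ h0 ?_ ?_ h1 n1 _ hcard
    · calc ε = ε / n1 * n1 := by field_simp
        _ ≤ (t : ℝ) / M * n := mul_le_mul hp_lo hnR1 hn1R.le h0
    · calc (t : ℝ) / M * n ≤ Λ / n1 * (2 * n1) :=
            mul_le_mul hp_hi hnR2 (by positivity) (by positivity)
        _ = 2 * Λ := by field_simp
  have hnpos : 0 < n := by omega
  have hnR : (0 : ℝ) < n := by exact_mod_cast hnpos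
  have hvis := hvisit n M t1 a (fun ω => ∃ ρ, Ev l c ω ρ) hnpos hnM ht1M ha
    (by
      rintro ω ⟨ρ, hρ⟩
      exact (hq2 ω ρ hρ).2)
  -- the time sum
  have hS1 : a * (∑ t ∈ Ico t0 t1, E ((t : ℝ) / M)
      (fun ω : Om n1 => ind (Good l c (univ.erase v0) ω))) ≤
      ∑ t ∈ range t1, E ((t : ℝ) / M) (fun ω : Om n => ind (∃ ρ, Ev l c ω ρ)) := by
    rw [mul_sum]
    calc ∑ t ∈ Ico t0 t1, a * E ((t : ℝ) / M)
          (fun ω : Om n1 => ind (Good l c (univ.erase v0) ω))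
        ≤ ∑ t ∈ Ico t0 t1, E ((t : ℝ) / M) (fun ω : Om n => ind (∃ ρ, Ev l c ω ρ)) :=
          sum_le_sum (fun t ht => (hrange t ht).2.2)
      _ ≤ ∑ t ∈ range t1, E ((t : ℝ) / M) (fun ω : Om n => ind (∃ ρ, Ev l c ω ρ)) := by
          refine sum_le_sum_of_subset_of_nonneg ?_ ?_
          · intro t ht
            rw [mem_Ico] at ht
            exact mem_range.2 ht.2
          · intro t ht _
            rw [mem_range] at ht
            have h0 : (0 : ℝ) ≤ (t : ℝ) / M := by positivity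
            have h1 : (t : ℝ) / M ≤ 1 := by
              rw [div_le_one hMR]
              exact_mod_cast (by omega : t ≤ M)
            exact E_nonneg h0 h1 (fun _ => ind_nonneg _)
  set SS1 := ∑ t ∈ Ico t0 t1, E ((t : ℝ) / M)
      (fun ω : Om n1 => ind (Good l c (univ.erase v0) ω)) with hSS1
  set SS2 := ∑ t ∈ range t1, E ((t : ℝ) / M) (fun ω : Om n => ind (∃ ρ, Ev l c ω ρ)) with hSS2
  have hnn1R : (n1 : ℝ) ≤ n := by exact_mod_cast hnn1
  have hSS1nn : 0 ≤ SS1 := by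
    have h3 : (0 : ℝ) < (n1 : ℝ) ^ 2 := by positivity
    have h4 : 0 ≤ (n1 : ℝ) ^ 2 * SS1 := le_trans (by positivity) hsum
    exact nonneg_of_mul_nonneg_right h4 h3
  have hS2 : a * c' ≤ (n : ℝ) ^ 2 / M * SS2 := by
    have h1 : a * (c' * M) ≤ a * ((n : ℝ) ^ 2 * SS1) := by
      refine mul_le_mul_of_nonneg_left ?_ ha.le
      refine hsum.trans (mul_le_mul_of_nonneg_right ?_ hSS1nn)
      exact pow_le_pow_left₀ hn1R.le hnn1R 2
    have h2 : a * ((n : ℝ) ^ 2 * SS1) ≤ (n : ℝ) ^ 2 * SS2 := by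
      calc a * ((n : ℝ) ^ 2 * SS1) = (n : ℝ) ^ 2 * (a * SS1) := by ring
        _ ≤ (n : ℝ) ^ 2 * SS2 := mul_le_mul_of_nonneg_left hS1 (by positivity)
    calc a * c' = a * (c' * M) / M := by field_simp
      _ ≤ ((n : ℝ) ^ 2 * SS2) / M := div_le_div_of_nonneg_right (h1.trans h2) hMR.le
      _ = (n : ℝ) ^ 2 / M * SS2 := by ring
  refine ⟨n, by omega, M, hMpos, ?_⟩
  have hden : (0 : ℝ) < (M : ℝ) ^ Fintype.card (Sym2 (Fin n)) := by positivity
  have hfin : (∑ T : Lab n M, ind (∃ t, t < t1 ∧ ∃ ρ, Ev l c (op t T) ρ)) /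
        (M : ℝ) ^ Fintype.card (Sym2 (Fin n)) ≤
      (∑ T : Lab n M, ind (∃ t : ℕ, Bad3 (op t T))) /
        (M : ℝ) ^ Fintype.card (Sym2 (Fin n)) := by
    refine div_le_div_of_nonneg_right (sum_le_sum (fun T _ => ind_mono ?_)) hden.le
    rintro ⟨t, _, ρ, hρ⟩
    exact ⟨t, (hq2 _ ρ hρ).1⟩
  refine le_trans ?_ (hvis.trans hfin)
  have hinv : 1 / (n : ℝ) ≤ a / 8 * (a * c') := by
    have hpos : 0 < a / 8 * (a * c') := by positivity
    have h1 : 1 / (a / 8 * (a * c')) ≤ n := hK2.trans (hK2'.trans hnn1R)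
    rw [div_le_iff₀ hpos] at h1
    rw [div_le_iff₀ hnR]
    linarith
  have hmain : a / 4 * (a * c') ≤ a / 4 * ((n : ℝ) ^ 2 / M) * SS2 := by
    rw [mul_assoc]
    exact mul_le_mul_of_nonneg_left hS2 (by positivity)
  have : a / 8 * (a * c') = a / 4 * (a * c') - a / 8 * (a * c') := by ring
  rw [this]
  linarith

/-- the negation of the list-colouring hitting time statement -/
theorem main_of (hgood : S_good) (hplant : S_plant) (hgadget : S_gadget) (hvisit : S_visit)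
    (htransfer : S_transfer) :
    ¬ (∀ k : ℕ, 3 ≤ k →
      Filter.Tendsto
        (fun n : ℕ =>
          (Nat.card
              {σ : Fin (Nat.card (⊤ : SimpleGraph (Fin n)).edgeSet) ≃ (⊤ : SimpleGraph (Fin n)).edgeSet //
                ∀ m : ℕ, ∀ G : SimpleGraph (Fin n),
                  G = SimpleGraph.fromEdgeSet
                      {e : Sym2 (Fin n) |
                        ∃ i : Fin (Nat.card (⊤ : SimpleGraph (Fin n)).edgeSet),
                          (i : ℕ) < m ∧ (σ i).val = e} →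
                  G.Colorable k →
                  ∀ L : Fin n → Finset ℕ, (∀ v, (L v).card = k) →
                    ∃ f : Fin n → ℕ, (∀ v, f v ∈ L v) ∧ ∀ u v, G.Adj u v → f u ≠ f v} : ℝ) /
            (Nat.card
              (Fin (Nat.card (⊤ : SimpleGraph (Fin n)).edgeSet) ≃ (⊤ : SimpleGraph (Fin n)).edgeSet) : ℝ))
        Filter.atTop (nhds 1)) := by
  intro hall
  have h3 := hall 3 le_rfl
  obtain ⟨γ, hγ, hb⟩ := label_bad hgood hplant hgadget hvisit
  have hev := h3.eventually (lt_mem_nhds (show 1 - γ < 1 by linarith))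
  rw [Filter.eventually_atTop] at hev
  obtain ⟨N0, hN0⟩ := hev
  obtain ⟨n, hn, M, hM, hbad⟩ := hb N0
  have h1 := hN0 n hn
  have h2 := htransfer n M hM (fun H => BG H)
  have h4 : γ ≤ (Nat.card {σ : Fin (Nat.card (⊤ : SimpleGraph (Fin n)).edgeSet) ≃
        (⊤ : SimpleGraph (Fin n)).edgeSet // ∃ m : ℕ, BG (Stage σ m)} : ℝ) /
      (Nat.card (Fin (Nat.card (⊤ : SimpleGraph (Fin n)).edgeSet) ≃
        (⊤ : SimpleGraph (Fin n)).edgeSet) : ℝ) := hbad.trans h2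
  -- the two sets are disjoint
  set Ord := (Fin (Nat.card (⊤ : SimpleGraph (Fin n)).edgeSet) ≃
        (⊤ : SimpleGraph (Fin n)).edgeSet) with hOrd
  have hOpos : (0 : ℝ) < (Nat.card Ord : ℝ) := by
    have : 0 < Nat.card Ord := by
      have : Nonempty Ord := ⟨(Finite.equivFin _).symm⟩
      exact Nat.card_pos
    exact_mod_cast this
  set P1 : Ord → Prop := fun σ => ∀ m : ℕ, ∀ G : SimpleGraph (Fin n),
                  G = SimpleGraph.fromEdgeSet
                      {e : Sym2 (Fin n) |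
                        ∃ i : Fin (Nat.card (⊤ : SimpleGraph (Fin n)).edgeSet),
                          (i : ℕ) < m ∧ (σ i).val = e} →
                  G.Colorable 3 →
                  ∀ L : Fin n → Finset ℕ, (∀ v, (L v).card = 3) →
                    ∃ f : Fin n → ℕ, (∀ v, f v ∈ L v) ∧ ∀ u v, G.Adj u v → f u ≠ f v with hP1
  set P2 : Ord → Prop := fun σ => ∃ m : ℕ, BG (Stage σ m) with hP2
  have hdisj : ∀ σ, P2 σ → ¬ P1 σ := by
    rintro σ ⟨m, hcol, L, hL, hno⟩ hp1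
    exact hno (hp1 m (Stage σ m) rfl hcol L hL)
  have hcount : Nat.card {σ // P1 σ} + Nat.card {σ // P2 σ} ≤ Nat.card Ord := by
    have e1 : Nat.card {σ // P1 σ} = (univ.filter P1).card := by
      rw [Nat.card_eq_fintype_card, Fintype.card_subtype]
    have e2 : Nat.card {σ // P2 σ} = (univ.filter P2).card := by
      rw [Nat.card_eq_fintype_card, Fintype.card_subtype]
    have e3 : Nat.card Ord = (univ : Finset Ord).card := by
      rw [Nat.card_eq_fintype_card, card_univ]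
    rw [e1, e2, e3, ← card_union_of_disjoint]
    · exact card_le_card (subset_univ _)
    · rw [disjoint_filter]
      intro σ _ hp1 hp2
      exact hdisj σ hp2 hp1
  have h5 : (1 - γ) * (Nat.card Ord : ℝ) < Nat.card {σ // P1 σ} := by
    rwa [lt_div_iff₀ hOpos] at h1
  have h6 : γ * (Nat.card Ord : ℝ) ≤ Nat.card {σ // P2 σ} := by
    rwa [le_div_iff₀ hOpos] at h4
  have h7 : ((Nat.card {σ // P1 σ} : ℝ) + Nat.card {σ // P2 σ}) ≤ Nat.card Ord := by
    exact_mod_cast hcount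
  nlinarith

end Pool.Agent.H624C
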