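import Pool.Agent.H624C.Basic

/-!
# MU (helper903): multiplicity of placements
-/

set_option autoImplicit false

namespace Pool.Agent.H624C

open Finset
open scoped Classical

namespace MUaux

/-- neighbours of `u` in `ω` -/
noncomputable def N {n : ℕ} (ω : Om n) (u : Fin n) : Finset (Fin n) :=
  univ.filter (fun x => x ≠ u ∧ s(u, x) ∈ ω)

/-- admissible triples -/
noncomputable def T {n : ℕ} (ω : Om n) : Finset (Fin n × Fin n × Fin n) :=
  univ.filter (fun q => (N ω q.2.1).card ≤ 3 ∧ q.1 ∈ N ω q.2.1 ∧ q.2.2 ∈ N ω q.2.1)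

theorem T_card {n : ℕ} (ω : Om n) : (T ω).card ≤ 9 * n := by
  have h1 : (T ω).card = ∑ u : Fin n, ((T ω).filter (fun q => q.2.1 = u)).card :=
    Finset.card_eq_sum_card_fiberwise (fun _ _ => Finset.mem_coe.2 (Finset.mem_univ _))
  rw [h1]
  calc ∑ u : Fin n, ((T ω).filter (fun q => q.2.1 = u)).card ≤ ∑ _u : Fin n, 9 := by
        refine Finset.sum_le_sum fun u _ => ?_
        by_cases hu : (N ω u).card ≤ 3
        · calc ((T ω).filter (fun q => q.2.1 = u)).card ≤ (N ω u ×ˢ N ω u).card := by
                refine Finset.card_le_card_of_injOn (fun q => (q.1, q.2.2)) ?_ ?_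
                · intro q hq
                  have hq' := Finset.mem_filter.1 (Finset.mem_coe.1 hq)
                  have hq2 := (Finset.mem_filter.1 hq'.1).2
                  rw [hq'.2] at hq2
                  exact Finset.mem_coe.2 (Finset.mem_product.2 ⟨hq2.2.1, hq2.2.2⟩)
                · rintro ⟨a, b, c⟩ hq ⟨a', b', c'⟩ hq' h
                  have e1 := (Finset.mem_filter.1 (Finset.mem_coe.1 hq)).2
                  have e2 := (Finset.mem_filter.1 (Finset.mem_coe.1 hq')).2
                  simp only [Prod.mk.injEq] at h e1 e2 ⊢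
                  exact ⟨h.1, e1.trans e2.symm, h.2⟩
            _ = (N ω u).card * (N ω u).card := Finset.card_product _ _
            _ ≤ 3 * 3 := Nat.mul_le_mul hu hu
        · rw [Finset.card_eq_zero.2]
          · norm_num
          · rw [Finset.filter_eq_empty_iff]
            intro q hq hqu
            have hq2 := (Finset.mem_filter.1 hq).2
            rw [hqu] at hq2
            exact hu hq2.1
    _ = 9 * n := by simp [mul_comm]

theorem Ev_T {l n : ℕ} {c : ℝ} {ω : Om n} {ρ : Rt (l + 1) → Fin n} (h : Ev l c ω ρ)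
    (i j : Fin (l + 1)) :
    (ρ (some (i, j, 0)), ρ (some (i, j, 1)), ρ (some (i, j, 2))) ∈ T ω := by
  obtain ⟨hinj, hin, w, y, _, _, _, h1, _⟩ := h
  have a0 : ρ (some (i, j, 0)) ∈ N ω (ρ (some (i, j, 1))) := by
    refine Finset.mem_filter.2 ⟨Finset.mem_univ _, fun hc => ?_, ?_⟩
    · have := hinj hc
      simp at this
    · exact (hin _ _ (by simp)).2 ⟨i, j, Or.inr (Or.inl ⟨rfl, rfl⟩)⟩
  have a2 : ρ (some (i, j, 2)) ∈ N ω (ρ (some (i, j, 1))) := by
    refine Finset.mem_filter.2 ⟨Finset.mem_univ _, fun hc => ?_, ?_⟩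
    · have := hinj hc
      simp at this
    · exact (hin _ _ (by simp)).2 ⟨i, j, Or.inr (Or.inr (Or.inl ⟨rfl, rfl⟩))⟩
  refine Finset.mem_filter.2 ⟨Finset.mem_univ _, ?_, a0, a2⟩
  have hsub : N ω (ρ (some (i, j, 1))) ⊆
      {ρ (some (i, j, 0)), ρ (some (i, j, 2)), y (i, j, 2)} := by
    intro x hx
    obtain ⟨_, hxu, hxω⟩ := Finset.mem_filter.1 hx
    simp only [Finset.mem_insert, Finset.mem_singleton]
    by_cases hxo : x ∈ Out ρ
    · exact Or.inr (Or.inr ((h1 i j x hxo).1 hxω))
    · have hxi : x ∈ univ.image ρ := by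
        by_contra hc
        exact hxo (Finset.mem_sdiff.2 ⟨Finset.mem_univ _, hc⟩)
      obtain ⟨r', _, rfl⟩ := Finset.mem_image.1 hxi
      have hne : (some (i, j, 1) : Rt (l + 1)) ≠ r' := fun hc => hxu (by rw [← hc])
      obtain ⟨i', j', hh⟩ := (hin _ _ hne).1 hxω
      rcases hh with ⟨e1, e2⟩ | ⟨e1, e2⟩ | ⟨e1, e2⟩ | ⟨e1, e2⟩
      · simp at e1
      · simp only [Option.some.injEq, Prod.mk.injEq, and_true] at e1
        left
        rw [e2, e1.1, e1.2]
      · simp only [Option.some.injEq, Prod.mk.injEq, and_true] at e1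
        right; left
        rw [e2, e1.1, e1.2]
      · simp at e1
  exact (Finset.card_le_card hsub).trans Finset.card_le_three

end MUaux

open MUaux in
theorem MU_thm : S_mult := by
  intro l n c ω
  have h1 : ((Finset.univ : Finset (Rt (l + 1) → Fin n)).filter (fun ρ => Ev l c ω ρ)).card ≤
      ((Finset.univ : Finset (Fin n)) ×ˢ
        Fintype.piFinset (fun _ : Fin (l + 1) × Fin (l + 1) => T ω)).card := by
    refine Finset.card_le_card_of_injOn (fun ρ => (ρ none, fun ij : Fin (l + 1) × Fin (l + 1) =>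
      (ρ (some (ij.1, ij.2, 0)), ρ (some (ij.1, ij.2, 1)), ρ (some (ij.1, ij.2, 2))))) ?_ ?_
    · intro ρ hρ
      have hE := (Finset.mem_filter.1 (Finset.mem_coe.1 hρ)).2
      refine Finset.mem_coe.2 (Finset.mem_product.2 ⟨Finset.mem_univ _, ?_⟩)
      rw [Fintype.mem_piFinset]
      intro ij
      exact Ev_T hE ij.1 ij.2
    · intro ρ _ ρ' _ h
      simp only [Prod.mk.injEq] at h
      funext r
      rcases r with _ | ⟨i, j, k⟩
      · exact h.1
      · have h2 := congrFun h.2 (i, j)
        simp only [Prod.mk.injEq] at h2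
        fin_cases k
        · exact h2.1
        · exact h2.2.1
        · exact h2.2.2
  refine h1.trans ?_
  rw [Finset.card_product, Fintype.card_piFinset, Finset.card_univ, Fintype.card_fin,
    Finset.prod_const, Finset.card_univ, Fintype.card_prod, Fintype.card_fin, ← pow_two]
  exact Nat.mul_le_mul_left _ (Nat.pow_le_pow_left (T_card ω) _)

end Pool.Agent.H624C
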