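import Pool.Agent.H624C.Basic

/-!
# PL: planting, from one placement to all
-/

set_option autoImplicit false

namespace Pool.Agent.H624C

open Finset
open scoped Classical

namespace PL

theorem mem_pull {m n : ℕ} (ι : Fin m → Fin n) (ω : Om n) (x y : Fin m) :
    s(x, y) ∈ pull ι ω ↔ s(ι x, ι y) ∈ ω := by
  simp [pull]

theorem cov_pull {m n : ℕ} (ι : Fin m → Fin n) (hι : Function.Injective ι) (ω : Om n)
    (Y : Finset (Fin m)) :
    Cov Set.univ (univ.image ι) ω (Y.image ι) ↔ Cov Set.univ univ (pull ι ω) Y := by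
  constructor
  · intro h τ hτ s
    have hσ : Function.extend ι τ (fun _ => 0) ∈ Sol Set.univ (univ.image ι) ω := by
      refine ⟨?_, Set.mem_univ _⟩
      intro a ha b hb hab hm
      obtain ⟨x, _, rfl⟩ := Finset.mem_image.1 ha
      obtain ⟨y, _, rfl⟩ := Finset.mem_image.1 hb
      rw [hι.extend_apply, hι.extend_apply]
      exact hτ.1 x (mem_univ _) y (mem_univ _) (fun h => hab (by rw [h]))
        ((mem_pull ι ω x y).2 hm)
    obtain ⟨y', hy', hs⟩ := h _ hσ s
    obtain ⟨y, hy, rfl⟩ := Finset.mem_image.1 hy'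
    rw [hι.extend_apply] at hs
    exact ⟨y, hy, hs⟩
  · intro h σ hσ s
    have hτ : (fun x => σ (ι x)) ∈ Sol Set.univ univ (pull ι ω) := by
      refine ⟨?_, Set.mem_univ _⟩
      intro x _ y _ hxy hm
      exact hσ.1 (ι x) (mem_image_of_mem _ (mem_univ _)) (ι y) (mem_image_of_mem _ (mem_univ _))
        (fun h => hxy (hι h)) ((mem_pull ι ω x y).1 hm)
    obtain ⟨y, hy, hs⟩ := h _ hτ s
    exact ⟨ι y, mem_image_of_mem _ hy, hs⟩

theorem prs_pull {m n : ℕ} (ι : Fin m → Fin n) (hι : Function.Injective ι) (l : ℕ) (ω : Om n) :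
    prs l (univ.image ι) ω = prs l univ (pull ι ω) := by
  symm
  have himg : ∀ w : Fin l → Fin m, univ.image (fun i => ι (w i)) = (univ.image w).image ι := by
    intro w
    rw [Finset.image_image]
    rfl
  unfold prs
  refine Finset.card_bij (fun q _ => ((fun i => ι (q.1 i)), ι q.2)) ?_ ?_ ?_
  · rintro ⟨w, z⟩ hq
    simp only [mem_filter, mem_univ, true_and] at hq ⊢
    refine ⟨fun i => mem_image_of_mem _ (mem_univ _), mem_image_of_mem _ (mem_univ _), ?_, ?_⟩
    · rw [himg, cov_pull ι hι]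
      exact hq.2.1
    · rw [himg, ← Finset.image_insert, cov_pull ι hι]
      exact hq.2.2
  · rintro ⟨w, z⟩ _ ⟨w', z'⟩ _ h
    simp only [Prod.mk.injEq] at h
    refine Prod.ext (funext fun i => hι (congrFun h.1 i)) (hι h.2)
  · rintro ⟨w, z⟩ hq
    simp only [mem_filter, mem_univ, true_and] at hq
    obtain ⟨hw, hz, h1, h2⟩ := hq
    have hw' : ∀ i, ∃ x : Fin m, ι x = w i := by
      intro i
      obtain ⟨x, _, hx⟩ := Finset.mem_image.1 (hw i)
      exact ⟨x, hx⟩
    choose w' hw' using hw'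
    obtain ⟨z', _, rfl⟩ := Finset.mem_image.1 hz
    have hww : w = fun i => ι (w' i) := funext fun i => (hw' i).symm
    subst hww
    refine ⟨(w', z'), ?_, rfl⟩
    simp only [mem_filter, mem_univ, true_and]
    rw [himg, cov_pull ι hι] at h1
    rw [himg, ← Finset.image_insert, cov_pull ι hι] at h2
    exact ⟨fun _ => trivial, h1, h2⟩

theorem good_pull {m n : ℕ} (ι : Fin m → Fin n) (hι : Function.Injective ι) (l : ℕ) (c : ℝ)
    (ω : Om n) : Good l c (univ.image ι) ω ↔ Good l c univ (pull ι ω) := by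
  unfold Good
  rw [prs_pull ι hι, Finset.card_image_of_injective _ hι]

theorem E_good (h1 : S_comap) (l : ℕ) (c p : ℝ) {m n : ℕ} (S : Finset (Fin n)) (hS : S.card = m) :
    E p (fun ω : Om n => ind (Good l c S ω)) = E p (fun ω : Om m => ind (Good l c univ ω)) := by
  have hinj : Function.Injective (S.orderEmbOfFin hS) := (S.orderEmbOfFin hS).injective
  have himg : univ.image (S.orderEmbOfFin hS) = S := Finset.image_orderEmbOfFin_univ S hS
  rw [← h1 m n p (S.orderEmbOfFin hS) hinj (fun ω => ind (Good l c univ ω))]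
  apply E_congr
  intro ω
  apply ind_congr
  rw [← good_pull _ hinj, himg]

theorem card_Rt (N : ℕ) : Fintype.card (Rt N) = 3 * N ^ 2 + 1 := by
  simp [Rt, Fintype.card_option]
  ring

theorem card_out {n N : ℕ} (ρ : Rt N → Fin n) (hρ : Function.Injective ρ) (m : ℕ)
    (hm : m + Fintype.card (Rt N) = n) : (Out ρ).card = m := by
  unfold Out
  rw [Finset.card_sdiff_of_subset (Finset.subset_univ _), Finset.card_image_of_injective _ hρ,
    Finset.card_univ, Finset.card_univ, Fintype.card_fin]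
  omega

theorem card_inj (n N : ℕ) (h : 2 * Fintype.card (Rt N) ≤ n) :
    ((n : ℝ) / 2) ^ Fintype.card (Rt N) ≤
      (((univ : Finset (Rt N → Fin n)).filter (fun ρ => Function.Injective ρ)).card : ℝ) := by
  have e1 : ((univ : Finset (Rt N → Fin n)).filter (fun ρ => Function.Injective ρ)).card =
      Fintype.card (Rt N ↪ Fin n) := by
    rw [← Fintype.card_subtype]
    exact Fintype.card_congr (Equiv.subtypeInjectiveEquivEmbedding _ _)
  rw [e1, Fintype.card_embedding_eq, Fintype.card_fin]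
  set k := Fintype.card (Rt N) with hk
  have h2 := Nat.pow_sub_le_descFactorial n k
  have h3 : ((n + 1 - k : ℕ) : ℝ) ^ k ≤ (n.descFactorial k : ℝ) := by exact_mod_cast h2
  refine le_trans ?_ h3
  apply pow_le_pow_left₀ (by positivity)
  have h4 : n ≤ 2 * (n + 1 - k) := by omega
  have h5 : (n : ℝ) ≤ 2 * ((n + 1 - k : ℕ) : ℝ) := by exact_mod_cast h4
  linarith

end PL

theorem PL_thm (h1 : S_comap) (h2 : S_plantprob) (h3 : S_mult) : S_plant := by
  intro l c ε Λ hc hε hΛ
  obtain ⟨c5, n1, hc5, hpp⟩ := h2 l c ε Λ hc hε hΛ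
  set a := (l + 1) ^ 2 with ha
  set k := Fintype.card (Rt (l + 1)) with hk
  have hkv : k = 3 * a + 1 := PL.card_Rt (l + 1)
  refine ⟨c5 * ε ^ (2 * a) / (2 ^ k * 9 ^ a), max n1 (max ⌈Λ⌉₊ (2 * k)), by positivity, ?_⟩
  intro n hn m hm p hp0 hp1 hp2 n' S hS
  have hn1 : n1 ≤ n := (le_max_left _ _).trans hn
  have hn2 : ⌈Λ⌉₊ ≤ n := (le_max_left _ _).trans ((le_max_right _ _).trans hn)
  have hn3 : 2 * k ≤ n := (le_max_right _ _).trans ((le_max_right _ _).trans hn)
  have hnΛ : Λ ≤ n := (Nat.le_ceil Λ).trans (by exact_mod_cast hn2)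
  have hnpos : (0 : ℝ) < n := hΛ.trans_le hnΛ
  have hple : p ≤ 1 := by
    by_contra hcon
    push Not at hcon
    have : (n : ℝ) < p * n := by nlinarith
    linarith
  set P := E p (fun ω : Om n' => ind (Good l c S ω)) with hPdef
  have hP0 : 0 ≤ P := E_nonneg hp0 hple (fun _ => ind_nonneg _)
  have hP : ∀ ρ : Rt (l + 1) → Fin n, Function.Injective ρ →
      E p (fun ω : Om n => ind (Good l c (Out ρ) ω)) = P := by
    intro ρ hρ
    rw [hPdef, PL.E_good h1 l c p (Out ρ) (PL.card_out ρ hρ m hm), PL.E_good h1 l c p S hS]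
  set Q := E p (fun ω : Om n => ind (∃ ρ : Rt (l + 1) → Fin n, Ev l c ω ρ)) with hQdef
  have hmult : ∀ ω : Om n, ∑ ρ : Rt (l + 1) → Fin n, ind (Ev l c ω ρ) ≤
      (n * (9 * n) ^ a : ℝ) * ind (∃ ρ : Rt (l + 1) → Fin n, Ev l c ω ρ) := by
    intro ω
    by_cases hex : ∃ ρ : Rt (l + 1) → Fin n, Ev l c ω ρ
    · rw [ind_true hex, mul_one, ← card_filter_eq_sum_ind]
      have := h3 l n c ω
      exact_mod_cast this
    · rw [ind_false hex, mul_zero]
      apply Finset.sum_nonpos
      intro ρ _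
      rw [ind_false (fun h => hex ⟨ρ, h⟩)]
  have hsum : ∑ ρ : Rt (l + 1) → Fin n, E p (fun ω => ind (Ev l c ω ρ)) ≤
      (n * (9 * n) ^ a : ℝ) * Q := by
    rw [← E_sum, hQdef, ← E_mul_left]
    exact E_mono hp0 hple hmult
  have hlow : (((univ : Finset (Rt (l + 1) → Fin n)).filter
      (fun ρ => Function.Injective ρ)).card : ℝ) * (c5 * p ^ (2 * a) * P) ≤
      ∑ ρ : Rt (l + 1) → Fin n, E p (fun ω => ind (Ev l c ω ρ)) := by
    calc (((univ : Finset (Rt (l + 1) → Fin n)).filter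
        (fun ρ => Function.Injective ρ)).card : ℝ) * (c5 * p ^ (2 * a) * P)
        = ∑ ρ ∈ (univ : Finset (Rt (l + 1) → Fin n)).filter
          (fun ρ => Function.Injective ρ), c5 * p ^ (2 * a) * P := by
          rw [Finset.sum_const, nsmul_eq_mul]
      _ ≤ ∑ ρ ∈ (univ : Finset (Rt (l + 1) → Fin n)).filter
          (fun ρ => Function.Injective ρ), E p (fun ω => ind (Ev l c ω ρ)) := by
          apply Finset.sum_le_sum
          intro ρ hρ
          have hρ' := (Finset.mem_filter.1 hρ).2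
          have := hpp n hn1 p hp0 hp1 hp2 ρ hρ'
          rw [hP ρ hρ'] at this
          exact this
      _ ≤ _ := by
          apply Finset.sum_le_sum_of_subset_of_nonneg (Finset.filter_subset _ _)
          intro ρ _ _
          exact E_nonneg hp0 hple (fun _ => ind_nonneg _)
  have hcard := PL.card_inj n (l + 1) hn3
  rw [← hk] at hcard
  have hall : ((n : ℝ) / 2) ^ k * (c5 * p ^ (2 * a) * P) ≤ (n * (9 * n) ^ a : ℝ) * Q :=
    (mul_le_mul_of_nonneg_right hcard (by positivity)).trans (hlow.trans hsum)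
  -- rewrite both sides
  have e1 : ((n : ℝ) / 2) ^ k * (c5 * p ^ (2 * a) * P) =
      (n * (9 * n) ^ a : ℝ) * (c5 * (p * n) ^ (2 * a) / (2 ^ k * 9 ^ a) * P) := by
    rw [hkv, div_pow, mul_pow, mul_pow]
    have h9 : (9 : ℝ) ^ a ≠ 0 := by positivity
    field_simp
    ring
  rw [e1] at hall
  have hpos : (0 : ℝ) < n * (9 * n) ^ a := by positivity
  have hfin : c5 * (p * n) ^ (2 * a) / (2 ^ k * 9 ^ a) * P ≤ Q := le_of_mul_le_mul_left hall hpos
  refine le_trans ?_ hfin
  apply mul_le_mul_of_nonneg_right _ hP0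
  apply div_le_div_of_nonneg_right _ (by positivity)
  apply mul_le_mul_of_nonneg_left _ hc5.le
  exact pow_le_pow_left₀ hε.le hp1 _

end Pool.Agent.H624C
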