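import Pool.Agent.H624C.Basic

/-!
# Task PP: probability of the planted event
-/

set_option autoImplicit false

namespace Pool.Agent.H624C

open Finset
open scoped Classical

noncomputable section

/-- the position in its path of the vertex owning a slot -/
def pp_tb (k : Fin 5) : Fin 3 := ![0, 0, 1, 2, 2] k

/-- the vertex owning a slot -/
def pp_own {N : ℕ} (k : Slot N) : Rt N := some (k.1, k.2.1, pp_tb k.2.2)

/-- the data of the gadgets -/
abbrev pp_Q (l n : ℕ) := (Fin l → Fin n) × (Slot (l + 1) → Fin n)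

/-- the prescribed set of pairs -/
def pp_pat {n l : ℕ} (ρ : Rt (l + 1) → Fin n) (q : pp_Q l n) : Om n :=
  (univ.image (fun ij : Fin (l + 1) × Fin (l + 1) =>
      s(ρ (some (ij.1, ij.2, 0)), ρ (some (ij.1, ij.2, 1)))) ∪
    univ.image (fun ij : Fin (l + 1) × Fin (l + 1) =>
      s(ρ (some (ij.1, ij.2, 1)), ρ (some (ij.1, ij.2, 2))))) ∪
  (univ.image (fun i : Fin l => s(ρ none, q.1 i)) ∪
    univ.image (fun k : Slot (l + 1) => s(ρ (pp_own k), q.2 k)))

/-- the pairs meeting the placement -/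
def pp_B {n N : ℕ} (ρ : Rt N → Fin n) : Om n :=
  univ.filter (fun e => ∃ r, ρ r ∈ e)

theorem pp_not_out {n N : ℕ} {ρ : Rt N → Fin n} {x : Fin n} (hx : x ∈ Out ρ) (r : Rt N) :
    x ≠ ρ r := by
  intro h
  unfold Out at hx
  rw [mem_sdiff] at hx
  exact hx.2 (mem_image.mpr ⟨r, mem_univ _, h.symm⟩)

theorem pp_card {n l : ℕ} (ρ : Rt (l + 1) → Fin n) (q : pp_Q l n) :
    (pp_pat ρ q).card ≤ 2 * (l + 1) ^ 2 + (l + 5 * (l + 1) ^ 2) := by
  have h1 : (univ.image (fun ij : Fin (l + 1) × Fin (l + 1) =>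
      s(ρ (some (ij.1, ij.2, 0)), ρ (some (ij.1, ij.2, 1))))).card ≤ (l + 1) ^ 2 := by
    refine card_image_le.trans ?_
    simp [sq]
  have h2 : (univ.image (fun ij : Fin (l + 1) × Fin (l + 1) =>
      s(ρ (some (ij.1, ij.2, 1)), ρ (some (ij.1, ij.2, 2))))).card ≤ (l + 1) ^ 2 := by
    refine card_image_le.trans ?_
    simp [sq]
  have h3 : (univ.image (fun i : Fin l => s(ρ none, q.1 i))).card ≤ l := by
    refine card_image_le.trans ?_
    simp
  have h4 : (univ.image (fun k : Slot (l + 1) => s(ρ (pp_own k), q.2 k))).card ≤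
      5 * (l + 1) ^ 2 := by
    refine card_image_le.trans ?_
    simp only [card_univ, Fintype.card_prod, Fintype.card_fin]
    exact le_of_eq (by ring)
  unfold pp_pat
  have h5 := card_union_le (univ.image (fun ij : Fin (l + 1) × Fin (l + 1) =>
      s(ρ (some (ij.1, ij.2, 0)), ρ (some (ij.1, ij.2, 1)))) ∪
    univ.image (fun ij : Fin (l + 1) × Fin (l + 1) =>
      s(ρ (some (ij.1, ij.2, 1)), ρ (some (ij.1, ij.2, 2)))))
    (univ.image (fun i : Fin l => s(ρ none, q.1 i)) ∪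
    univ.image (fun k : Slot (l + 1) => s(ρ (pp_own k), q.2 k)))
  have h6 := card_union_le (univ.image (fun ij : Fin (l + 1) × Fin (l + 1) =>
      s(ρ (some (ij.1, ij.2, 0)), ρ (some (ij.1, ij.2, 1)))))
    (univ.image (fun ij : Fin (l + 1) × Fin (l + 1) =>
      s(ρ (some (ij.1, ij.2, 1)), ρ (some (ij.1, ij.2, 2)))))
  have h7 := card_union_le (univ.image (fun i : Fin l => s(ρ none, q.1 i)))
    (univ.image (fun k : Slot (l + 1) => s(ρ (pp_own k), q.2 k)))
  omega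

theorem pp_mem1 {n l : ℕ} {ρ : Rt (l + 1) → Fin n} (hρ : Function.Injective ρ) {q : pp_Q l n}
    (hq1 : ∀ i, q.1 i ∈ Out ρ) (hq2 : ∀ k, q.2 k ∈ Out ρ) (r r' : Rt (l + 1)) :
    s(ρ r, ρ r') ∈ pp_pat ρ q ↔ RAdj r r' := by
  simp only [pp_pat, mem_union, mem_image, mem_univ, true_and]
  constructor
  · rintro ((⟨ij, h⟩ | ⟨ij, h⟩) | (⟨i, h⟩ | ⟨k, h⟩))
    · rw [Sym2.eq_iff] at h
      rcases h with ⟨h1, h2⟩ | ⟨h1, h2⟩
      · exact ⟨ij.1, ij.2, Or.inl ⟨(hρ h1).symm, (hρ h2).symm⟩⟩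
      · exact ⟨ij.1, ij.2, Or.inr (Or.inl ⟨(hρ h2).symm, (hρ h1).symm⟩)⟩
    · rw [Sym2.eq_iff] at h
      rcases h with ⟨h1, h2⟩ | ⟨h1, h2⟩
      · exact ⟨ij.1, ij.2, Or.inr (Or.inr (Or.inl ⟨(hρ h1).symm, (hρ h2).symm⟩))⟩
      · exact ⟨ij.1, ij.2, Or.inr (Or.inr (Or.inr ⟨(hρ h2).symm, (hρ h1).symm⟩))⟩
    · rw [Sym2.eq_iff] at h
      rcases h with ⟨_, h2⟩ | ⟨_, h2⟩
      · exact absurd h2 (pp_not_out (hq1 i) _)
      · exact absurd h2 (pp_not_out (hq1 i) _)
    · rw [Sym2.eq_iff] at h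
      rcases h with ⟨_, h2⟩ | ⟨_, h2⟩
      · exact absurd h2 (pp_not_out (hq2 k) _)
      · exact absurd h2 (pp_not_out (hq2 k) _)
  · rintro ⟨i, j, h⟩
    rcases h with ⟨h1, h2⟩ | ⟨h1, h2⟩ | ⟨h1, h2⟩ | ⟨h1, h2⟩
    · exact Or.inl (Or.inl ⟨(i, j), by rw [h1, h2]⟩)
    · exact Or.inl (Or.inl ⟨(i, j), by rw [h1, h2]; exact Sym2.eq_swap⟩)
    · exact Or.inl (Or.inr ⟨(i, j), by rw [h1, h2]⟩)
    · exact Or.inl (Or.inr ⟨(i, j), by rw [h1, h2]; exact Sym2.eq_swap⟩)

theorem pp_mem2 {n l : ℕ} {ρ : Rt (l + 1) → Fin n} (hρ : Function.Injective ρ) {q : pp_Q l n}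
    {x : Fin n} (hx : x ∈ Out ρ) (r : Rt (l + 1)) :
    s(ρ r, x) ∈ pp_pat ρ q ↔ (r = none ∧ ∃ i, x = q.1 i) ∨ ∃ k, r = pp_own k ∧ x = q.2 k := by
  simp only [pp_pat, mem_union, mem_image, mem_univ, true_and]
  constructor
  · rintro ((⟨ij, h⟩ | ⟨ij, h⟩) | (⟨i, h⟩ | ⟨k, h⟩))
    · rw [Sym2.eq_iff] at h
      rcases h with ⟨_, h2⟩ | ⟨h2, _⟩
      · exact absurd h2.symm (pp_not_out hx _)
      · exact absurd h2.symm (pp_not_out hx _)
    · rw [Sym2.eq_iff] at h
      rcases h with ⟨_, h2⟩ | ⟨h2, _⟩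
      · exact absurd h2.symm (pp_not_out hx _)
      · exact absurd h2.symm (pp_not_out hx _)
    · rw [Sym2.eq_iff] at h
      rcases h with ⟨h1, h2⟩ | ⟨h1, _⟩
      · exact Or.inl ⟨(hρ h1).symm, i, h2.symm⟩
      · exact absurd h1.symm (pp_not_out hx _)
    · rw [Sym2.eq_iff] at h
      rcases h with ⟨h1, h2⟩ | ⟨h1, _⟩
      · exact Or.inr ⟨k, (hρ h1).symm, h2.symm⟩
      · exact absurd h1.symm (pp_not_out hx _)
  · rintro (⟨h1, i, h2⟩ | ⟨k, h1, h2⟩)
    · exact Or.inr (Or.inl ⟨i, by rw [h1, h2]⟩)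
    · exact Or.inr (Or.inr ⟨k, by rw [h1, h2]⟩)

theorem pp_sub {n l : ℕ} (ρ : Rt (l + 1) → Fin n) (q : pp_Q l n) : pp_pat ρ q ⊆ pp_B ρ := by
  intro e he
  simp only [pp_pat, mem_union, mem_image, mem_univ, true_and] at he
  rw [pp_B, mem_filter]
  refine ⟨mem_univ _, ?_⟩
  rcases he with ((⟨ij, h⟩ | ⟨ij, h⟩) | (⟨i, h⟩ | ⟨k, h⟩)) <;>
    exact ⟨_, by rw [← h]; exact Sym2.mem_mk_left _ _⟩

theorem pp_ev {n l : ℕ} {c : ℝ} {ρ : Rt (l + 1) → Fin n} (hρ : Function.Injective ρ)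
    {q : pp_Q l n} {ω : Om n} (h : ω ∩ pp_B ρ = pp_pat ρ q)
    (hg : GoodT l c (Out ρ) ω q.1 q.2) : Ev l c ω ρ := by
  have hq1 : ∀ i, q.1 i ∈ Out ρ := hg.1
  have hq2 : ∀ k, q.2 k ∈ Out ρ := hg.2.1
  have hmem : ∀ (r : Rt (l + 1)) (x : Fin n), s(ρ r, x) ∈ ω ↔ s(ρ r, x) ∈ pp_pat ρ q := by
    intro r x
    rw [← h, mem_inter]
    constructor
    · intro h1
      refine ⟨h1, ?_⟩
      rw [pp_B, mem_filter]
      exact ⟨mem_univ _, r, Sym2.mem_mk_left _ _⟩
    · intro h1; exact h1.1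
  refine ⟨hρ, ?_, q.1, q.2, hg, ?_, ?_, ?_, ?_⟩
  · intro r r' _
    rw [hmem, pp_mem1 hρ hq1 hq2]
  · intro x hx
    rw [hmem, pp_mem2 hρ hx]
    constructor
    · rintro (⟨_, h2⟩ | ⟨k, h1, _⟩)
      · exact h2
      · exact absurd h1 (by simp [pp_own])
    · intro h2
      exact Or.inl ⟨rfl, h2⟩
  · intro i j x hx
    rw [hmem, pp_mem2 hρ hx]
    constructor
    · rintro (⟨h1, _⟩ | ⟨⟨i', j', k⟩, h1, h2⟩)
      · exact absurd h1 (by simp)
      · simp only [pp_own, Option.some.injEq, Prod.mk.injEq] at h1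
        obtain ⟨rfl, rfl, h3⟩ := h1
        fin_cases k
        · exact Or.inl h2
        · exact Or.inr h2
        · exact absurd h3 (by decide)
        · exact absurd h3 (by decide)
        · exact absurd h3 (by decide)
    · rintro (h2 | h2)
      · exact Or.inr ⟨(i, j, 0), rfl, h2⟩
      · exact Or.inr ⟨(i, j, 1), rfl, h2⟩
  · intro i j x hx
    rw [hmem, pp_mem2 hρ hx]
    constructor
    · rintro (⟨h1, _⟩ | ⟨⟨i', j', k⟩, h1, h2⟩)
      · exact absurd h1 (by simp)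
      · simp only [pp_own, Option.some.injEq, Prod.mk.injEq] at h1
        obtain ⟨rfl, rfl, h3⟩ := h1
        fin_cases k
        · exact absurd h3 (by decide)
        · exact absurd h3 (by decide)
        · exact h2
        · exact absurd h3 (by decide)
        · exact absurd h3 (by decide)
    · intro h2
      exact Or.inr ⟨(i, j, 2), rfl, h2⟩
  · intro i j x hx
    rw [hmem, pp_mem2 hρ hx]
    constructor
    · rintro (⟨h1, _⟩ | ⟨⟨i', j', k⟩, h1, h2⟩)
      · exact absurd h1 (by simp)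
      · simp only [pp_own, Option.some.injEq, Prod.mk.injEq] at h1
        obtain ⟨rfl, rfl, h3⟩ := h1
        fin_cases k
        · exact absurd h3 (by decide)
        · exact absurd h3 (by decide)
        · exact absurd h3 (by decide)
        · exact Or.inl h2
        · exact Or.inr h2
    · rintro (h2 | h2)
      · exact Or.inr ⟨(i, j, 3), rfl, h2⟩
      · exact Or.inr ⟨(i, j, 4), rfl, h2⟩

/-- the good data of `ω` -/
def pp_D {n l : ℕ} (c : ℝ) (ρ : Rt (l + 1) → Fin n) (ω : Om n) : Finset (pp_Q l n) :=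
  univ.filter (fun q => GoodT l c (Out ρ) ω q.1 q.2)

theorem pp_D_sdiff {n l : ℕ} (c : ℝ) (ρ : Rt (l + 1) → Fin n) (ω : Om n) :
    pp_D c ρ (ω \ pp_B ρ) = pp_D c ρ ω := by
  have hS : Sol Set.univ (Out ρ) (ω \ pp_B ρ) = Sol Set.univ (Out ρ) ω := by
    apply Sol_sdiff
    intro a ha b hb hab
    rw [pp_B, mem_filter] at hab
    obtain ⟨_, r, hr⟩ := hab
    rw [Sym2.mem_iff] at hr
    rcases hr with hr | hr
    · exact pp_not_out ha r hr.symm
    · exact pp_not_out hb r hr.symm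
  unfold pp_D
  congr 1
  funext q
  unfold GoodT
  rw [hS, cs_of_sol hS]

/-- the vertices used by a pattern -/
def pp_V {n l : ℕ} (ρ : Rt (l + 1) → Fin n) (β : Om n) : Finset (Fin n) :=
  univ.filter (fun x => x ∈ Out ρ ∧ ∃ r, s(ρ r, x) ∈ β)

theorem pp_V_card {n l : ℕ} {ρ : Rt (l + 1) → Fin n} (hρ : Function.Injective ρ) (q : pp_Q l n) :
    (pp_V ρ (pp_pat ρ q)).card ≤ l + 5 * (l + 1) ^ 2 := by
  have hsub : pp_V ρ (pp_pat ρ q) ⊆ univ.image q.1 ∪ univ.image q.2 := by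
    intro x hx
    rw [pp_V, mem_filter] at hx
    obtain ⟨_, hx1, r, hr⟩ := hx
    rw [pp_mem2 hρ hx1] at hr
    rw [mem_union, mem_image, mem_image]
    rcases hr with ⟨_, i, h⟩ | ⟨k, _, h⟩
    · exact Or.inl ⟨i, mem_univ _, h.symm⟩
    · exact Or.inr ⟨k, mem_univ _, h.symm⟩
  refine (card_le_card hsub).trans ((card_union_le _ _).trans ?_)
  have h1 : (univ.image q.1).card ≤ l := by
    refine card_image_le.trans ?_
    simp
  have h2 : (univ.image q.2).card ≤ 5 * (l + 1) ^ 2 := by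
    refine card_image_le.trans ?_
    simp only [card_univ, Fintype.card_prod, Fintype.card_fin]
    exact le_of_eq (by ring)
  omega

theorem pp_fibre {n l : ℕ} {c : ℝ} {ρ : Rt (l + 1) → Fin n} (hρ : Function.Injective ρ)
    (ω : Om n) :
    (pp_D c ρ ω).card ≤ (l + 5 * (l + 1) ^ 2) ^ (l + 5 * (l + 1) ^ 2) *
      ((pp_D c ρ ω).image (pp_pat ρ)).card := by
  apply card_le_mul_card_image
  intro β hβ
  obtain ⟨q0, hq0, rfl⟩ := mem_image.mp hβ
  set V := pp_V ρ (pp_pat ρ q0) with hV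
  have hsub : (pp_D c ρ ω).filter (fun q => pp_pat ρ q = pp_pat ρ q0) ⊆
      (Fintype.piFinset fun _ : Fin l => V) ×ˢ (Fintype.piFinset fun _ : Slot (l + 1) => V) := by
    intro q hq
    rw [mem_filter] at hq
    obtain ⟨hq1, hq2⟩ := hq
    rw [pp_D, mem_filter] at hq1
    have hg := hq1.2
    rw [mem_product, Fintype.mem_piFinset, Fintype.mem_piFinset]
    constructor
    · intro i
      rw [hV, pp_V, mem_filter]
      refine ⟨mem_univ _, hg.1 i, none, ?_⟩
      rw [← hq2, pp_mem2 hρ (hg.1 i)]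
      exact Or.inl ⟨rfl, i, rfl⟩
    · intro k
      rw [hV, pp_V, mem_filter]
      refine ⟨mem_univ _, hg.2.1 k, pp_own k, ?_⟩
      rw [← hq2, pp_mem2 hρ (hg.2.1 k)]
      exact Or.inr ⟨k, rfl, rfl⟩
  refine (card_le_card hsub).trans ?_
  rw [card_product, Fintype.card_piFinset, Fintype.card_piFinset, prod_const, prod_const,
    ← pow_add]
  have h1 : (univ : Finset (Fin l)).card + (univ : Finset (Slot (l + 1))).card =
      l + 5 * (l + 1) ^ 2 := by
    simp only [card_univ, Fintype.card_prod, Fintype.card_fin]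
    ring
  rw [h1]
  exact Nat.pow_le_pow_left (pp_V_card hρ q0) _

theorem pp_B_card {n N : ℕ} (ρ : Rt N → Fin n) :
    (pp_B ρ).card ≤ Fintype.card (Rt N) * n := by
  have hsub : pp_B ρ ⊆ (univ : Finset (Rt N × Fin n)).image (fun q => s(ρ q.1, q.2)) := by
    intro e he
    rw [pp_B, mem_filter] at he
    obtain ⟨_, r, hr⟩ := he
    rw [mem_image]
    obtain ⟨x, hx⟩ := Sym2.mem_iff_exists.mp hr
    exact ⟨(r, x), mem_univ _, hx.symm⟩
  refine (card_le_card hsub).trans (card_image_le.trans ?_)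
  simp only [card_univ, Fintype.card_prod, Fintype.card_fin]
  exact le_refl _

/-- the lower bound for the planted event by a sum over patterns -/
theorem pp_lower {n l : ℕ} {c : ℝ} {ρ : Rt (l + 1) → Fin n} (hρ : Function.Injective ρ)
    (ω : Om n) :
    ∑ β ∈ (univ : Finset (pp_Q l n)).image (pp_pat ρ), ind (ω ∩ pp_B ρ = β) *
      ind (β ∈ (pp_D c ρ ω).image (pp_pat ρ)) ≤ ind (Ev l c ω ρ) := by
  have h1 : ∀ β ∈ (univ : Finset (pp_Q l n)).image (pp_pat ρ), ind (ω ∩ pp_B ρ = β) *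
      ind (β ∈ (pp_D c ρ ω).image (pp_pat ρ)) ≤
      (if ω ∩ pp_B ρ = β then ind (Ev l c ω ρ) else 0) := by
    intro β _
    by_cases h : ω ∩ pp_B ρ = β
    · rw [ind_true h, if_pos h, one_mul]
      apply ind_mono
      intro hm
      obtain ⟨q, hq, hqβ⟩ := mem_image.mp hm
      rw [pp_D, mem_filter] at hq
      exact pp_ev hρ (h.trans hqβ.symm) hq.2
    · rw [ind_false h, if_neg h, zero_mul]
  refine (sum_le_sum h1).trans ?_
  rw [sum_ite_eq]
  split_ifs
  · exact le_refl _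
  · exact ind_nonneg _

theorem pp_exp {p : ℝ} (h0 : 0 ≤ p) (h1 : p ≤ 1 / 2) : Real.exp (-(2 * p)) ≤ 1 - p := by
  have h2 : 1 + 2 * p ≤ Real.exp (2 * p) := by
    have := Real.add_one_le_exp (2 * p)
    linarith
  have h3 : Real.exp (-(2 * p)) * Real.exp (2 * p) = 1 := by
    rw [← Real.exp_add]; simp
  have h4 : 0 < Real.exp (2 * p) := Real.exp_pos _
  have h5 : 1 ≤ (1 - p) * Real.exp (2 * p) := by
    have : (1 - p) * (1 + 2 * p) ≤ (1 - p) * Real.exp (2 * p) :=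
      mul_le_mul_of_nonneg_left h2 (by linarith)
    nlinarith
  nlinarith

theorem pp_sum_ind {ι : Type} (s t : Finset ι) (h : t ⊆ s) :
    ∑ β ∈ s, ind (β ∈ t) = (t.card : ℝ) := by
  have h1 : ∑ β ∈ s, ind (β ∈ t) = ∑ β ∈ t, ind (β ∈ t) := by
    symm
    apply sum_subset h
    intro x _ hx
    exact ind_false hx
  rw [h1, sum_congr rfl (fun x hx => ind_true hx)]
  simp

theorem PP_thm (hcond : S_cond) (hcount : S_count) : S_plantprob := by
  intro l c ε Λ hc hε hΛ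
  obtain ⟨c3, hc3, hcnt⟩ := hcount l c hc
  set K : ℕ := l + 5 * (l + 1) ^ 2 with hK
  set N2 : ℕ := 2 * (l + 1) ^ 2 with hN2
  set m : ℕ := Fintype.card (Rt (l + 1)) with hm
  have hKpos : (0 : ℝ) < (K : ℝ) ^ K := by
    have : 0 < K := by rw [hK]; positivity
    positivity
  refine ⟨Real.exp (-(2 * Λ * m)) * (c3 * (ε / 2) ^ K / (K : ℝ) ^ K),
    max (2 * m) ⌈2 * Λ⌉₊ + 1, by positivity, ?_⟩
  intro n hn p hp0 hpε hpΛ ρ hρ
  have hn1 : 2 * m ≤ n := by omega
  have hn2 : ⌈2 * Λ⌉₊ ≤ n := by omega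
  have hn3 : 0 < n := by omega
  have hnΛ : 2 * Λ ≤ (n : ℝ) := (Nat.le_ceil _).trans (by exact_mod_cast hn2)
  have hnpos : (0 : ℝ) < n := by exact_mod_cast hn3
  have hp1 : p ≤ 1 / 2 := by
    by_contra h
    push Not at h
    nlinarith
  set S := Out ρ with hS
  have hScard : S.card = n - m := by
    rw [hS, Out, card_sdiff_of_subset (subset_univ _), card_image_of_injective _ hρ]
    simp [hm]
  have hScard2 : (n : ℝ) / 2 ≤ (S.card : ℝ) := by
    rw [hScard]
    have h1 : m ≤ n := by omega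
    rw [Nat.cast_sub h1]
    have h2 : (2 : ℝ) * m ≤ n := by exact_mod_cast hn1
    linarith
  have hSne : S.Nonempty := by
    rw [← card_pos]
    have : (0 : ℝ) < (S.card : ℝ) := by linarith
    exact_mod_cast this
  set PP := (univ : Finset (pp_Q l n)).image (pp_pat ρ) with hPP
  set f : Om n → Om n → ℝ := fun β ω => ind (β ∈ (pp_D c ρ ω).image (pp_pat ρ)) with hf
  -- the sum over patterns
  have hlow : ∑ β ∈ PP, p ^ β.card * (1 - p) ^ ((pp_B ρ).card - β.card) * E p (f β) ≤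
      E p (fun ω => ind (Ev l c ω ρ)) := by
    calc ∑ β ∈ PP, p ^ β.card * (1 - p) ^ ((pp_B ρ).card - β.card) * E p (f β)
        = ∑ β ∈ PP, E p (fun ω => ind (ω ∩ pp_B ρ = β) * f β ω) := by
          refine sum_congr rfl fun β hβ => ?_
          obtain ⟨q, _, hq⟩ := mem_image.mp hβ
          refine (hcond n p (pp_B ρ) β (f β) (hq ▸ pp_sub ρ q) ?_).symm
          intro ω
          simp only [hf]
          rw [pp_D_sdiff]
      _ = E p (fun ω => ∑ β ∈ PP, ind (ω ∩ pp_B ρ = β) * f β ω) := by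
          rw [E_sum]
      _ ≤ E p (fun ω => ind (Ev l c ω ρ)) :=
          E_mono hp0 (by linarith) fun ω => pp_lower hρ ω
  refine le_trans ?_ hlow
  -- weights
  have hw : ∀ β ∈ PP, Real.exp (-(2 * Λ * m)) * (p ^ N2 * p ^ K) ≤
      p ^ β.card * (1 - p) ^ ((pp_B ρ).card - β.card) := by
    intro β hβ
    obtain ⟨q, _, hq⟩ := mem_image.mp hβ
    have h1 : β.card ≤ N2 + K := by rw [← hq]; exact pp_card ρ q
    have h2 : p ^ N2 * p ^ K ≤ p ^ β.card := by
      rw [← pow_add]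
      exact pow_le_pow_of_le_one hp0 (by linarith) h1
    have h3 : (pp_B ρ).card - β.card ≤ m * n := (Nat.sub_le _ _).trans (pp_B_card ρ)
    have h4 : (1 - p) ^ (m * n) ≤ (1 - p) ^ ((pp_B ρ).card - β.card) :=
      pow_le_pow_of_le_one (by linarith) (by linarith) h3
    have h5 : Real.exp (-(2 * Λ * m)) ≤ (1 - p) ^ (m * n) := by
      calc Real.exp (-(2 * Λ * m)) ≤ Real.exp ((m * n : ℕ) * (-(2 * p))) := by
            apply Real.exp_le_exp.mpr
            push_cast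
            have hm0 : (0 : ℝ) ≤ m := by positivity
            have : (m : ℝ) * (p * n) ≤ m * Λ := mul_le_mul_of_nonneg_left hpΛ hm0
            nlinarith
        _ = Real.exp (-(2 * p)) ^ (m * n) := by
            rw [Real.exp_nat_mul]
        _ ≤ (1 - p) ^ (m * n) :=
            pow_le_pow_left₀ (Real.exp_pos _).le (pp_exp hp0 hp1) _
    calc Real.exp (-(2 * Λ * m)) * (p ^ N2 * p ^ K)
        ≤ (1 - p) ^ ((pp_B ρ).card - β.card) * p ^ β.card :=
          mul_le_mul (h5.trans h4) h2 (by positivity) (pow_nonneg (by linarith) _)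
      _ = p ^ β.card * (1 - p) ^ ((pp_B ρ).card - β.card) := mul_comm _ _
  have hfE : ∀ β, 0 ≤ E p (f β) := fun β => E_nonneg hp0 (by linarith) fun ω => ind_nonneg _
  have hsum : Real.exp (-(2 * Λ * m)) * (p ^ N2 * p ^ K) * E p (fun ω => ∑ β ∈ PP, f β ω) ≤
      ∑ β ∈ PP, p ^ β.card * (1 - p) ^ ((pp_B ρ).card - β.card) * E p (f β) := by
    rw [E_sum, mul_sum]
    exact sum_le_sum fun β hβ => mul_le_mul_of_nonneg_right (hw β hβ) (hfE β)
  refine le_trans ?_ hsum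
  -- counting
  have hcnt2 : ∀ ω, (c3 * (S.card : ℝ) ^ K / (K : ℝ) ^ K) * ind (Good l c S ω) ≤
      ∑ β ∈ PP, f β ω := by
    intro ω
    have h1 : ∑ β ∈ PP, f β ω = (((pp_D c ρ ω).image (pp_pat ρ)).card : ℝ) := by
      apply pp_sum_ind
      exact image_subset_image (subset_univ _)
    rw [h1]
    by_cases hg : Good l c S ω
    · rw [ind_true hg, mul_one]
      have h2 := hcnt n S ω hg hSne
      have h3 : ((pp_D c ρ ω).card : ℝ) ≤ (K : ℝ) ^ K *
          (((pp_D c ρ ω).image (pp_pat ρ)).card : ℝ) := by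
        have := pp_fibre (c := c) hρ ω
        rw [← hK] at this
        exact_mod_cast this
      rw [div_le_iff₀ hKpos]
      have h4 : c3 * (S.card : ℝ) ^ K ≤ ((pp_D c ρ ω).card : ℝ) := by
        unfold pp_D
        rw [← hS]
        exact h2
      linarith
    · rw [ind_false hg, mul_zero]
      positivity
  have hcnt3 : (c3 * (S.card : ℝ) ^ K / (K : ℝ) ^ K) * E p (fun ω => ind (Good l c S ω)) ≤
      E p (fun ω => ∑ β ∈ PP, f β ω) := by
    rw [← E_mul_left]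
    exact E_mono hp0 (by linarith) hcnt2
  have hGE : 0 ≤ E p (fun ω : Om n => ind (Good l c S ω)) :=
    E_nonneg hp0 (by linarith) fun ω => ind_nonneg _
  have hpS : (ε / 2) ^ K ≤ p ^ K * (S.card : ℝ) ^ K := by
    rw [← mul_pow]
    refine pow_le_pow_left₀ (by positivity) ?_ _
    have : p * (n / 2) ≤ p * (S.card : ℝ) := mul_le_mul_of_nonneg_left hScard2 hp0
    linarith
  have hexp := Real.exp_pos (-(2 * Λ * m))
  calc Real.exp (-(2 * Λ * m)) * (c3 * (ε / 2) ^ K / (K : ℝ) ^ K) * p ^ N2 *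
        E p (fun ω => ind (Good l c S ω))
      = (Real.exp (-(2 * Λ * m)) * p ^ N2 * (c3 / (K : ℝ) ^ K) *
          E p (fun ω => ind (Good l c S ω))) * (ε / 2) ^ K := by ring
    _ ≤ (Real.exp (-(2 * Λ * m)) * p ^ N2 * (c3 / (K : ℝ) ^ K) *
          E p (fun ω => ind (Good l c S ω))) * (p ^ K * (S.card : ℝ) ^ K) := by
        refine mul_le_mul_of_nonneg_left hpS ?_
        have h1 : 0 ≤ c3 / (K : ℝ) ^ K := by positivity
        have h2 : 0 ≤ p ^ N2 := pow_nonneg hp0 _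
        positivity
    _ = Real.exp (-(2 * Λ * m)) * (p ^ N2 * p ^ K) *
          ((c3 * (S.card : ℝ) ^ K / (K : ℝ) ^ K) * E p (fun ω => ind (Good l c S ω))) := by ring
    _ ≤ Real.exp (-(2 * Λ * m)) * (p ^ N2 * p ^ K) * E p (fun ω => ∑ β ∈ PP, f β ω) := by
        refine mul_le_mul_of_nonneg_left hcnt3 ?_
        have h2 : 0 ≤ p ^ N2 := pow_nonneg hp0 _
        have h3 : 0 ≤ p ^ K := pow_nonneg hp0 _
        positivity

end

end Pool.Agent.H624C
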