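import Pool.Agent.H624C.Basic

/-!
# ST: one step of the recursion at fixed `p` (helper89)
-/

set_option autoImplicit false

namespace Pool.Agent.H624C

open Finset
open scoped Classical

section

variable {n : ℕ}

private theorem E_ind_mem (h : S_incl) (p : ℝ) (e : Sym2 (Fin n)) :
    E p (fun ω : Om n => ind (e ∈ ω)) = p := by
  have h1 := h n p {e} (fun _ => 1) (fun _ => rfl)
  rw [Finset.card_singleton, pow_one, E_one, mul_one] at h1
  calc E p (fun ω : Om n => ind (e ∈ ω))
      = E p (fun ω : Om n => ind (({e} : Om n) ⊆ ω) * 1) := E_congr fun ω => by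
        rw [mul_one, ind_congr (Finset.singleton_subset_iff (s := ω) (a := e))]
    _ = p := h1

/-- `v` has a partner -/
private def Prt (R : Set (Col n)) (S : Finset (Fin n)) (ω : Om n) (v : Fin n) : Prop :=
  ∃ b ∈ S, b ≠ v ∧ Same R S ω v b

private theorem sqrt_X_le (R : Set (Col n)) (S K : Finset (Fin n)) (ω : Om n) :
    √(X R S ω : ℝ) ≤ (K.card : ℝ) + ∑ v ∈ S \ K, ind (Prt R S ω v) := by
  set P := S.filter (fun v => Prt R S ω v) with hP
  have h1 : X R S ω ≤ P.card ^ 2 := by
    unfold X
    rw [sq, ← Finset.card_product]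
    refine Finset.card_le_card fun q hq => ?_
    rw [Finset.mem_filter, Finset.mem_product] at hq
    rw [Finset.mem_product, hP, Finset.mem_filter, Finset.mem_filter]
    exact ⟨⟨hq.1.1, q.2, hq.1.2, hq.2.1.symm, hq.2.2⟩,
      ⟨hq.1.2, q.1, hq.1.1, hq.2.1, fun σ hσ => (hq.2.2 σ hσ).symm⟩⟩
  have h2 : √(X R S ω : ℝ) ≤ (P.card : ℝ) := by
    rw [Real.sqrt_le_left (Nat.cast_nonneg _)]
    exact_mod_cast h1
  refine h2.trans ?_
  have h3 : P ⊆ K ∪ (S \ K).filter (fun v => Prt R S ω v) := by
    intro v hv
    rw [hP, Finset.mem_filter] at hv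
    rw [Finset.mem_union]
    by_cases hK : v ∈ K
    · exact Or.inl hK
    · exact Or.inr (Finset.mem_filter.2 ⟨Finset.mem_sdiff.2 ⟨hv.1, hK⟩, hv.2⟩)
  have h4 := (Finset.card_le_card h3).trans (Finset.card_union_le _ _)
  have h5 := card_filter_eq_sum_ind (S \ K) (fun v => Prt R S ω v)
  rw [← h5]
  exact_mod_cast h4

private theorem partner_NC {S K : Finset (Fin n)} {R : Set (Col n)} {ω : Om n} {v : Fin n}
    (hvK : v ∉ K) (hR : Dep K R) (hprt : Prt R S ω v) :
    NC R (S.erase v) ω ((S.erase v).filter (fun z => s(v, z) ∈ ω)) := by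
  rintro σ hσ ⟨s, hs⟩
  obtain ⟨b, hbS, hbv, hsame⟩ := hprt
  have key : ∀ c : Fin 3, c ≠ s → c = σ b := by
    intro c hc
    have hsol : Function.update σ v c ∈ Sol R S ω := by
      refine ⟨?_, ?_⟩
      · intro x hx y hy hxy hm
        by_cases hxv : x = v
        · subst hxv
          rw [Function.update_self, Function.update_of_ne hxy.symm]
          have hyN : y ∈ (S.erase x).filter (fun z => s(x, z) ∈ ω) :=
            Finset.mem_filter.2 ⟨Finset.mem_erase.2 ⟨hxy.symm, hy⟩, hm⟩
          rw [hs y hyN]
          exact hc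
        · by_cases hyv : y = v
          · subst hyv
            rw [Function.update_self, Function.update_of_ne hxy]
            have hxN : x ∈ (S.erase y).filter (fun z => s(y, z) ∈ ω) :=
              Finset.mem_filter.2 ⟨Finset.mem_erase.2 ⟨hxy, hx⟩, by rw [Sym2.eq_swap]; exact hm⟩
            rw [hs x hxN]
            exact hc.symm
          · rw [Function.update_of_ne hxv, Function.update_of_ne hyv]
            exact hσ.1 x (Finset.mem_erase.2 ⟨hxv, hx⟩) y (Finset.mem_erase.2 ⟨hyv, hy⟩) hxy hm
      · refine (hR _ σ fun u hu => ?_).2 hσ.2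
        rw [Function.update_of_ne]
        rintro rfl
        exact hvK hu
    have := hsame _ hsol
    rwa [Function.update_self, Function.update_of_ne hbv] at this
  have h0 := key (s + 1) (by fin_cases s <;> decide)
  have h1 := key (s + 2) (by fin_cases s <;> decide)
  rw [← h1] at h0
  revert h0
  fin_cases s <;> decide

end

theorem S_step_thm (hE1 : S_E1) (h : S_incl) : S_step := by
  intro n p h0 h1 S K R hKS hR
  -- pointwise bound
  have hpt : ∀ ω : Om n, ind (Alive R S ω) * √(X R S ω : ℝ) ≤
      (K.card : ℝ) + ∑ v ∈ S \ K, ((∑ k ∈ K, ind (s(v, k) ∈ ω)) +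
        ∑ W ∈ ((S \ K).erase v).powerset,
          ind (W.image (fun w => s(v, w)) ⊆ ω) *
            ind (Alive R (S.erase v) ω ∧ NC R (S.erase v) ω W)) := by
    intro ω
    have hnn : ∀ v ∈ S \ K, 0 ≤ ((∑ k ∈ K, ind (s(v, k) ∈ ω)) +
        ∑ W ∈ ((S \ K).erase v).powerset,
          ind (W.image (fun w => s(v, w)) ⊆ ω) *
            ind (Alive R (S.erase v) ω ∧ NC R (S.erase v) ω W)) := fun v _ =>
      add_nonneg (Finset.sum_nonneg fun _ _ => ind_nonneg _)
        (Finset.sum_nonneg fun _ _ => mul_nonneg (ind_nonneg _) (ind_nonneg _))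
    by_cases hal : Alive R S ω
    · rw [ind_true hal, one_mul]
      refine (sqrt_X_le R S K ω).trans ?_
      refine add_le_add le_rfl (Finset.sum_le_sum fun v hv => ?_)
      by_cases hprt : Prt R S ω v
      · rw [ind_true hprt]
        rw [Finset.mem_sdiff] at hv
        have hNC := partner_NC hv.2 hR hprt
        set N := (S.erase v).filter (fun z => s(v, z) ∈ ω) with hN
        by_cases hk : ∃ k ∈ K, s(v, k) ∈ ω
        · obtain ⟨k, hk, hm⟩ := hk
          have h2 : (1 : ℝ) ≤ ∑ k ∈ K, ind (s(v, k) ∈ ω) := by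
            rw [← ind_true hm]
            exact Finset.single_le_sum (f := fun k => ind (s(v, k) ∈ ω))
              (fun _ _ => ind_nonneg _) hk
          have h3 : 0 ≤ ∑ W ∈ ((S \ K).erase v).powerset,
              ind (W.image (fun w => s(v, w)) ⊆ ω) *
                ind (Alive R (S.erase v) ω ∧ NC R (S.erase v) ω W) :=
            Finset.sum_nonneg fun _ _ => mul_nonneg (ind_nonneg _) (ind_nonneg _)
          linarith
        · push Not at hk
          have hNmem : N ∈ ((S \ K).erase v).powerset := by
            rw [Finset.mem_powerset]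
            intro z hz
            rw [hN, Finset.mem_filter, Finset.mem_erase] at hz
            rw [Finset.mem_erase, Finset.mem_sdiff]
            exact ⟨hz.1.1, hz.1.2, fun hzK => hk z hzK hz.2⟩
          have hsub : N.image (fun w => s(v, w)) ⊆ ω := by
            intro e he
            rw [Finset.mem_image] at he
            obtain ⟨w, hw, rfl⟩ := he
            exact (Finset.mem_filter.1 hw).2
          have hal' : Alive R (S.erase v) ω := hal.mono (Finset.erase_subset v S)
          have h2 : (1 : ℝ) ≤ ∑ W ∈ ((S \ K).erase v).powerset,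
              ind (W.image (fun w => s(v, w)) ⊆ ω) *
                ind (Alive R (S.erase v) ω ∧ NC R (S.erase v) ω W) := by
            have h4 : (1 : ℝ) = ind (N.image (fun w => s(v, w)) ⊆ ω) *
                ind (Alive R (S.erase v) ω ∧ NC R (S.erase v) ω N) := by
              rw [ind_true hsub, ind_true ⟨hal', hNC⟩]; norm_num
            conv_lhs => rw [h4]
            exact Finset.single_le_sum (f := fun W : Finset (Fin n) =>
              ind (W.image (fun w => s(v, w)) ⊆ ω) *
                ind (Alive R (S.erase v) ω ∧ NC R (S.erase v) ω W))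
              (fun _ _ => mul_nonneg (ind_nonneg _) (ind_nonneg _)) hNmem
          have h3 : 0 ≤ ∑ k ∈ K, ind (s(v, k) ∈ ω) :=
            Finset.sum_nonneg fun _ _ => ind_nonneg _
          linarith
      · rw [ind_false hprt]
        exact hnn v hv
    · rw [ind_false hal, zero_mul]
      exact add_nonneg (Nat.cast_nonneg _) (Finset.sum_nonneg hnn)
  refine (E_mono h0 h1 hpt).trans ?_
  rw [E_add, E_const]
  refine add_le_add le_rfl ?_
  rw [E_sum]
  refine Finset.sum_le_sum fun v hv => ?_
  rw [Finset.mem_sdiff] at hv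
  rw [E_add]
  refine add_le_add ?_ ?_
  · rw [E_sum]
    have : ∀ k ∈ K, E p (fun ω : Om n => ind (s(v, k) ∈ ω)) = p := fun k _ => E_ind_mem h p _
    rw [Finset.sum_congr rfl this, Finset.sum_const, nsmul_eq_mul]
  · rw [E_sum]
    refine Finset.sum_le_sum fun W hW => ?_
    rw [Finset.mem_powerset] at hW
    have hWS : W ⊆ S.erase v := fun w hw => by
      have := Finset.mem_erase.1 (hW hw)
      exact Finset.mem_erase.2 ⟨this.1, (Finset.mem_sdiff.1 this.2).1⟩
    have hWK : Disjoint W K := by
      rw [Finset.disjoint_left]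
      intro w hw hwK
      exact (Finset.mem_sdiff.1 (Finset.mem_erase.1 (hW hw)).2).2 hwK
    have hKS' : K ⊆ S.erase v := fun k hk =>
      Finset.mem_erase.2 ⟨fun he => hv.2 (he ▸ hk), hKS hk⟩
    have hloc : ∀ a ∈ S.erase v, ∀ b ∈ S.erase v,
        s(a, b) ∉ (W.image (fun w => s(v, w)) : Om n) := by
      intro a ha b hb hm
      rw [Finset.mem_image] at hm
      obtain ⟨w, hw, he⟩ := hm
      rw [Sym2.eq_iff] at he
      rcases he with ⟨he, _⟩ | ⟨he, _⟩
      · exact (Finset.mem_erase.1 ha).1 he.symm
      · exact (Finset.mem_erase.1 hb).1 he.symm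
    have hinc := h n p (W.image (fun w => s(v, w)))
      (fun ω => ind (Alive R (S.erase v) ω ∧ NC R (S.erase v) ω W)) ?_
    · rw [hinc]
      have hcard : (W.image (fun w => s(v, w))).card = W.card := by
        refine Finset.card_image_of_injOn fun w _ w' _ he => ?_
        have he' : s(v, w) = s(v, w') := he
        rw [Sym2.eq_iff] at he'
        rcases he' with ⟨_, he'⟩ | ⟨he1, he2⟩
        · exact he'
        · exact he2.trans he1
      rw [hcard]
      exact mul_le_mul_of_nonneg_left (hE1 n p h0 h1 (S.erase v) K W R hKS' hWS hWK hR)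
        (pow_nonneg h0 _)
    · intro ω
      have e1 := Sol_sdiff (ω := ω) R hloc
      refine ind_congr ?_
      unfold Alive NC
      rw [e1]

end Pool.Agent.H624C
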