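import Pool.Agent.H624C.Defs

/-! Task SU: supersaturation. -/

set_option autoImplicit false

namespace Pool.Agent.H624C

open Finset
open scoped Classical

lemma su_sum_cons {A : Type} [Fintype A] (N : ℕ) (f : (Fin (N + 1) → A) → ℝ) :
    ∑ y, f y = ∑ x : A, ∑ u : Fin N → A, f (Fin.cons x u) := by
  rw [← (Fin.consEquiv (fun _ => A)).sum_comp, Fintype.sum_prod_type]
  rfl

/-- power mean for sums over a finite type -/
lemma su_mean {A : Type} [Fintype A] (M : ℝ) (hM : 0 < M) (hA : (Fintype.card A : ℝ) = M)
    (z : A → ℝ) (hz : ∀ a, 0 ≤ z a) (k : ℕ) (b : ℝ) (hb : 0 ≤ b) (h : b * M ≤ ∑ a, z a) :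
    b ^ k * M ≤ ∑ a, z a ^ k := by
  have h1 := Real.pow_arith_mean_le_arith_mean_pow (univ : Finset A) (fun _ => 1 / M) z
    (fun _ _ => by positivity) (by rw [sum_const, card_univ, nsmul_eq_mul, hA]; field_simp)
    (fun a _ => hz a) k
  rw [← mul_sum, ← mul_sum] at h1
  have h2 : b ≤ 1 / M * ∑ a, z a := by
    rw [one_div, inv_mul_eq_div, le_div_iff₀ hM]; exact h
  have h3 : b ^ k ≤ 1 / M * ∑ a, z a ^ k := (pow_le_pow_left₀ hb h2 k).trans h1
  rw [one_div, inv_mul_eq_div, le_div_iff₀ hM] at h3
  exact h3

theorem SU_thm : S_super := by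
  intro N
  induction N with
  | zero =>
    intro Q Z _ _ F β hβ hZ h
    simp only [pow_zero, mul_one, pow_one, zero_mul] at h ⊢
    refine h.trans ?_
    have e1 : ((univ : Finset (Fin 0 → Z)).filter F).card =
        ((univ : Finset (Fin 0 → Q → Z)).filter
          (fun y => ∀ J : Fin 0 → Q, F (fun i => y i (J i)))).card := by
      by_cases hF : F default
      · have h1 : ∀ u, F u := fun u => by rw [Subsingleton.elim u default]; exact hF
        simp [h1]
      · have h1 : ∀ u, ¬ F u := fun u => by rw [Subsingleton.elim u default]; exact hF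
        simp [h1]
    rw [e1]
  | succ N ih =>
    intro Q Z _ _ F β hβ hZ h
    have hZr : (0 : ℝ) < Fintype.card Z := by exact_mod_cast hZ
    set q := Fintype.card Q with hq
    -- the slices
    obtain ⟨F', hF'⟩ : ∃ G : (Q → Z) → (Fin N → Z) → Prop,
      ∀ xs u, G xs u ↔ ∀ j, F (Fin.cons (xs j) u) := ⟨_, fun _ _ => Iff.rfl⟩
    let cn : (Q → Z) → ℝ := fun xs => (((univ : Finset (Fin N → Z)).filter (F' xs)).card : ℝ)
    let cy : (Q → Z) → ℝ := fun xs => (((univ : Finset (Fin N → Q → Z)).filter
      (fun y => ∀ J : Fin N → Q, F' xs (fun i => y i (J i)))).card : ℝ)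
    have hih : ∀ xs, (cn xs / (Fintype.card Z : ℝ) ^ N) ^ (q ^ N) *
        (Fintype.card Z : ℝ) ^ (N * q) ≤ cy xs := by
      intro xs
      apply ih Q Z (F' xs) _ (by positivity) hZ
      rw [div_mul_cancel₀ _ (by positivity)]
    -- total
    have htot : (((univ : Finset (Fin (N + 1) → Q → Z)).filter
        (fun y => ∀ J : Fin (N + 1) → Q, F (fun i => y i (J i)))).card : ℝ) = ∑ xs, cy xs := by
      rw [natCast_card_filter, su_sum_cons]
      refine sum_congr rfl fun xs _ => ?_
      rw [show cy xs = _ from natCast_card_filter _ _]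
      refine sum_congr rfl fun ys _ => ?_
      refine if_congr ?_ rfl rfl
      constructor
      · intro H J
        rw [hF']
        intro j
        have := H (Fin.cons j J)
        convert this using 1
        funext i
        refine Fin.cases ?_ (fun i => ?_) i <;> simp
      · intro H J
        have := (hF' _ _).1 (H (fun i => J i.succ)) (J 0)
        convert this using 1
        funext i
        refine Fin.cases ?_ (fun i => ?_) i <;> simp
    -- average of the densities
    have hd : β * ((Fintype.card Z : ℝ) ^ N) ≤ ∑ u : Fin N → Z,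
        ((((univ : Finset Z).filter (fun x => F (Fin.cons x u))).card : ℝ) / Fintype.card Z) := by
      rw [← sum_div, le_div_iff₀ hZr]
      refine le_trans (le_of_eq (by ring)) (h.trans (le_of_eq ?_))
      rw [natCast_card_filter, su_sum_cons, sum_comm]
      refine sum_congr rfl fun u _ => ?_
      rw [natCast_card_filter]
    have hd2 := su_mean (A := Fin N → Z) ((Fintype.card Z : ℝ) ^ N) (by positivity)
      (by simp) _ (fun u => by positivity) q β hβ hd
    have hd3 : β ^ q * (Fintype.card Z : ℝ) ^ q ≤
        ∑ xs : Q → Z, cn xs / (Fintype.card Z : ℝ) ^ N := by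
      have e1 : ∑ xs : Q → Z, cn xs = ∑ u : Fin N → Z,
          (((univ : Finset Z).filter (fun x => F (Fin.cons x u))).card : ℝ) ^ q := by
        have e2 : ∀ xs, cn xs = ∑ u : Fin N → Z, if F' xs u then (1 : ℝ) else 0 :=
          fun xs => natCast_card_filter _ _
        rw [sum_congr rfl fun xs _ => e2 xs, sum_comm]
        refine sum_congr rfl fun u _ => ?_
        rw [← natCast_card_filter, ← Nat.cast_pow, hq]
        have e4 : ((univ : Finset (Q → Z)).filter (fun xs => F' xs u)) =
            Fintype.piFinset (fun _ : Q => (univ : Finset Z).filter (fun x => F (Fin.cons x u))) := by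
          ext xs
          simp [hF', Fintype.mem_piFinset]
        rw [e4, Fintype.card_piFinset, prod_const, card_univ]
      rw [← sum_div, e1, le_div_iff₀ (by positivity)]
      have e3 : ∑ u : Fin N → Z,
          ((((univ : Finset Z).filter (fun x => F (Fin.cons x u))).card : ℝ) / Fintype.card Z) ^ q =
          (∑ u : Fin N → Z,
          (((univ : Finset Z).filter (fun x => F (Fin.cons x u))).card : ℝ) ^ q) /
            (Fintype.card Z : ℝ) ^ q := by
        rw [sum_div]
        exact sum_congr rfl fun u _ => div_pow _ _ _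
      rw [e3, le_div_iff₀ (by positivity)] at hd2
      linarith
    have hd4 := su_mean (A := Q → Z) ((Fintype.card Z : ℝ) ^ q) (by positivity)
      (by simp [hq]) _ (fun u => by positivity) (q ^ N) (β ^ q) (by positivity) hd3
    rw [htot]
    calc β ^ (q ^ (N + 1)) * (Fintype.card Z : ℝ) ^ ((N + 1) * q)
        = ((β ^ q) ^ q ^ N * (Fintype.card Z : ℝ) ^ q) * (Fintype.card Z : ℝ) ^ (N * q) := by
          rw [← pow_mul, pow_succ, mul_comm (q ^ N) q, add_mul, one_mul, pow_add]
          ring
      _ ≤ (∑ xs : Q → Z, (cn xs / (Fintype.card Z : ℝ) ^ N) ^ (q ^ N)) *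
            (Fintype.card Z : ℝ) ^ (N * q) :=
          mul_le_mul_of_nonneg_right hd4 (by positivity)
      _ = ∑ xs : Q → Z, (cn xs / (Fintype.card Z : ℝ) ^ N) ^ (q ^ N) *
            (Fintype.card Z : ℝ) ^ (N * q) := sum_mul _ _ _
      _ ≤ ∑ xs, cy xs := sum_le_sum fun xs _ => hih xs

end Pool.Agent.H624C
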