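import Pool.Agent.H624C.Basic

/-!
# TR: transfer from the label process to uniform orderings of the edges
-/

set_option autoImplicit false

namespace Pool.Agent.H624C

open Finset
open scoped Classical

namespace TR

/-- the edges of the complete graph -/
abbrev Ed (n : ℕ) := (⊤ : SimpleGraph (Fin n)).edgeSet

/-- orderings of the edges -/
abbrev Og (n : ℕ) := Fin (Nat.card (Ed n)) ≃ Ed n

/-- a monotone function on `Fin N`: the places with value `< t` form an initial segment -/
theorem exists_cut {N : ℕ} (g : Fin N → ℕ) (hg : Monotone g) (t : ℕ) :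
    ∃ m : ℕ, ∀ i : Fin N, g i < t ↔ (i : ℕ) < m := by
  have hex : ∃ m : ℕ, ∀ i : Fin N, m ≤ (i : ℕ) → t ≤ g i :=
    ⟨N, fun i hi => absurd i.isLt (by omega)⟩
  refine ⟨Nat.find hex, fun i => ?_⟩
  constructor
  · intro h
    by_contra hc
    have := Nat.find_spec hex i (by omega)
    omega
  · intro h
    by_contra hc
    have := Nat.find_min' hex (m := (i : ℕ)) (fun j hj => le_trans (by omega) (hg hj))
    omega

/-- an ordering along which the labels are monotone -/
theorem exists_sorted {n M : ℕ} (T : Lab n M) :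
    ∃ σ : Og n, Monotone (fun i => (T (σ i).val : ℕ)) := by
  obtain ⟨e0⟩ : Nonempty (Og n) := ⟨(Finite.equivFin (Ed n)).symm⟩
  refine ⟨(Tuple.sort (fun i => (T (e0 i).val : ℕ))).trans e0, ?_⟩
  exact Tuple.monotone_sort (fun i => (T (e0 i).val : ℕ))

/-- extension of a permutation of the edges to all pairs -/
noncomputable def ex {n : ℕ} (π : Equiv.Perm (Ed n)) : Equiv.Perm (Sym2 (Fin n)) :=
  Equiv.Perm.ofSubtype π

theorem ex_symm {n : ℕ} (π : Equiv.Perm (Ed n)) (e : Ed n) :
    (ex π).symm e.val = (π.symm e).val := by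
  rw [Equiv.symm_apply_eq]
  unfold ex
  rw [Equiv.Perm.ofSubtype_apply_coe, Equiv.apply_symm_apply]

/-- the stages of the label process are stages of the sorted ordering -/
theorem stage_eq {n M : ℕ} (T : Lab n M) (σ : Og n)
    (hσ : Monotone (fun i => (T (σ i).val : ℕ))) (π : Equiv.Perm (Ed n)) (t : ℕ) :
    ∃ m : ℕ, SimpleGraph.fromEdgeSet
      (op t (fun e => T ((ex π).symm e)) : Set (Sym2 (Fin n))) = Stage (σ.trans π) m := by
  obtain ⟨m, hm⟩ := exists_cut _ hσ t
  refine ⟨m, ?_⟩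
  ext v w
  unfold Stage
  rw [SimpleGraph.fromEdgeSet_adj, SimpleGraph.fromEdgeSet_adj]
  refine and_congr_left fun hvw => ?_
  have hmem : s(v, w) ∈ (⊤ : SimpleGraph (Fin n)).edgeSet := by
    rw [SimpleGraph.mem_edgeSet]
    exact hvw
  have h1 : (s(v, w) ∈ (op t (fun e => T ((ex π).symm e)) : Set (Sym2 (Fin n)))) ↔
      ((T ((ex π).symm s(v, w)) : ℕ) < t) := by
    rw [Finset.mem_coe]
    unfold op
    rw [Finset.mem_filter]
    exact ⟨fun h => h.2, fun h => ⟨Finset.mem_univ _, h⟩⟩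
  rw [h1, Set.mem_ofPred_eq]
  have h2 := ex_symm π ⟨s(v, w), hmem⟩
  simp only at h2
  rw [h2]
  have h3 := hm (σ.symm (π.symm ⟨s(v, w), hmem⟩))
  rw [Equiv.apply_symm_apply] at h3
  rw [h3]
  constructor
  · intro h
    refine ⟨_, h, ?_⟩
    rw [Equiv.trans_apply, Equiv.apply_symm_apply, Equiv.apply_symm_apply]
  · rintro ⟨i, hi, he⟩
    have h4 : (σ.trans π) i = ⟨s(v, w), hmem⟩ := Subtype.ext he
    rw [Equiv.trans_apply] at h4
    rw [← h4, Equiv.symm_apply_apply, Equiv.symm_apply_apply]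
    exact hi

/-- composition with an ordering -/
def tr {n : ℕ} (σ : Og n) : Equiv.Perm (Ed n) ≃ Og n where
  toFun π := σ.trans π
  invFun τ := σ.symm.trans τ
  left_inv π := Equiv.ext fun x => congrArg π (σ.apply_symm_apply x)
  right_inv τ := Equiv.ext fun x => congrArg τ (σ.symm_apply_apply x)

end TR

open TR

/-- TR: the label process visits `B` at most as often as the uniform process -/
theorem TR_thm : S_transfer := by
  intro n M hM B
  have : Fintype (Ed n) := Fintype.ofFinite _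
  have : Fintype (Og n) := Fintype.ofFinite _
  have : Fintype (Equiv.Perm (Ed n)) := Fintype.ofFinite _
  set Q : Lab n M → Prop := fun T =>
    ∃ t : ℕ, B (SimpleGraph.fromEdgeSet (op t T : Set (Sym2 (Fin n)))) with hQ
  set Gd : Og n → Prop := fun σ => ∃ m : ℕ, B (Stage σ m) with hGd
  choose σ hσ using fun T : Lab n M => exists_sorted T
  have hkey : ∀ (T : Lab n M) (π : Equiv.Perm (Ed n)),
      ind (Q (fun e => T ((ex π).symm e))) ≤ ind (Gd ((σ T).trans π)) := by
    intro T π
    refine ind_mono ?_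
    rintro ⟨t, ht⟩
    obtain ⟨m, hm⟩ := stage_eq T (σ T) (hσ T) π t
    rw [hm] at ht
    exact ⟨m, ht⟩
  have hinv : ∀ π : Equiv.Perm (Ed n),
      ∑ T : Lab n M, ind (Q (fun e => T ((ex π).symm e))) = ∑ T : Lab n M, ind (Q T) := by
    intro π
    exact Equiv.sum_comp (Equiv.arrowCongr (ex π) (Equiv.refl (Fin M))) (fun T => ind (Q T))
  have hG : (Nat.card {τ : Og n // Gd τ} : ℝ) = ∑ τ : Og n, ind (Gd τ) := by
    rw [Nat.card_eq_fintype_card, Fintype.card_subtype, card_filter_eq_sum_ind]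
  have hcardP : Fintype.card (Equiv.Perm (Ed n)) = Nat.card (Og n) := by
    rw [Nat.card_eq_fintype_card]
    obtain ⟨e0⟩ : Nonempty (Og n) := ⟨(Finite.equivFin (Ed n)).symm⟩
    exact Fintype.card_congr (tr e0)
  have hmain : (Nat.card (Og n) : ℝ) * ∑ T : Lab n M, ind (Q T) ≤
      (M : ℝ) ^ Fintype.card (Sym2 (Fin n)) * (Nat.card {τ : Og n // Gd τ} : ℝ) := by
    calc (Nat.card (Og n) : ℝ) * ∑ T : Lab n M, ind (Q T)
        = ∑ π : Equiv.Perm (Ed n), ∑ T : Lab n M, ind (Q (fun e => T ((ex π).symm e))) := by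
          rw [Finset.sum_congr rfl fun π _ => hinv π, Finset.sum_const, Finset.card_univ,
            hcardP, nsmul_eq_mul]
      _ = ∑ T : Lab n M, ∑ π : Equiv.Perm (Ed n), ind (Q (fun e => T ((ex π).symm e))) :=
          Finset.sum_comm
      _ ≤ ∑ T : Lab n M, ∑ π : Equiv.Perm (Ed n), ind (Gd ((σ T).trans π)) :=
          Finset.sum_le_sum fun T _ => Finset.sum_le_sum fun π _ => hkey T π
      _ = ∑ T : Lab n M, (Nat.card {τ : Og n // Gd τ} : ℝ) := by
          refine Finset.sum_congr rfl fun T _ => ?_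
          rw [hG]
          exact Equiv.sum_comp (tr (σ T)) (fun τ => ind (Gd τ))
      _ = (M : ℝ) ^ Fintype.card (Sym2 (Fin n)) * (Nat.card {τ : Og n // Gd τ} : ℝ) := by
          rw [Finset.sum_const, Finset.card_univ, Fintype.card_fun, Fintype.card_fin, nsmul_eq_mul]
          push_cast
          rfl
  have hM0 : (0 : ℝ) < (M : ℝ) ^ Fintype.card (Sym2 (Fin n)) := by
    have : (0 : ℝ) < M := by exact_mod_cast hM
    positivity
  have hN0 : (0 : ℝ) < (Nat.card (Og n) : ℝ) := by
    have h1 : Nonempty (Og n) := ⟨(Finite.equivFin (Ed n)).symm⟩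
    exact_mod_cast Nat.card_pos
  show (∑ T : Lab n M, ind (Q T)) / (M : ℝ) ^ Fintype.card (Sym2 (Fin n)) ≤
    (Nat.card {τ : Og n // Gd τ} : ℝ) / (Nat.card (Og n) : ℝ)
  rw [div_le_div_iff₀ hM0 hN0]
  linarith

end Pool.Agent.H624C
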