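import Pool.Agent.H624C.Basic

/-!
# Task VI: visits of a set with many killing pairs
-/

set_option autoImplicit false

namespace Pool.Agent.H624C

open Finset
open scoped Classical

namespace VI

variable {n M : ℕ}

theorem cf {ι : Type*} (s : Finset ι) (P : ι → Prop) [DecidablePred P] :
    ((s.filter P).card : ℝ) = ∑ i ∈ s, ind (P i) := by
  rw [Finset.card_filter]
  push_cast
  apply Finset.sum_congr rfl
  intro i _
  by_cases h : P i <;> simp [ind, h]

/-- the unordered killing pairs -/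
noncomputable def Xs (R : Set (Col n)) (S : Finset (Fin n)) (ω : Om n) : Finset (Sym2 (Fin n)) :=
  univ.filter (fun e => ∃ a ∈ S, ∃ b ∈ S, a ≠ b ∧ e = s(a, b) ∧ Same R S ω a b)

theorem X_le (R : Set (Col n)) (S : Finset (Fin n)) (ω : Om n) :
    X R S ω ≤ 2 * (Xs R S ω).card := by
  unfold X
  set F := (S ×ˢ S).filter (fun q => q.1 ≠ q.2 ∧ Same R S ω q.1 q.2) with hF
  have h1 : F.card ≤ 2 * (F.image (fun q : Fin n × Fin n => s(q.1, q.2))).card := by
    apply Finset.card_le_mul_card_image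
    intro e _
    induction e using Sym2.ind with
    | _ a b =>
      refine (Finset.card_le_card (t := {(a, b), (b, a)}) ?_).trans Finset.card_le_two
      intro q hq
      rw [Finset.mem_filter] at hq
      have h2 := hq.2
      rw [Sym2.eq_iff] at h2
      rw [Finset.mem_insert, Finset.mem_singleton]
      rcases h2 with ⟨h3, h4⟩ | ⟨h3, h4⟩
      · exact Or.inl (Prod.ext h3 h4)
      · exact Or.inr (Prod.ext h3 h4)
  refine h1.trans (Nat.mul_le_mul_left 2 (Finset.card_le_card ?_))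
  intro e he
  obtain ⟨q, hq, rfl⟩ := Finset.mem_image.1 he
  rw [hF, Finset.mem_filter, Finset.mem_product] at hq
  rw [Xs, Finset.mem_filter]
  exact ⟨Finset.mem_univ _, q.1, hq.1.1, q.2, hq.1.2, hq.2.1, rfl, hq.2.2⟩

theorem op_mono {t t' : ℕ} (h : t ≤ t') (T : Lab n M) : op t T ⊆ op t' T := by
  intro e he
  unfold op at he ⊢
  rw [Finset.mem_filter] at he ⊢
  exact ⟨he.1, lt_of_lt_of_le he.2 h⟩

theorem Proper_anti {ω ω' : Om n} (h : ω ⊆ ω') {S : Finset (Fin n)} {σ : Col n}
    (hσ : Proper ω' S σ) : Proper ω S σ :=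
  fun a ha b hb hab hm => hσ a ha b hb hab (h hm)

theorem Sol_anti {ω ω' : Om n} (h : ω ⊆ ω') (R : Set (Col n)) (S : Finset (Fin n)) :
    Sol R S ω' ⊆ Sol R S ω := fun _ hσ => ⟨Proper_anti h hσ.1, hσ.2⟩

theorem Alive_anti {ω ω' : Om n} (h : ω ⊆ ω') {R : Set (Col n)} {S : Finset (Fin n)}
    (hA : Alive R S ω') : Alive R S ω := by
  obtain ⟨σ, hσ⟩ := hA
  exact ⟨σ, Sol_anti h R S hσ⟩

theorem X_mono {ω ω' : Om n} (h : ω ⊆ ω') (R : Set (Col n)) (S : Finset (Fin n)) :
    X R S ω ≤ X R S ω' := by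
  unfold X
  apply Finset.card_le_card
  intro q hq
  rw [Finset.mem_filter] at hq ⊢
  exact ⟨hq.1, hq.2.1, fun σ hσ => hq.2.2 σ (Sol_anti h R S hσ)⟩

/-- a killing pair of an alive configuration is not in it -/
theorem notMem_of_Xs {R : Set (Col n)} {S : Finset (Fin n)} {ω : Om n} (hA : Alive R S ω)
    {e : Sym2 (Fin n)} (he : e ∈ Xs R S ω) : e ∉ ω := by
  rw [Xs, Finset.mem_filter] at he
  obtain ⟨_, a, ha, b, hb, hab, rfl, hs⟩ := he
  obtain ⟨σ, hσ⟩ := hA
  intro hm
  exact hσ.1 a ha b hb hab hm (hs σ hσ)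

/-- adding a killing pair kills -/
theorem dead_of_Xs {R : Set (Col n)} {S : Finset (Fin n)} {ω ω' : Om n} (h : ω ⊆ ω')
    {e : Sym2 (Fin n)} (he : e ∈ Xs R S ω) (he' : e ∈ ω') : ¬ Alive R S ω' := by
  rw [Xs, Finset.mem_filter] at he
  obtain ⟨_, a, ha, b, hb, hab, rfl, hs⟩ := he
  rintro ⟨σ, hσ⟩
  exact hσ.1 a ha b hb hab he' (hs σ (Sol_anti h R S hσ))

/-- `H t T` depends only on the labels truncated at `t` -/
def Adapted (H : ℕ → Lab n M → Prop) : Prop :=
  ∀ (t : ℕ) (T T' : Lab n M), (∀ e, T e = T' e ∨ (t ≤ (T e : ℕ) ∧ t ≤ (T' e : ℕ))) →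
    (H t T ↔ H t T')

theorem op_congr {t : ℕ} {T T' : Lab n M}
    (h : ∀ e, T e = T' e ∨ (t ≤ (T e : ℕ) ∧ t ≤ (T' e : ℕ))) : op t T = op t T' := by
  unfold op
  apply Finset.filter_congr
  intro e _
  rcases h e with h | h
  · rw [h]
  · omega

/-- one step of the process -/
theorem step_e {H : ℕ → Lab n M → Prop} (hH : Adapted H) {R : Set (Col n)}
    {S : Finset (Fin n)} (hal : ∀ t T, H t T → Alive R S (op t T)) (t : ℕ) (ht : t < M)
    (e : Sym2 (Fin n)) :
    ((univ : Finset (Lab n M)).filter (fun T => H t T ∧ e ∈ Xs R S (op t T))).card ≤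
      M * ((univ : Finset (Lab n M)).filter
        (fun T => H t T ∧ e ∈ Xs R S (op t T) ∧ (T e : ℕ) = t)).card := by
  set A := (univ : Finset (Lab n M)).filter (fun T => H t T ∧ e ∈ Xs R S (op t T)) with hA
  set C := (univ : Finset (Lab n M)).filter
        (fun T => H t T ∧ e ∈ Xs R S (op t T) ∧ (T e : ℕ) = t) with hC
  have h1 : A.card ≤ ((univ : Finset (Fin M)) ×ˢ C).card := by
    apply Finset.card_le_card_of_injOn (fun T => (T e, Function.update T e ⟨t, ht⟩))
    · intro T hT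
      rw [Finset.mem_coe, hA, Finset.mem_filter] at hT
      have hge : t ≤ (T e : ℕ) := by
        have h2 := notMem_of_Xs (hal t T hT.2.1) hT.2.2
        unfold op at h2
        rw [Finset.mem_filter] at h2
        by_contra h3
        exact h2 ⟨Finset.mem_univ _, by omega⟩
      have hag : ∀ e', T e' = Function.update T e ⟨t, ht⟩ e' ∨
          (t ≤ (T e' : ℕ) ∧ t ≤ (Function.update T e ⟨t, ht⟩ e' : ℕ)) := by
        intro e'
        by_cases h4 : e' = e
        · subst h4
          right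
          rw [Function.update_self]
          exact ⟨hge, le_refl _⟩
        · left
          rw [Function.update_of_ne h4]
      rw [Finset.mem_coe, Finset.mem_product, hC, Finset.mem_filter]
      refine ⟨Finset.mem_univ _, Finset.mem_univ _, (hH t _ _ hag).1 hT.2.1, ?_, ?_⟩
      · rw [← op_congr hag]; exact hT.2.2
      · show ((Function.update T e ⟨t, ht⟩ e : Fin M) : ℕ) = t
        rw [Function.update_self]
    · intro T _ T' _ h
      rw [Prod.mk.injEq] at h
      funext e'
      by_cases h4 : e' = e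
      · rw [h4]; exact h.1
      · have := congrFun h.2 e'
        rwa [Function.update_of_ne h4, Function.update_of_ne h4] at this
  rwa [Finset.card_product, Finset.card_univ, Fintype.card_fin] at h1

/-- coincidences of the labels -/
noncomputable def coin (T : Lab n M) : ℕ :=
  ((univ : Finset (Sym2 (Fin n) × Sym2 (Fin n))).filter
    (fun q => q.1 ≠ q.2 ∧ T q.1 = T q.2)).card

theorem sum_coin : M * ∑ T : Lab n M, coin T ≤
    Fintype.card (Sym2 (Fin n)) ^ 2 * M ^ Fintype.card (Sym2 (Fin n)) := by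
  have h1 : ∑ T : Lab n M, coin T = ∑ q : Sym2 (Fin n) × Sym2 (Fin n),
      ((univ : Finset (Lab n M)).filter (fun T => q.1 ≠ q.2 ∧ T q.1 = T q.2)).card := by
    unfold coin
    simp only [Finset.card_filter]
    exact Finset.sum_comm
  rw [h1, Finset.mul_sum]
  have h2 : ∀ q ∈ (univ : Finset (Sym2 (Fin n) × Sym2 (Fin n))),
      M * ((univ : Finset (Lab n M)).filter (fun T => q.1 ≠ q.2 ∧ T q.1 = T q.2)).card ≤
        M ^ Fintype.card (Sym2 (Fin n)) := by
    intro q _
    by_cases hq : q.1 = q.2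
    · have : (univ : Finset (Lab n M)).filter (fun T => q.1 ≠ q.2 ∧ T q.1 = T q.2) = ∅ := by
        apply Finset.filter_false_of_mem
        intro T _ h
        exact h.1 hq
      rw [this]
      simp
    · have h3 : ((univ : Finset (Fin M)) ×ˢ ((univ : Finset (Lab n M)).filter
          (fun T => q.1 ≠ q.2 ∧ T q.1 = T q.2))).card ≤ (univ : Finset (Lab n M)).card := by
        apply Finset.card_le_card_of_injOn (fun z => Function.update z.2 q.1 z.1)
        · intro z _
          exact Finset.mem_coe.2 (Finset.mem_univ _)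
        · rintro ⟨j, T⟩ h ⟨j', T'⟩ h' he
          rw [Finset.mem_coe, Finset.mem_product, Finset.mem_filter] at h h'
          have hT := h.2.2.2
          have hT' := h'.2.2.2
          simp only at hT hT' he
          have e1 : j = j' := by
            have := congrFun he q.1
            rwa [Function.update_self, Function.update_self] at this
          have e2 : ∀ e, e ≠ q.1 → T e = T' e := by
            intro e hne
            have := congrFun he e
            rwa [Function.update_of_ne hne, Function.update_of_ne hne] at this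
          have e3 : T = T' := by
            funext e
            by_cases hne : e = q.1
            · rw [hne, hT, hT']
              exact e2 q.2 (Ne.symm hq)
            · exact e2 e hne
          rw [e1, e3]
      rw [Finset.card_product, Finset.card_univ, Fintype.card_fin, Finset.card_univ,
        Fintype.card_fun, Fintype.card_fin] at h3
      exact h3
  refine (Finset.sum_le_sum h2).trans ?_
  rw [Finset.sum_const, Finset.card_univ, Fintype.card_prod, smul_eq_mul, sq]

/-- for fixed labels: the number of killing pairs at the killing time -/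
theorem fixed_T {H : ℕ → Lab n M → Prop} {R : Set (Col n)}
    {S : Finset (Fin n)} (hal : ∀ t T, H t T → Alive R S (op t T)) (t1 : ℕ) (T : Lab n M) :
    ∑ t ∈ range t1, ∑ e : Sym2 (Fin n),
      ind (H t T ∧ e ∈ Xs R S (op t T) ∧ (T e : ℕ) = t) ≤
      ind (∃ t, t < t1 ∧ H t T) + (coin T : ℝ) := by
  by_cases hex : ∃ t ∈ range t1, ∃ e : Sym2 (Fin n), H t T ∧ e ∈ Xs R S (op t T) ∧ (T e : ℕ) = t
  · obtain ⟨t, ht, e, hH, he, hTe⟩ := hex
    have h0 : ∀ t' ∈ range t1, t' ≠ t → ∑ e' : Sym2 (Fin n),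
        ind (H t' T ∧ e' ∈ Xs R S (op t' T) ∧ (T e' : ℕ) = t') = 0 := by
      intro t' _ hne
      apply Finset.sum_eq_zero
      intro e' _
      apply ind_false
      rintro ⟨hH', he', hTe'⟩
      rcases lt_or_gt_of_ne hne with hlt | hlt
      · refine dead_of_Xs (op_mono hlt.le T) he' ?_ (hal t T hH)
        rw [op, Finset.mem_filter]
        exact ⟨Finset.mem_univ _, by omega⟩
      · refine dead_of_Xs (op_mono hlt.le T) he ?_ (hal t' T hH')
        rw [op, Finset.mem_filter]
        exact ⟨Finset.mem_univ _, by omega⟩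
    rw [Finset.sum_eq_single_of_mem t ht h0, ind_true ⟨t, Finset.mem_range.1 ht, hH⟩]
    set N := (univ : Finset (Sym2 (Fin n))).filter
      (fun e => H t T ∧ e ∈ Xs R S (op t T) ∧ (T e : ℕ) = t) with hN
    have hc : ∑ e : Sym2 (Fin n), ind (H t T ∧ e ∈ Xs R S (op t T) ∧ (T e : ℕ) = t) =
        (N.card : ℝ) := (cf _ _).symm
    rw [hc]
    have h1 : N.offDiag.card ≤ coin T := by
      unfold coin
      apply Finset.card_le_card
      intro q hq
      rw [Finset.mem_offDiag, hN, Finset.mem_filter, Finset.mem_filter] at hq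
      rw [Finset.mem_filter]
      exact ⟨Finset.mem_univ _, hq.2.2, Fin.ext (by rw [hq.1.2.2.2, hq.2.1.2.2.2])⟩
    rw [Finset.offDiag_card] at h1
    have h2 : N.card ≤ 1 + coin T := by
      rcases Nat.eq_zero_or_pos N.card with h3 | h3
      · omega
      · have h4 : N.card * N.card - N.card = N.card * (N.card - 1) := by
          rw [Nat.mul_sub, Nat.mul_one]
        rw [h4] at h1
        have h5 : N.card - 1 ≤ N.card * (N.card - 1) := Nat.le_mul_of_pos_left _ h3
        omega
    exact_mod_cast h2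
  · have h0 : ∑ t ∈ range t1, ∑ e : Sym2 (Fin n),
        ind (H t T ∧ e ∈ Xs R S (op t T) ∧ (T e : ℕ) = t) = 0 := by
      apply Finset.sum_eq_zero
      intro t ht
      apply Finset.sum_eq_zero
      intro e _
      exact ind_false (fun h => hex ⟨t, ht, e, h⟩)
    rw [h0]
    have := ind_nonneg (∃ t, t < t1 ∧ H t T)
    positivity

/-- the one-step lemma -/
theorem one_step {H : ℕ → Lab n M → Prop} (hH : Adapted H) {R : Set (Col n)}
    {S : Finset (Fin n)} (hal : ∀ t T, H t T → Alive R S (op t T)) (hn : 0 < n)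
    (hM : n ^ 5 ≤ M) (t1 : ℕ) (ht1 : t1 ≤ M) :
    ∑ t ∈ range t1, ∑ T : Lab n M, ind (H t T) * (X R S (op t T) : ℝ) ≤
      2 * M * (∑ T : Lab n M, ind (∃ t, t < t1 ∧ H t T) +
        (M : ℝ) ^ Fintype.card (Sym2 (Fin n)) / n) := by
  have hM0 : 0 < M := lt_of_lt_of_le (by positivity) hM
  have hMr : (0 : ℝ) < M := by exact_mod_cast hM0
  have hnr : (0 : ℝ) < n := by exact_mod_cast hn
  -- step 1
  have h1 : ∀ t ∈ range t1, ∑ T : Lab n M, ind (H t T) * (X R S (op t T) : ℝ) ≤
      2 * M * ∑ T : Lab n M, ∑ e : Sym2 (Fin n),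
        ind (H t T ∧ e ∈ Xs R S (op t T) ∧ (T e : ℕ) = t) := by
    intro t ht
    have htM : t < M := lt_of_lt_of_le (Finset.mem_range.1 ht) ht1
    have h2 : ∀ T : Lab n M, ind (H t T) * (X R S (op t T) : ℝ) ≤
        2 * ∑ e : Sym2 (Fin n), ind (H t T ∧ e ∈ Xs R S (op t T)) := by
      intro T
      by_cases hT : H t T
      · have h3 : ∑ e : Sym2 (Fin n), ind (H t T ∧ e ∈ Xs R S (op t T)) =
            ((Xs R S (op t T)).card : ℝ) := by
          rw [← card_filter_eq_sum_ind]
          congr 2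
          ext e
          simp [hT]
        rw [ind_true hT, one_mul, h3]
        exact_mod_cast X_le R S (op t T)
      · rw [ind_false hT, zero_mul]
        have : 0 ≤ ∑ e : Sym2 (Fin n), ind (H t T ∧ e ∈ Xs R S (op t T)) :=
          Finset.sum_nonneg fun e _ => ind_nonneg _
        linarith
    refine (Finset.sum_le_sum fun T _ => h2 T).trans ?_
    rw [← Finset.mul_sum, mul_assoc]
    apply mul_le_mul_of_nonneg_left _ (by norm_num)
    rw [Finset.sum_comm, Finset.sum_comm (s := (univ : Finset (Lab n M))) (t := univ)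
      (f := fun T e => ind (H t T ∧ e ∈ Xs R S (op t T) ∧ (T e : ℕ) = t)), Finset.mul_sum]
    apply Finset.sum_le_sum
    intro e _
    rw [← cf (univ : Finset (Lab n M)) (fun T => H t T ∧ e ∈ Xs R S (op t T)),
      ← cf (univ : Finset (Lab n M)) (fun T => H t T ∧ e ∈ Xs R S (op t T) ∧ (T e : ℕ) = t)]
    exact_mod_cast step_e hH hal t htM e
  refine (Finset.sum_le_sum h1).trans ?_
  rw [← Finset.mul_sum]
  apply mul_le_mul_of_nonneg_left _ (by positivity)
  rw [Finset.sum_comm]
  refine (Finset.sum_le_sum fun T _ => fixed_T hal t1 T).trans ?_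
  rw [Finset.sum_add_distrib]
  apply add_le_add le_rfl
  have h5 := sum_coin (n := n) (M := M)
  have h6 : Fintype.card (Sym2 (Fin n)) ≤ n ^ 2 := by
    rw [Sym2.card, Fintype.card_fin, Nat.choose_two_right]
    have : (n + 1) * (n + 1 - 1) = n * n + n := by
      rw [Nat.add_sub_cancel]; ring
    rw [this]
    have h7 : n ≤ n * n := Nat.le_mul_self n
    rw [sq]
    omega
  have h8 : (M : ℝ) * ∑ T : Lab n M, (coin T : ℝ) ≤
      (n : ℝ) ^ 4 * (M : ℝ) ^ Fintype.card (Sym2 (Fin n)) := by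
    have h9 : M * ∑ T : Lab n M, coin T ≤ n ^ 4 * M ^ Fintype.card (Sym2 (Fin n)) := by
      refine h5.trans (Nat.mul_le_mul_right _ ?_)
      calc Fintype.card (Sym2 (Fin n)) ^ 2 ≤ (n ^ 2) ^ 2 := Nat.pow_le_pow_left h6 2
        _ = n ^ 4 := by ring
    exact_mod_cast h9
  rw [le_div_iff₀ hnr]
  have h10 : (n : ℝ) ^ 5 ≤ M := by exact_mod_cast hM
  have h11 : (0 : ℝ) ≤ ∑ T : Lab n M, (coin T : ℝ) := by positivity
  have h12 : (n : ℝ) ^ 5 * ∑ T : Lab n M, (coin T : ℝ) ≤
      (n : ℝ) ^ 4 * (M : ℝ) ^ Fintype.card (Sym2 (Fin n)) :=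
    (mul_le_mul_of_nonneg_right h10 h11).trans h8
  have h13 : (n : ℝ) ^ 4 * ((∑ T : Lab n M, (coin T : ℝ)) * n) ≤
      (n : ℝ) ^ 4 * (M : ℝ) ^ Fintype.card (Sym2 (Fin n)) := by
    calc (n : ℝ) ^ 4 * ((∑ T : Lab n M, (coin T : ℝ)) * n)
        = (n : ℝ) ^ 5 * ∑ T : Lab n M, (coin T : ℝ) := by ring
      _ ≤ _ := h12
  exact le_of_mul_le_mul_left h13 (by positivity)

end VI

open VI in
theorem VI_thm (h1 : S_label) : S_visit := by
  intro n M t1 δ B hn hM h2 hδ hB
  have hM0 : 0 < M := lt_of_lt_of_le (by positivity) hM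
  have hMr : (0 : ℝ) < M := by exact_mod_cast hM0
  have hnr : (0 : ℝ) < n := by exact_mod_cast hn
  have ht1 : t1 ≤ M := by omega
  set I := Fintype.card (Sym2 (Fin n)) with hI
  let H : ℕ → Lab n M → Prop := fun t T => (∃ t' ≤ t, B (op t' T)) ∧ AliveU (op t T)
  have hH : Adapted H := by
    intro t T T' h
    have h3 : ∀ t' ≤ t, op t' T = op t' T' := by
      intro t' ht'
      apply op_congr
      intro e
      rcases h e with h | h
      · exact Or.inl h
      · exact Or.inr ⟨ht'.trans h.1, ht'.trans h.2⟩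
    constructor
    · rintro ⟨⟨t', ht', hb⟩, ha⟩
      exact ⟨⟨t', ht', by rw [← h3 t' ht']; exact hb⟩, by rw [← h3 t le_rfl]; exact ha⟩
    · rintro ⟨⟨t', ht', hb⟩, ha⟩
      exact ⟨⟨t', ht', by rw [h3 t' ht']; exact hb⟩, by rw [h3 t le_rfl]; exact ha⟩
  have h4 := one_step (R := Set.univ) (S := univ) hH (fun t T h => h.2) hn hM t1 ht1
  have h5 : ∑ t ∈ range t1, ∑ T : Lab n M, δ * (n : ℝ) ^ 2 * ind (B (op t T)) ≤
      ∑ t ∈ range t1, ∑ T : Lab n M, ind (H t T) * (X Set.univ univ (op t T) : ℝ) := by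
    apply Finset.sum_le_sum
    intro t _
    apply Finset.sum_le_sum
    intro T _
    by_cases hb : B (op t T)
    · have hHt : H t T := ⟨⟨t, le_rfl, hb⟩, (hB _ hb).1⟩
      rw [ind_true hb, ind_true hHt, mul_one, one_mul]
      exact (hB _ hb).2
    · rw [ind_false hb, mul_zero]
      exact mul_nonneg (ind_nonneg _) (Nat.cast_nonneg _)
  have h6 : ∑ T : Lab n M, ind (∃ t, t < t1 ∧ H t T) ≤
      ∑ T : Lab n M, ind (∃ t, t < t1 ∧ B (op t T)) := by
    apply Finset.sum_le_sum
    intro T _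
    apply ind_mono
    rintro ⟨t, ht, ⟨t', ht', hb⟩, _⟩
    exact ⟨t', lt_of_le_of_lt ht' ht, hb⟩
  have h7 : ∑ t ∈ range t1, ∑ T : Lab n M, δ * (n : ℝ) ^ 2 * ind (B (op t T)) =
      δ * (n : ℝ) ^ 2 * ((M : ℝ) ^ I *
        ∑ t ∈ range t1, E ((t : ℝ) / M) (fun ω => ind (B ω))) := by
    rw [Finset.mul_sum, Finset.mul_sum]
    apply Finset.sum_congr rfl
    intro t ht
    rw [← Finset.mul_sum]
    congr 1
    exact h1 n M t hM0 (by have := Finset.mem_range.1 ht; omega) (fun ω => ind (B ω))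
  set Sm := ∑ t ∈ range t1, E ((t : ℝ) / M) (fun ω : Om n => ind (B ω)) with hSm
  set Q := ∑ T : Lab n M, ind (∃ t, t < t1 ∧ B (op t T)) with hQ
  have hSm0 : 0 ≤ Sm := by
    apply Finset.sum_nonneg
    intro t ht
    have := Finset.mem_range.1 ht
    apply E_nonneg (by positivity)
    · rw [div_le_one hMr]
      exact_mod_cast (by omega : t ≤ M)
    · intro ω
      exact ind_nonneg _
  have hMI : (0 : ℝ) < (M : ℝ) ^ I := by positivity
  have h8 : δ * (n : ℝ) ^ 2 * ((M : ℝ) ^ I * Sm) ≤ 2 * M * (Q + (M : ℝ) ^ I / n) := by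
    rw [← h7]
    refine h5.trans (h4.trans ?_)
    apply mul_le_mul_of_nonneg_left _ (by positivity)
    exact add_le_add h6 le_rfl
  rw [sub_le_iff_le_add]
  have h9 : δ * (n : ℝ) ^ 2 * Sm / (2 * M) ≤ Q / (M : ℝ) ^ I + 1 / n := by
    rw [div_le_iff₀ (by positivity)]
    have h10 : (M : ℝ) ^ I * (δ * (n : ℝ) ^ 2 * Sm) ≤
        (M : ℝ) ^ I * ((Q / (M : ℝ) ^ I + 1 / n) * (2 * M)) := by
      have e1 : (M : ℝ) ^ I * ((Q / (M : ℝ) ^ I + 1 / n) * (2 * M)) =
          2 * M * (Q + (M : ℝ) ^ I / n) := by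
        field_simp
      rw [e1]
      refine le_trans (le_of_eq ?_) h8
      ring
    exact le_of_mul_le_mul_left h10 hMI
  refine le_trans ?_ h9
  rw [show δ * (n : ℝ) ^ 2 * Sm / (2 * M) = δ / 2 * ((n : ℝ) ^ 2 / M) * Sm by field_simp]
  have h11 : 0 ≤ (n : ℝ) ^ 2 / M * Sm := by positivity
  nlinarith [mul_nonneg hδ.le h11]

end Pool.Agent.H624C
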